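import Pool.Agent.TFG.Ore

/-! Long paths between two vertices of a Hamiltonian vertex set with some exceptional vertices. -/

namespace Pool.Agent.TFG

open List Pool.Agent.TF82 Pool.Agent.TFC Pool.Agent.TFB Pool.Agent.TFN

universe u

set_option linter.unusedSectionVars false
set_option linter.unusedVariables false

variable {V : Type u} [DecidableEq V]

/-- the first element with a property -/
theorem first_split (P : V → Prop) : ∀ t : List V, (∃ x ∈ t, P x) →
    ∃ r z s, t = r ++ z :: s ∧ P z ∧ ∀ w ∈ r, ¬ P w := by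
  intro t
  induction t with
  | nil => rintro ⟨x, hx, _⟩; simp at hx
  | cons a t ih =>
    rintro ⟨x, hx, hPx⟩
    by_cases h : P a
    · exact ⟨[], a, t, by simp, h, by simp⟩
    · have hx' : x ∈ t := by
        rcases List.mem_cons.1 hx with rfl | hx
        · exact absurd hPx h
        · exact hx
      obtain ⟨r, z, s, h1, h2, h3⟩ := ih ⟨x, hx', hPx⟩
      refine ⟨a :: r, z, s, by rw [h1]; simp, h2, ?_⟩
      intro w hw
      rcases List.mem_cons.1 hw with rfl | hw
      · exact h
      · exact h3 w hw

/-- like `ham_link`; the vertices of `Low` may have small degree -/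
theorem ham_link_low {G : SimpleGraph V} [DecidableRel G.Adj] {c : List V} (hc : CycL G c) {D : ℕ}
    (Low : Finset V) (hδ : ∀ x ∈ c, x ∉ Low → D + Low.card ≤ dU G c.toFinset x)
    (hex : ∃ x ∈ c, x ∉ Low) {x x' : V} (hx : x ∈ c) (hx' : x' ∈ c) (hne : x ≠ x') :
    ∃ Q : List V, Seg G Q x x' ∧ Q.Nodup ∧ (∀ z ∈ Q, z ∈ c) ∧ D + 1 ≤ Q.length := by
  obtain ⟨A', B', hr, -, -⟩ := split_two hc.1 hx hx' hne
  obtain ⟨hn, -, hch, hcl⟩ := hc.of_isRotated hr
  have hperm := hr.perm
  have hq : D + Low.card + 1 ≤ c.length := by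
    obtain ⟨v, hv, hvL⟩ := hex
    exact (Nat.add_le_add_right (hδ v hv hvL) 1).trans (dU_lt hc.1 hv)
  rw [List.isChain_append] at hch
  obtain ⟨hch1, hch2, hch3⟩ := hch
  -- the two arcs
  have hlen : c.length = A'.length + B'.length + 2 := by
    rw [hperm.length_eq]
    simp
    omega
  by_cases c1 : D + 1 ≤ A'.length + 2
  · refine ⟨(x :: A') ++ [x'], ⟨?_, by simp, List.getLast?_concat⟩, ?_, ?_, by simpa using c1⟩
    · rw [List.isChain_append]
      refine ⟨hch1, by simp, ?_⟩
      intro a ha b hb
      exact hch3 a ha b (by simpa using hb)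
    · have e : (x :: A') ++ (x' :: B') = ((x :: A') ++ [x']) ++ B' := by simp
      rw [e] at hn
      exact (List.nodup_append.1 hn).1
    · intro z hz
      apply hperm.mem_iff.2
      simp only [List.cons_append, List.mem_cons, List.mem_append, List.not_mem_nil, or_false] at hz ⊢
      tauto
  by_cases c2 : D + 1 ≤ B'.length + 2
  · refine ⟨x :: (x' :: B').reverse, ⟨?_, rfl, ?_⟩, ?_, ?_, by simpa using c2⟩
    · rw [List.isChain_cons]
      refine ⟨?_, ?_⟩
      · intro y hy
        rw [List.head?_reverse] at hy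
        refine (hcl y ?_ x (by simp)).symm
        rw [List.getLast?_append]
        rw [Option.mem_def] at hy ⊢
        rw [hy]
        rfl
      · rw [List.isChain_reverse]
        exact hch2.imp (fun _ _ h => h.symm)
    · rw [List.reverse_cons, ← List.cons_append, List.getLast?_append]
      simp
    · rw [List.nodup_cons]
      rw [List.nodup_append] at hn
      refine ⟨?_, List.nodup_reverse.2 hn.2.1⟩
      intro h
      exact hn.2.2 x (by simp) x (List.mem_reverse.1 h) rfl
    · intro z hz
      apply hperm.mem_iff.2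
      simp only [List.cons_append, List.mem_cons, List.mem_append, List.mem_reverse] at hz ⊢
      tauto
  -- the inner vertices of the arcs
  have hnA : (A' ++ B').Nodup := by
    have e : (x :: A') ++ (x' :: B') ~ [x, x'] ++ (A' ++ B') := by
      have : (x :: A') ++ (x' :: B') = x :: (A' ++ x' :: B') := rfl
      rw [this]
      have h2 : [x, x'] ++ (A' ++ B') = x :: x' :: (A' ++ B') := rfl
      rw [h2]
      exact List.Perm.cons _ List.perm_middle
    exact (List.nodup_append.1 (e.nodup_iff.1 hn)).2.1
  have hlow : ∀ l : List V, l.Nodup → (∀ z ∈ l, z ∈ Low) → l.length ≤ Low.card := by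
    intro l hl h
    rw [← List.toFinset_card_of_nodup hl]
    exact Finset.card_le_card (fun z hz => h z (List.mem_toFinset.1 hz))
  have exA : ∃ z ∈ A', z ∉ Low := by
    by_contra hcon
    push Not at hcon
    have := hlow A' (List.nodup_append.1 hnA).1 hcon
    omega
  have exB : ∃ z ∈ B', z ∉ Low := by
    by_contra hcon
    push Not at hcon
    have := hlow B' (List.nodup_append.1 hnA).2.1 hcon
    omega
  obtain ⟨A0, u, A, hA, huL, hA0⟩ := first_split (fun z => z ∉ Low) A' exA
  obtain ⟨B0, w, B, hB, hwL, hB0'⟩ := first_split (fun z => z ∉ Low) B' exB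
  have h00 : A0.length + B0.length ≤ Low.card := by
    have h1 : (A0 ++ B0).Nodup := by
      refine List.Nodup.sublist ?_ hnA
      rw [hA, hB]
      exact (List.sublist_append_left _ _).append (List.sublist_append_left _ _)
    have := hlow (A0 ++ B0) h1 (by
      intro z hz
      rcases List.mem_append.1 hz with h | h
      · exact not_not.1 (hA0 z h)
      · exact not_not.1 (hB0' z h))
    rwa [List.length_append] at this
  have hu : u ∈ c := hperm.mem_iff.2 (by rw [hA]; simp)
  have hw : w ∈ c := hperm.mem_iff.2 (by rw [hB]; simp)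
  subst hA hB
  -- the arcs as segments
  have hxA : (x :: (A0 ++ u :: A)) = (x :: A0) ++ (u :: A) := rfl
  have hxB : (x' :: (B0 ++ w :: B)) = (x' :: B0) ++ (w :: B) := rfl
  rw [hxA] at hch1 hch3 hn hperm hcl
  rw [hxB] at hch2 hch3 hn hperm hcl
  rw [List.isChain_append] at hch1 hch2
  have hA' : Seg G ((u :: A) ++ [x']) u x' := by
    refine ⟨?_, by simp, List.getLast?_concat⟩
    rw [List.isChain_append]
    refine ⟨hch1.2.1, by simp, ?_⟩
    intro a ha b hb
    refine hch3 a ?_ b (by simpa using hb)
    rw [List.getLast?_append_of_ne_nil _ (by simp)]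
    exact ha
  have hBl : ∃ z, (w :: B).getLast? = some z := ⟨_, List.getLast?_eq_getLast_of_ne_nil (by simp)⟩
  obtain ⟨z, hz⟩ := hBl
  have hzl : z ∈ ((x :: A0) ++ (u :: A) ++ ((x' :: B0) ++ (w :: B))).getLast? := by
    rw [← List.append_assoc, List.getLast?_append_of_ne_nil _ (by simp)]
    exact hz
  have hzx : G.Adj z x := hcl z hzl x (by simp)
  have hB0 : Seg G (w :: B) w z := ⟨hch2.2.1, rfl, hz⟩
  have hx0 : Seg G [x] x x := ⟨by simp, rfl, rfl⟩
  have hB' : Seg G ((w :: B) ++ [x]) w x := hB0.append hx0 hzx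
  -- a path through the two shortened arcs
  have hbig : D + 1 ≤ A.length + B.length + 4 := by
    simp only [List.length_append, List.length_cons] at hlen
    omega
  have hsub : ([x] ++ (((u :: A) ++ [x']) ++ (w :: B))).Sublist
      ((x :: A0) ++ (u :: A) ++ ((x' :: B0) ++ (w :: B))) := by
    have e : (x :: A0) ++ (u :: A) ++ ((x' :: B0) ++ (w :: B)) =
        ([x] ++ A0) ++ ((u :: A) ++ ([x'] ++ (B0 ++ (w :: B)))) := by simp
    have e2 : [x] ++ (((u :: A) ++ [x']) ++ (w :: B)) = [x] ++ ((u :: A) ++ ([x'] ++ (w :: B))) := by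
      simp
    rw [e, e2]
    exact (List.sublist_append_left _ _).append ((List.Sublist.refl _).append
      ((List.Sublist.refl _).append (List.sublist_append_right _ _)))
  have fin : ∀ Q : List V, Seg G Q x x' → Q ~ [x] ++ (((u :: A) ++ [x']) ++ (w :: B)) →
      ∃ Q : List V, Seg G Q x x' ∧ Q.Nodup ∧ (∀ z ∈ Q, z ∈ c) ∧ D + 1 ≤ Q.length := by
    intro Q hQ hp
    refine ⟨Q, hQ, hp.nodup_iff.2 (hn.sublist hsub), fun z hz =>
      hperm.mem_iff.2 (hsub.subset (hp.mem_iff.1 hz)), ?_⟩
    rw [hp.length_eq]
    simp only [List.length_append, List.length_cons, List.length_nil]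
    omega
  by_cases c3 : ∃ P R a b, (u :: A) ++ [x'] = P ++ a :: b :: R ∧ G.Adj w a ∧ G.Adj u b
  · obtain ⟨P, R, a, b, e, hwa, hub⟩ := c3
    rw [e] at hA'
    obtain ⟨s1, s2⟩ := seg_split hA'
    refine fin ([x] ++ ((w :: B).reverse ++ ((P ++ [a]).reverse ++ (b :: R)))) ?_ ?_
    · exact hx0.append (hB0.rev.append (s1.rev.append s2 hub) hwa) hzx.symm
    · have e1 : (P ++ [a]).reverse ++ (b :: R) ~ (u :: A) ++ [x'] := by
        rw [e]
        have : P ++ a :: b :: R = (P ++ [a]) ++ (b :: R) := by simp
        rw [this]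
        exact (List.reverse_perm _).append_right _
      have e2 : [x] ++ ((w :: B).reverse ++ ((P ++ [a]).reverse ++ (b :: R))) ~
          [x] ++ ((w :: B) ++ ((u :: A) ++ [x'])) :=
        ((List.reverse_perm _).append e1).append_left _
      exact e2.trans (List.perm_append_comm.append_left _)
  by_cases c4 : ∃ P R a b, (w :: B) ++ [x] = P ++ a :: b :: R ∧ G.Adj u a ∧ G.Adj w b
  · obtain ⟨P, R, a, b, e, hua, hwb⟩ := c4
    rw [e] at hB'
    obtain ⟨s1, s2⟩ := seg_split hB'
    refine fin ((b :: R).reverse ++ ((P ++ [a]) ++ ((u :: A) ++ [x']))) ?_ ?_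
    · exact s2.rev.append (s1.append hA' hua.symm) hwb.symm
    · have e1 : (b :: R).reverse ++ ((P ++ [a]) ++ ((u :: A) ++ [x'])) ~
          (b :: R) ++ ((P ++ [a]) ++ ((u :: A) ++ [x'])) := (List.reverse_perm _).append_right _
      have e2 : (b :: R) ++ ((P ++ [a]) ++ ((u :: A) ++ [x'])) ~
          ((P ++ [a]) ++ (b :: R)) ++ ((u :: A) ++ [x']) := by
        rw [← List.append_assoc]
        exact List.perm_append_comm.append_right _
      have e3 : (P ++ [a]) ++ (b :: R) = (w :: B) ++ [x] := by rw [e]; simp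
      rw [e3] at e2
      refine (e1.trans e2).trans ?_
      have e4 : [x] ++ (((u :: A) ++ [x']) ++ (w :: B)) =
          ([x] ++ ((u :: A) ++ [x'])) ++ (w :: B) := by simp
      have e5 : ((w :: B) ++ [x]) ++ ((u :: A) ++ [x']) =
          (w :: B) ++ ([x] ++ ((u :: A) ++ [x'])) := by simp
      rw [e4, e5]
      exact List.perm_append_comm
  -- counting
  exfalso
  have k1 := split_count (fun v => decide (G.Adj w v)) (fun v => decide (G.Adj u v))
    ((u :: A) ++ [x']) (fun P R a b e h => c3 ⟨P, R, a, b, e, by simpa using h.1, by simpa using h.2⟩)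
  have k2 := split_count (fun v => decide (G.Adj u v)) (fun v => decide (G.Adj w v))
    ((w :: B) ++ [x]) (fun P R a b e h => c4 ⟨P, R, a, b, e, by simpa using h.1, by simpa using h.2⟩)
  have du := hδ u hu huL
  have dw := hδ w hw hwL
  rw [dU_countP hperm hn] at du dw
  have e1 : ((u :: A) ++ [x']).dropLast = u :: A := List.dropLast_concat
  have e2 : ((w :: B) ++ [x]).dropLast = w :: B := List.dropLast_concat
  have iu : ¬ G.Adj u u := G.loopless.irrefl u
  have iw : ¬ G.Adj w w := G.loopless.irrefl w
  have l1 := List.countP_le_length (p := fun v => decide (G.Adj u v)) (l := A0)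
  have l2 := List.countP_le_length (p := fun v => decide (G.Adj u v)) (l := B0)
  have l3 := List.countP_le_length (p := fun v => decide (G.Adj w v)) (l := A0)
  have l4 := List.countP_le_length (p := fun v => decide (G.Adj w v)) (l := B0)
  rw [e1] at k1
  rw [e2] at k2
  simp only [List.cons_append, List.tail_cons, List.countP_append, List.countP_cons, List.countP_nil,
    List.length_cons, List.length_append, List.length_nil, decide_eq_true_eq, iu, iw, if_false]
    at k1 k2 du dw hlen c1 c2 l1 l2 l3 l4
  split_ifs at k1 k2 du dw <;> omega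

end Pool.Agent.TFG
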