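import Pool.Agent.TFG.Defs

/-! G1: rerouting through links. -/

namespace Pool.Agent.TFG

open List Pool.Agent.TF82 Pool.Agent.TFC Pool.Agent.TFB Pool.Agent.TFN

universe u

set_option linter.unusedSectionVars false
set_option linter.unusedVariables false

variable {V : Type u} [DecidableEq V]

theorem Link.symm [Fintype V] {G : SimpleGraph V} {F : List (List V)} {y s t : V} {n : ℕ}
    (h : Link G F y n s t) : Link G F y n t s := by
  obtain ⟨Q, x1, x2, h1, h2, h3, h4, h5, h6⟩ := h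
  exact ⟨Q.reverse, x2, x1, h1.rev, List.nodup_reverse.2 h2,
    fun z hz => h3 z (List.mem_reverse.1 hz), by rw [List.length_reverse]; exact h4, h6, h5⟩

theorem Link.mono [Fintype V] {G : SimpleGraph V} {F : List (List V)} {y s t : V} {n m : ℕ}
    (h : Link G F y n s t) (hm : m ≤ n) : Link G F y m s t := by
  obtain ⟨Q, x1, x2, h1, h2, h3, h4, h5, h6⟩ := h
  exact ⟨Q, x1, x2, h1, h2, h3, hm.trans h4, h5, h6⟩

/-- the vertices of a path are reached from its first vertex -/
theorem chain_reach {G : SimpleGraph V} {U : Finset V} : ∀ (q : List V) (a : V),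
    (a :: q).IsChain G.Adj → (∀ x ∈ a :: q, x ∈ U) → ∀ z ∈ a :: q, Reach G U a z
  | [], a, _, _, z, hz => by
    rw [List.mem_singleton] at hz
    rw [hz]
    exact Relation.ReflTransGen.refl
  | b :: q, a, hc, hU, z, hz => by
    rw [List.isChain_cons_cons] at hc
    rcases List.mem_cons.1 hz with rfl | hz
    · exact Relation.ReflTransGen.refl
    · exact Relation.ReflTransGen.head ⟨hU a (by simp), hU b (by simp), hc.1⟩
        (chain_reach q b hc.2 (fun x hx => hU x (List.mem_cons_of_mem _ hx)) z hz)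

/-- a link with one vertex -/
theorem link_one [Fintype V] {G : SimpleGraph V} {F : List (List V)} {y s t : V}
    (hy : y ∈ unc F) (hs : s ∈ att G F y) (ht : t ∈ att G F y) : Link G F y 1 s t := by
  obtain ⟨-, x, hx, hsx⟩ := mem_att.1 hs
  obtain ⟨-, x', hx', htx'⟩ := mem_att.1 ht
  obtain ⟨q, h1, h2, h3, h4, h5⟩ :=
    Reach.path (G := G) (U := unc F) (Relation.ReflTransGen.trans hx.symm hx' : Reach G (unc F) x x')
      (reach_unc hy hx)
  rcases q with _ | ⟨a, q⟩
  · simp at h3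
  · have ha : a = x := by simpa using h3
    subst ha
    refine ⟨a :: q, a, x', ⟨h2, h3, h4⟩, h1, fun z hz => ?_, by simp, hsx, htx'⟩
    exact mem_comp.2 ⟨h5 z hz, Relation.ReflTransGen.trans hx (chain_reach q a h2 h5 z hz)⟩

/-- two attached vertices of one cycle, `a` vertices between them -/
theorem hub1 [Fintype V] {G : SimpleGraph V} {F : List (List V)} (hM : IsMax G F.length F)
    {Lo : ℕ} (hN : NoMerge G F Lo) {s y : V} (hs : s ∈ F.flatten) {a n : ℕ} (ha : a ≤ Lo)
    (hl : Link G F y n ((prv F)^[a + 1] s) s) : n ≤ a := by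
  obtain ⟨Q, x1, x2, h1, h2, h3, h4, h5, h6⟩ := hl
  have := route1 hM hs (a := a) (fun i hi hia => iter_ne hM.fam hN hs i hi (hia.trans ha))
    (chain_ends h1.ch h1.hd h1.lt h5 h6.symm) h2 (fun x hx => mem_unc.1 (mem_comp.1 (h3 x hx)).1)
  omega

/-- two attached vertices, `a` and `b` vertices dropped, an edge at the other side -/
theorem hub2 [Fintype V] {G : SimpleGraph V} {F : List (List V)} (hM : IsMax G F.length F)
    {Lo : ℕ} (hN : NoMerge G F Lo) {s t y : V} (hs : s ∈ F.flatten) (ht : t ∈ F.flatten)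
    (hst : s ≠ t) {a b n : ℕ} (ha : a ≤ Lo) (hb : b ≤ Lo)
    (hsa : ∀ i, 1 ≤ i → i ≤ a → (prv F)^[i] s ≠ t) (htb : ∀ i, 1 ≤ i → i ≤ b → (prv F)^[i] t ≠ s)
    (hl : Link G F y n s t) (hadj : G.Adj ((prv F)^[a + 1] s) ((prv F)^[b + 1] t)) :
    n ≤ a + b := by
  obtain ⟨Q, x1, x2, h1, h2, h3, h4, h5, h6⟩ := hl
  have := route2 hM hs ht hst (a := a) (b := b) (X := []) (Y := Q)
    (fun i hi hia => ⟨iter_ne hM.fam hN hs i hi (hia.trans ha), hsa i hi hia⟩)
    (fun i hi hib => ⟨iter_ne hM.fam hN ht i hi (hib.trans hb), htb i hi hib⟩)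
    (by rw [List.nil_append, List.isChain_cons_cons]; exact ⟨hadj, List.isChain_singleton _⟩)
    (chain_ends h1.ch h1.hd h1.lt h5 h6.symm) (by simpa using h2)
    (fun x hx => mem_unc.1 (mem_comp.1 (h3 x (by simpa using hx))).1)
  simp only [List.length_nil] at this
  omega

/-- the same with a link through another component -/
theorem hub3 [Fintype V] {G : SimpleGraph V} {F : List (List V)} (hM : IsMax G F.length F)
    {Lo : ℕ} (hN : NoMerge G F Lo) {s t y y' : V} (hs : s ∈ F.flatten) (ht : t ∈ F.flatten)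
    (hst : s ≠ t) (hy : y ∈ unc F) (hy' : y' ∈ unc F) (hyy : y' ∉ comp G F y) {a b n n' : ℕ}
    (ha : a ≤ Lo) (hb : b ≤ Lo)
    (hsa : ∀ i, 1 ≤ i → i ≤ a → (prv F)^[i] s ≠ t) (htb : ∀ i, 1 ≤ i → i ≤ b → (prv F)^[i] t ≠ s)
    (hl : Link G F y n s t) (hl' : Link G F y' n' ((prv F)^[a + 1] s) ((prv F)^[b + 1] t)) :
    n + n' ≤ a + b := by
  obtain ⟨Q, x1, x2, h1, h2, h3, h4, h5, h6⟩ := hl
  obtain ⟨Q', x1', x2', g1, g2, g3, g4, g5, g6⟩ := hl'
  have hn : (Q' ++ Q).Nodup := by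
    rw [List.nodup_append]
    refine ⟨g2, h2, ?_⟩
    rintro z hz' _ hz rfl
    exact hyy (mem_comp.2 ⟨hy', Relation.ReflTransGen.trans (mem_comp.1 (h3 z hz)).2
      (Reach.symm (mem_comp.1 (g3 z hz')).2)⟩)
  have := route2 hM hs ht hst (a := a) (b := b) (X := Q') (Y := Q)
    (fun i hi hia => ⟨iter_ne hM.fam hN hs i hi (hia.trans ha), hsa i hi hia⟩)
    (fun i hi hib => ⟨iter_ne hM.fam hN ht i hi (hib.trans hb), htb i hi hib⟩)
    (chain_ends g1.ch g1.hd g1.lt g5 g6.symm)
    (chain_ends h1.ch h1.hd h1.lt h5 h6.symm) hn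
    (fun x hx => by
      rcases List.mem_append.1 hx with hx | hx
      · exact mem_unc.1 (mem_comp.1 (g3 x hx)).1
      · exact mem_unc.1 (mem_comp.1 (h3 x hx)).1)
  omega

end Pool.Agent.TFG
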