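import Pool.Agent.TFG.Hub

/-! Windows before linked hubs: the vertices not adjacent to a vertex shortly before a hub. -/

namespace Pool.Agent.TFG

open List Pool.Agent.TF82 Pool.Agent.TFC Pool.Agent.TFB Pool.Agent.TFN

universe u

set_option linter.unusedSectionVars false
set_option linter.unusedVariables false

variable {V : Type u} [DecidableEq V]

/-- on a single cycle, going back fewer steps than its length does not return -/
theorem iter_ne_one {G : SimpleGraph V} {F : List (List V)} (hF : Fam G F) (hF1 : F.length = 1)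
    {x : V} (hx : x ∈ F.flatten) : ∀ (i : ℕ), 1 ≤ i → i < F.flatten.length →
    (prv F)^[i] x ≠ x := by
  intro i
  induction i using Nat.strong_induction_on with
  | _ i ih =>
  intro hi hiL h
  obtain ⟨P, L', hP, h3, hperm, hL', hlen⟩ := place1 hF hx
  have hn : (P ++ L'.flatten).Nodup := hperm.nodup_iff.1 hF.nod
  have hL0 : L' = [] := by
    have : L'.length = 0 := by omega
    exact List.length_eq_zero_iff.1 this
  have hPlen : P.length ≤ i := by
    by_contra hcon
    push Not at hcon
    obtain ⟨P', T, hPT, hT, hP'⟩ := PSeg.dropN (i - 1) hP (fun k hk hkx => by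
      refine ih (k + 1) (by omega) (by omega) (by omega) ?_
      rwa [Function.iterate_succ_apply])
    have e : (prv F)^[i - 1] (prv F x) = x := by
      rw [← Function.iterate_succ_apply]
      rw [show (i - 1).succ = i by omega]
      exact h
    rw [e] at hP'
    have hPn : P.Nodup := (List.nodup_append.1 hn).1
    have hP'n : P'.Nodup := by
      rw [hPT] at hPn
      exact (List.nodup_append.1 hPn).1
    have hlen' : P'.length ≤ 1 := by
      rcases P' with _ | ⟨u, P'⟩
      · simp
      rcases List.eq_nil_or_concat P' with h0 | ⟨W, w, hw⟩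
      · rw [h0]; simp
      · exfalso
        rw [List.concat_eq_append] at hw
        rw [hw] at hP' hP'n
        have h1 := hP'.hd
        have h2 := hP'.lt
        simp only [List.head?_cons, Option.some.injEq] at h1
        rw [← List.cons_append, List.getLast?_concat] at h2
        simp only [Option.some.injEq] at h2
        rw [h1, h2] at hP'n
        simp at hP'n
    rw [hPT, List.length_append] at hcon
    omega
  have h2 := hperm.length_eq
  rw [List.length_append, hL0] at h2
  simp at h2 hiL
  omega

/-- no return within `Lo` steps -/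
def NoRet (F : List (List V)) (Lo : ℕ) : Prop :=
  ∀ x ∈ F.flatten, ∀ i, 1 ≤ i → i ≤ Lo → (prv F)^[i] x ≠ x

/-- two linked hubs are not close on a cycle -/
theorem link_far [Fintype V] {G : SimpleGraph V} {F : List (List V)} (hM : IsMax G F.length F)
    {s t y : V} (hs : s ∈ F.flatten) {n : ℕ} (hl : Link G F y n t s) (hne : s ≠ t) :
    ∀ i, i ≤ n → (prv F)^[i] s ≠ t := by
  intro i
  induction i using Nat.strong_induction_on with
  | _ i ih =>
  intro hin h
  rcases i with _ | a
  · exact hne h
  obtain ⟨Q, x1, x2, h1, h2, h3, h4, h5, h6⟩ := hl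
  have hret : ∀ i, 1 ≤ i → i ≤ a → (prv F)^[i] s ≠ s := by
    intro i hi hia hs'
    refine ih (a + 1 - i) (by omega) (by omega) ?_
    have e1 : a + 1 = (a + 1 - i) + i := by omega
    have e : (prv F)^[a + 1] s = (prv F)^[a + 1 - i] ((prv F)^[i] s) := by
      rw [← Function.iterate_add_apply, ← e1]
    rw [e, hs'] at h
    exact h
  have := route1 hM hs (a := a) hret
    (chain_ends h1.ch h1.hd h1.lt (by rw [h]; exact h5) h6.symm) h2
    (fun x hx => mem_unc.1 (mem_comp.1 (h3 x hx)).1)
  omega

/-- a vertex shortly before a hub is not adjacent to the vertices shortly before a linked hub -/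
theorem link_nonadj [Fintype V] {G : SimpleGraph V} {F : List (List V)}
    (hM : IsMax G F.length F) {s t y : V} (hs : s ∈ F.flatten) (ht : t ∈ F.flatten) (hst : s ≠ t)
    {n : ℕ} (hl : Link G F y n s t) (hR : NoRet F n) {a b : ℕ} (hab : a + b < n) :
    ¬ G.Adj ((prv F)^[a + 1] s) ((prv F)^[b + 1] t) := by
  intro hadj
  have f1 := link_far hM hs hl.symm hst
  have f2 := link_far hM ht hl hst.symm
  obtain ⟨Q, x1, x2, h1, h2, h3, h4, h5, h6⟩ := hl
  have := route2 hM hs ht hst (a := a) (b := b) (X := []) (Y := Q)
    (fun i hi hia => ⟨hR s hs i hi (by omega), f1 i (by omega)⟩)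
    (fun i hi hib => ⟨hR t ht i hi (by omega), f2 i (by omega)⟩)
    (by rw [List.nil_append, List.isChain_cons_cons]; exact ⟨hadj, List.isChain_singleton _⟩)
    (chain_ends h1.ch h1.hd h1.lt h5 h6.symm) (by simpa using h2)
    (fun x hx => mem_unc.1 (mem_comp.1 (h3 x (by simpa using hx))).1)
  simp only [List.length_nil] at this
  omega

/-- vertices shortly before linked hubs are different -/
theorem link_iter_ne [Fintype V] {G : SimpleGraph V} {F : List (List V)}
    (hM : IsMax G F.length F) {s t y : V} (hs : s ∈ F.flatten) (ht : t ∈ F.flatten) (hst : s ≠ t)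
    {n : ℕ} (hl : Link G F y n s t) {a b : ℕ} (ha : a ≤ n) (hb : b ≤ n) :
    (prv F)^[a] s ≠ (prv F)^[b] t := by
  have key : ∀ (s t : V), s ∈ F.flatten → t ∈ F.flatten → s ≠ t → Link G F y n s t →
      ∀ a b, a ≤ b → b ≤ n → (prv F)^[a] s ≠ (prv F)^[b] t := by
    intro s t hs ht hst hl a b hab hb h
    have e1 : b = a + (b - a) := by omega
    have e : (prv F)^[b] t = (prv F)^[a] ((prv F)^[b - a] t) := by
      rw [← Function.iterate_add_apply, ← e1]
    rw [e] at h
    have h1 := iter_inj hM.fam hs (iter_mem hM.fam ht _) a h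
    exact link_far hM ht hl hst.symm (b - a) (by omega) h1.symm
  rcases le_total a b with h | h
  · exact key s t hs ht hst hl a b h hb
  · exact fun h' => key t s ht hs hst.symm hl.symm b a h ha h'.symm

/-- WINDOW COUNT: `p` is at distance `b + 1` before the hub `w`; the other hubs of a pairwise linked
set `S` give `(|S| - 1) (n - b)` vertices which are not adjacent to `p` -/
theorem nn_count [Fintype V] {G : SimpleGraph V} [DecidableRel G.Adj] {F : List (List V)}
    (hM : IsMax G F.length F) {y w : V} {n : ℕ} (hR : NoRet F n) {S : Finset V}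
    (hS : ∀ s ∈ S, s ∈ F.flatten) (hlink : ∀ s ∈ S, ∀ t ∈ S, s ≠ t → Link G F y n s t)
    (hw : w ∈ S) {b : ℕ} (hb : b < n) :
    (S.card - 1) * (n - b) ≤ (F.flatten.toFinset.filter (fun z =>
      z ≠ (prv F)^[b + 1] w ∧ ¬ G.Adj ((prv F)^[b + 1] w) z)).card := by
  classical
  have hcard : ((S.erase w) ×ˢ Finset.range (n - b)).card = (S.card - 1) * (n - b) := by
    rw [Finset.card_product, Finset.card_erase_of_mem hw, Finset.card_range]
  rw [← hcard]
  refine Finset.card_le_card_of_injOn (fun q : V × ℕ => (prv F)^[q.2 + 1] q.1) ?_ ?_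
  · rintro ⟨t, j⟩ hq
    rw [Finset.mem_coe, Finset.mem_product, Finset.mem_erase, Finset.mem_range] at hq
    obtain ⟨⟨htw, ht⟩, hj⟩ := hq
    simp only at htw ht hj
    have hl := hlink w hw t ht htw.symm
    rw [Finset.mem_coe, Finset.mem_filter, List.mem_toFinset]
    refine ⟨iter_mem hM.fam (hS t ht) _, ?_, ?_⟩
    · exact link_iter_ne hM (hS t ht) (hS w hw) htw hl.symm (by omega) (by omega)
    · exact link_nonadj hM (hS w hw) (hS t ht) htw.symm hl hR (by omega)
  · rintro ⟨t, j⟩ hq ⟨t', j'⟩ hq' h
    rw [Finset.mem_coe, Finset.mem_product, Finset.mem_erase, Finset.mem_range] at hq hq'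
    obtain ⟨⟨htw, ht⟩, hj⟩ := hq
    obtain ⟨⟨htw', ht'⟩, hj'⟩ := hq'
    simp only at htw ht hj htw' ht' hj' h
    have htt : t = t' := by
      by_contra hne
      exact link_iter_ne hM (hS t ht) (hS t' ht') hne (hlink t ht t' ht' hne) (by omega)
        (by omega) h
    subst htt
    have hjj : j = j' := by
      by_contra hne
      have key : ∀ a c : ℕ, a < c → c < n - b → (prv F)^[a + 1] t ≠ (prv F)^[c + 1] t := by
        intro a c hac hc h
        have e1 : c + 1 = (a + 1) + (c - a) := by omega
        have e : (prv F)^[c + 1] t = (prv F)^[a + 1] ((prv F)^[c - a] t) := by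
          rw [← Function.iterate_add_apply, ← e1]
        rw [e] at h
        have h1 := iter_inj hM.fam (hS t ht) (iter_mem hM.fam (hS t ht) _) (a + 1) h
        exact hR t (hS t ht) (c - a) (by omega) (by omega) h1.symm
      rcases Nat.lt_or_gt_of_ne hne with h1 | h1
      · exact key j j' h1 hj' h
      · exact key j' j h1 hj h.symm
    rw [hjj]

end Pool.Agent.TFG
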