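import Mathlib

/-! The final count for at most three cycles (MP_12c032, all n): pure arithmetic. `M l` is the number
of cycles needed for the component `l`, `a l` the number of its rich hubs, `H` the maximum. -/

namespace Pool.Agent.TFG

open Finset

variable {ι : Type*} [DecidableEq ι]

/-- case (A): the base hub is a poor hub of a component with `H` rich hubs -/
theorem arith_A (T : Finset ι) (M a : ι → ℕ) {H k : ℕ} (hk : ∑ l ∈ T, M l = k) (hk3 : k ≤ 3)
    (ha : ∀ l ∈ T, a l ≤ H) : ∑ l ∈ T, M l * a l ≤ 3 * H := by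
  calc ∑ l ∈ T, M l * a l ≤ ∑ l ∈ T, M l * H :=
        Finset.sum_le_sum (fun l hl => Nat.mul_le_mul_left _ (ha l hl))
    _ = k * H := by rw [← Finset.sum_mul, hk]
    _ ≤ 3 * H := Nat.mul_le_mul_right _ hk3

theorem card_le_sum (T : Finset ι) (M : ι → ℕ) (hM : ∀ l ∈ T, 1 ≤ M l) :
    T.card ≤ ∑ l ∈ T, M l := by
  simpa using Finset.sum_le_sum hM

/-- case (B): the base hub is a rich hub of a component `j` with `H` rich hubs; `N` = components
seen by the run end, `Lb` = component labels of the run. -/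
theorem arith_B (T : Finset ι) (M a : ι → ℕ) {H k : ℕ} (hk : ∑ l ∈ T, M l = k) (hk3 : k ≤ 3)
    (hM : ∀ l ∈ T, 1 ≤ M l) (ha : ∀ l ∈ T, a l ≤ H) (hH : 2 ≤ H) {N : Finset ι} (hN : N ⊆ T)
    (hNa : ∀ l ∈ N, a l < H) {Lb : Finset ι} (hLb : Lb ⊆ T) (hd : Disjoint Lb N) {j : ι}
    (hj : j ∈ T) (hjL : j ∉ Lb) (haj : a j = H) (ex1 : ¬ (k = 3 ∧ T.card = 1))
    (ex2 : ¬ (k = 3 ∧ T.card = 2 ∧ Lb.card = 1 ∧ ∀ l ∈ T, a l = H)) :
    ∑ l ∈ T, M l * a l ≤ (T.card + 2 - Lb.card) * (H - 1) + (T.card - N.card) := by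
  obtain ⟨h, rfl⟩ : ∃ h, H = h + 1 := ⟨H - 1, by omega⟩
  have hj1 : 1 ≤ T.card := Finset.card_pos.2 ⟨j, hj⟩
  have htk := card_le_sum T M hM
  have hjN : j ∉ N := fun h' => by have := hNa j h'; omega
  have hL1 : Lb.card + 1 ≤ T.card := by
    rw [← Finset.card_insert_of_notMem hjL]
    exact Finset.card_le_card (Finset.insert_subset hj hLb)
  -- `∑ M a ≤ k h + ∑ (M l if a l = H)`
  have main : ∑ l ∈ T, M l * a l ≤ k * h + ∑ l ∈ T, (if a l = h + 1 then M l else 0) := by
    rw [← hk, Finset.sum_mul, ← Finset.sum_add_distrib]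
    refine Finset.sum_le_sum (fun l hl => ?_)
    have h1 := ha l hl
    split_ifs with h2
    · rw [h2]; ring_nf; rfl
    · have h3 : a l ≤ h := by omega
      exact (Nat.mul_le_mul_left _ h3).trans (Nat.le_add_right _ _)
  set Tq := T.filter (fun l => a l = h + 1) with hTq
  have hE : ∑ l ∈ T, (if a l = h + 1 then M l else 0) + T.card ≤ Tq.card + k := by
    have e1 : T.card = ∑ l ∈ T, 1 := by simp
    have e2 : Tq.card = ∑ l ∈ T, (if a l = h + 1 then 1 else 0) := by
      rw [hTq, Finset.card_filter]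
    rw [e1, e2, ← hk, ← Finset.sum_add_distrib, ← Finset.sum_add_distrib]
    refine Finset.sum_le_sum (fun l hl => ?_)
    have := hM l hl
    split_ifs <;> omega
  have hTN : Tq.card + N.card ≤ T.card := by
    rw [← Finset.card_union_of_disjoint]
    · exact Finset.card_le_card (Finset.union_subset (Finset.filter_subset _ _) hN)
    · rw [Finset.disjoint_left]
      intro l hl hl'
      have := hNa l hl'
      have := (Finset.mem_filter.1 hl).2
      omega
  have hex : T.card = 2 → Lb.card = 1 → Tq.card = 2 → ∀ l ∈ T, a l = h + 1 := by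
    intro h1 h2 h3 l hl
    have : Tq = T := Finset.eq_of_subset_of_card_le (Finset.filter_subset _ _) (by omega)
    rw [← this] at hl
    exact (Finset.mem_filter.1 hl).2
  have hN0 : T.card = 2 → Lb.card = 1 → N.card = 0 := by
    intro h1 h2
    have hc : (insert j (Lb ∪ N)).card ≤ 2 := by
      rw [← h1]
      exact Finset.card_le_card (Finset.insert_subset hj (Finset.union_subset hLb hN))
    rw [Finset.card_insert_of_notMem (by simp [hjL, hjN]), Finset.card_union_of_disjoint hd] at hc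
    omega
  have hT1 : 1 ≤ Tq.card := Finset.card_pos.2 ⟨j, Finset.mem_filter.2 ⟨hj, haj⟩⟩
  generalize (∑ l ∈ T, (if a l = h + 1 then M l else 0)) = E at main hE
  generalize (∑ l ∈ T, M l * a l) = Z at main ⊢
  generalize T.card = t at *
  generalize Tq.card = q at *
  generalize Lb.card = g at *
  generalize N.card = nn at *
  simp only [Nat.add_sub_cancel]
  have hk' : k = 0 ∨ k = 1 ∨ k = 2 ∨ k = 3 := by omega
  have ht' : t = 1 ∨ t = 2 ∨ t = 3 := by omega
  have hg' : g = 0 ∨ g = 1 ∨ g = 2 := by omega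
  rcases hk' with rfl | rfl | rfl | rfl <;> rcases ht' with rfl | rfl | rfl <;>
    rcases hg' with rfl | rfl | rfl <;> first | omega | skip
  all_goals
    first
    | (exfalso; omega)
    | (have h1 := hN0 rfl rfl
       by_cases h2 : q = 2
       · exfalso; exact ex2 ⟨rfl, rfl, rfl, hex rfl rfl h2⟩
       · omega)

end Pool.Agent.TFG
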