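import Pool.Agent.TFG.Defs

/-! G8: clean representatives of the components, covering of Hamiltonian components
(helper36, helper43). -/

namespace Pool.Agent.TFG

open List Pool.Agent.TF82 Pool.Agent.TFC Pool.Agent.TFB Pool.Agent.TFN

universe u

set_option linter.unusedSectionVars false
set_option linter.unusedVariables false

variable {V : Type u} [DecidableEq V]

theorem comp_congr [Fintype V] {G : SimpleGraph V} {L : List (List V)} {y v : V}
    (hv : v ∈ comp G L y) : comp G L v = comp G L y := by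
  rw [mem_comp] at hv
  ext x
  rw [mem_comp, mem_comp]
  constructor
  · rintro ⟨h1, h2⟩
    exact ⟨h1, Relation.ReflTransGen.trans hv.2 h2⟩
  · rintro ⟨h1, h2⟩
    exact ⟨h1, Relation.ReflTransGen.trans hv.2.symm h2⟩

theorem att_congr [Fintype V] {G : SimpleGraph V} {L : List (List V)} {y v : V}
    (hv : v ∈ comp G L y) : att G L v = att G L y := by
  rw [mem_comp] at hv
  ext w
  rw [mem_att, mem_att]
  constructor
  · rintro ⟨h1, x, h2, h3⟩
    exact ⟨h1, x, Relation.ReflTransGen.trans hv.2 h2, h3⟩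
  · rintro ⟨h1, x, h2, h3⟩
    exact ⟨h1, x, Relation.ReflTransGen.trans hv.2.symm h2, h3⟩

theorem self_comp [Fintype V] {G : SimpleGraph V} {L : List (List V)} {y : V}
    (hy : y ∈ unc L) : y ∈ comp G L y := mem_comp.2 ⟨hy, Relation.ReflTransGen.refl⟩

theorem att_nbr [Fintype V] {G : SimpleGraph V} {L : List (List V)} {y w : V} (hy : y ∈ unc L)
    (hw : w ∈ att G L y) : ∃ x ∈ comp G L y, G.Adj w x := by
  obtain ⟨-, x, h1, h2⟩ := mem_att.1 hw
  exact ⟨x, mem_comp.2 ⟨reach_unc hy h1, h1⟩, h2⟩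

theorem clean_exists [Fintype V] {G : SimpleGraph V} [DecidableRel G.Adj]
    (hC : ∀ I : Finset V, G.IsIndepSet (I : Set V) → ∀ v ∈ I, I.card + 1 ≤ dU G Finset.univ v)
    {F : List (List V)} (hM : IsMax G F.length F) {y : V} (hy : y ∈ unc F) :
    ∃ v ∈ comp G F y, Clean G F v := by
  by_contra hcon
  push Not at hcon
  have hyc : y ∈ comp G F y := mem_comp.2 ⟨hy, Relation.ReflTransGen.refl⟩
  have hsame : ∀ x ∈ comp G F y, comp G F x = comp G F y := by
    intro x hx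
    have h1 := (mem_comp.1 hx).2
    ext z
    rw [mem_comp, mem_comp]
    exact ⟨fun h => ⟨h.1, Relation.ReflTransGen.trans h1 h.2⟩,
      fun h => ⟨h.1, Relation.ReflTransGen.trans (Reach.symm h1) h.2⟩⟩
  have hw : ∀ x ∈ comp G F y, ∃ w, w ∈ F.flatten ∧ G.Adj w x ∧
      ∀ x' ∈ comp G F y, x' ≠ x → ¬ G.Adj w x' := by
    intro x hx
    have h1 := hcon x hx
    unfold Clean at h1
    push Not at h1
    obtain ⟨w, hw1, hw2, hw3⟩ := h1
    rw [hsame x hx] at hw3
    exact ⟨w, hw1, hw2, hw3⟩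
  choose! f hf1 hf2 hf3 using hw
  have hsub : ((comp G F y).erase y).image f ⊆ (att G F y).filter (fun w => ¬ G.Adj y w) := by
    intro w hw
    obtain ⟨x, hx, rfl⟩ := Finset.mem_image.1 hw
    rw [Finset.mem_erase] at hx
    rw [Finset.mem_filter]
    refine ⟨mem_att.2 ⟨hf1 x hx.2, x, (mem_comp.1 hx.2).2, hf2 x hx.2⟩, fun h => ?_⟩
    exact hf3 x hx.2 y hyc (Ne.symm hx.1) h.symm
  have hinj : Set.InjOn f ((comp G F y).erase y : Finset V) := by
    intro x hx x' hx' hxx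
    by_contra hne
    rw [Finset.mem_coe, Finset.mem_erase] at hx hx'
    have h1 := hf2 x hx.2
    rw [hxx] at h1
    exact hf3 x' hx'.2 x hx.2 hne h1
  have hc1 := Finset.card_le_card hsub
  rw [Finset.card_image_of_injOn hinj, Finset.card_erase_of_mem hyc] at hc1
  have hc2 := att_main hC hM hy {y} (by simp [SimpleGraph.IsIndepSet]) (by
    intro x hx
    rw [Finset.mem_singleton] at hx
    rw [hx]
    exact Relation.ReflTransGen.refl) (v := y) (by simp)
  rw [Finset.card_singleton, ← dU_comp hyc] at hc2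
  have hc3 : dU G (comp G F y) y ≤ ((comp G F y).erase y).card := by
    unfold dU
    refine Finset.card_le_card fun w hw => ?_
    rw [Finset.mem_filter] at hw
    rw [Finset.mem_erase]
    exact ⟨fun h => G.loopless.irrefl y (h ▸ hw.2), hw.1⟩
  rw [Finset.card_erase_of_mem hyc] at hc3
  omega

/-- one vertex with the property `P` in each component -/
theorem reps [Fintype V] {G : SimpleGraph V} {F : List (List V)} {P : V → Prop}
    (h : ∀ y ∈ unc F, ∃ v ∈ comp G F y, P v) :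
    ∃ J : Finset V, J ⊆ unc F ∧ (∀ v ∈ J, P v) ∧ (∀ y ∈ unc F, ∃ v ∈ J, v ∈ comp G F y) ∧
      ∀ v ∈ J, ∀ v' ∈ J, v' ∈ comp G F v → v' = v := by
  obtain ⟨R, h1, h2, h3⟩ := exists_reps G F
  choose! f hf1 hf2 using h
  refine ⟨R.image f, ?_, ?_, ?_, ?_⟩
  · intro x hx
    obtain ⟨y, hy, rfl⟩ := Finset.mem_image.1 hx
    exact (mem_comp.1 (hf1 y (h1 y hy))).1
  · intro x hx
    obtain ⟨y, hy, rfl⟩ := Finset.mem_image.1 hx
    exact hf2 y (h1 y hy)
  · intro y hy
    obtain ⟨z, hz, hzy⟩ := h3 y hy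
    have h4 := mem_comp.1 (hf1 z (h1 z hz))
    exact ⟨f z, Finset.mem_image_of_mem f hz,
      mem_comp.2 ⟨h4.1, Relation.ReflTransGen.trans (Reach.symm hzy) h4.2⟩⟩
  · intro v hv v' hv' hvv
    obtain ⟨y, hy, rfl⟩ := Finset.mem_image.1 hv
    obtain ⟨z, hz, rfl⟩ := Finset.mem_image.1 hv'
    by_contra hne
    have hyz : y ≠ z := by
      rintro rfl
      exact hne rfl
    refine h2 y hy z hz hyz ?_
    have h4 := (mem_comp.1 (hf1 y (h1 y hy))).2
    have h5 := (mem_comp.1 (hf1 z (h1 z hz))).2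
    exact Relation.ReflTransGen.trans (Relation.ReflTransGen.trans h4 (mem_comp.1 hvv).2) (Reach.symm h5)

theorem cover_ham [Fintype V] {G : SimpleGraph V} {F : List (List V)} {J : Finset V}
    (hJ : J ⊆ unc F) (hJc : ∀ y ∈ unc F, ∃ v ∈ J, v ∈ comp G F y)
    (hH : ∀ y ∈ unc F, ∃ c, CycL G c ∧ ∀ z, z ∈ c ↔ z ∈ comp G F y)
    (hJ1 : ∀ v ∈ J, ∀ v' ∈ J, v' ∈ comp G F v → v' = v) :
    ∃ L : List (List V), L.length ≤ J.card ∧ (∀ c ∈ L, CycL G c) ∧ L.flatten.Nodup ∧
      ∀ x, x ∈ L.flatten ↔ x ∈ unc F := by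
  choose! f hf1 hf2 using hH
  have hL : ∀ c ∈ J.toList.map f, ∃ v ∈ J, c = f v := by
    intro c hc
    obtain ⟨v, hv, rfl⟩ := List.mem_map.1 hc
    exact ⟨v, Finset.mem_toList.1 hv, rfl⟩
  refine ⟨J.toList.map f, by simp, ?_, ?_, ?_⟩
  · intro c hc
    obtain ⟨v, hv, rfl⟩ := hL c hc
    exact hf1 v (hJ hv)
  · rw [List.nodup_flatten]
    refine ⟨?_, ?_⟩
    · intro c hc
      obtain ⟨v, hv, rfl⟩ := hL c hc
      exact (hf1 v (hJ hv)).1
    · rw [List.pairwise_map]
      have h1 : J.toList.Pairwise (fun a b => a ≠ b) := J.nodup_toList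
      have h2 : J.toList.Pairwise (fun a b => a ∈ J.toList ∧ b ∈ J.toList) := by
        rw [List.pairwise_iff_getElem]
        intro i j hi hj _
        exact ⟨List.getElem_mem _, List.getElem_mem _⟩
      refine (h1.and h2).imp ?_
      rintro a b ⟨hab, ha, hb⟩ x hxa hxb
      rw [Finset.mem_toList] at ha hb
      have h3 := mem_comp.1 ((hf2 a (hJ ha) x).1 hxa)
      have h4 := mem_comp.1 ((hf2 b (hJ hb) x).1 hxb)
      exact hab (hJ1 b hb a ha (mem_comp.2 ⟨hJ ha,
        Relation.ReflTransGen.trans h4.2 (Reach.symm h3.2)⟩))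
  · intro x
    rw [List.mem_flatten]
    constructor
    · rintro ⟨c, hc, hx⟩
      obtain ⟨v, hv, rfl⟩ := hL c hc
      exact (mem_comp.1 ((hf2 v (hJ hv) x).1 hx)).1
    · intro hx
      obtain ⟨v, hv, hvx⟩ := hJc x hx
      refine ⟨f v, List.mem_map.2 ⟨v, Finset.mem_toList.2 hv, rfl⟩, ?_⟩
      exact (hf2 v (hJ hv) x).2 (mem_comp.2 ⟨hx, Reach.symm (mem_comp.1 hvx).2⟩)

end Pool.Agent.TFG
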