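import Pool.Agent.TFG.Defs

/-! G9a (H2): condition (C) at a vertex of smallest degree. -/

namespace Pool.Agent.TFG

open List Pool.Agent.TF82 Pool.Agent.TFC Pool.Agent.TFB Pool.Agent.TFN

universe u

set_option linter.unusedSectionVars false
set_option linter.unusedVariables false

variable {V : Type u} [DecidableEq V]

/-- H2 -/
theorem count_d [Fintype V] {G : SimpleGraph V} [DecidableRel G.Adj]
    (hC : ∀ I : Finset V, G.IsIndepSet (I : Set V) → ∀ v ∈ I, I.card + 1 ≤ dU G Finset.univ v)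
    {F : List (List V)} (hM : IsMax G F.length F) {J : Finset V} (hJ : J ⊆ unc F)
    (hJ1 : ∀ v ∈ J, ∀ v' ∈ J, v' ∈ comp G F v → v' = v) {v x0 : V} (hv : v ∈ J)
    (hx0 : x0 ∈ comp G F v) {D : Finset V}
    (hD : ∀ u, u ∈ D ↔ u ∈ att G F v ∧ NJ G J (prv F u)) :
    J.card + 1 ≤ dU G (unc F) x0 + D.card := by
  classical
  have hvU : v ∈ unc F := hJ hv
  have hx0U : x0 ∈ unc F := (mem_comp.1 hx0).1
  have hx0r : Reach G (unc F) v x0 := (mem_comp.1 hx0).2
  have hcov : ∀ w ∈ att G F v, w ∈ F.flatten := fun w hw => (mem_att.1 hw).1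
  have hDsub : D ⊆ att G F v := fun u hu => ((hD u).1 hu).1
  -- the two parts of the independent set
  set A : Finset V := insert x0 (J.erase v) with hA
  set B : Finset V := (att G F v \ D).image (prv F) with hB
  have hAU : ∀ a ∈ A, a ∈ unc F := by
    intro a ha
    rw [hA, Finset.mem_insert] at ha
    rcases ha with rfl | ha
    · exact hx0U
    · exact hJ (Finset.mem_of_mem_erase ha)
  have hBm : ∀ b ∈ B, ∃ u, u ∈ att G F v ∧ u ∉ D ∧ b = prv F u := by
    intro b hb
    rw [hB] at hb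
    obtain ⟨u, hu, rfl⟩ := Finset.mem_image.1 hb
    rw [Finset.mem_sdiff] at hu
    exact ⟨u, hu.1, hu.2, rfl⟩
  have hBF : ∀ b ∈ B, b ∈ F.flatten := by
    intro b hb
    obtain ⟨u, hu, -, rfl⟩ := hBm b hb
    exact prv_mem hM.fam (hcov u hu)
  have hx0J : ∀ w ∈ J.erase v, ¬ G.Adj x0 w := by
    intro w hw hadj
    have hwU : w ∈ unc F := hJ (Finset.mem_of_mem_erase hw)
    refine (Finset.mem_erase.1 hw).1 (hJ1 v hv w (Finset.mem_of_mem_erase hw) ?_)
    exact mem_comp.2 ⟨hwU, Relation.ReflTransGen.tail hx0r ⟨hx0U, hwU, hadj⟩⟩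
  have hJJ : ∀ a ∈ J, ∀ b ∈ J, ¬ G.Adj a b := by
    intro a ha b hb hadj
    have h1 : b ∈ comp G F a :=
      mem_comp.2 ⟨hJ hb, Relation.ReflTransGen.single ⟨hJ ha, hJ hb, hadj⟩⟩
    have h2 := hJ1 a ha b hb h1
    rw [h2] at hadj
    exact G.loopless.irrefl _ hadj
  have hAA : ∀ a ∈ A, ∀ b ∈ A, a ≠ b → ¬ G.Adj a b := by
    intro a ha b hb hab
    rw [hA, Finset.mem_insert] at ha hb
    rcases ha with ha | ha <;> rcases hb with hb | hb
    · exact absurd (ha.trans hb.symm) hab
    · rw [ha]; exact hx0J b hb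
    · rw [hb]; intro h; exact hx0J a ha h.symm
    · exact hJJ a (Finset.mem_of_mem_erase ha) b (Finset.mem_of_mem_erase hb)
  have hAB : ∀ a ∈ A, ∀ b ∈ B, ¬ G.Adj b a := by
    intro a ha b hb hadj
    obtain ⟨u, hu, huD, rfl⟩ := hBm b hb
    rw [hA, Finset.mem_insert] at ha
    rcases ha with rfl | ha
    · exact att_noins hM hvU hu
        (mem_att.2 ⟨prv_mem hM.fam (hcov u hu), a, hx0r, hadj⟩)
    · exact huD ((hD u).2 ⟨hu, a, Finset.mem_of_mem_erase ha, hadj⟩)
  have hBB : ∀ a ∈ B, ∀ b ∈ B, ¬ G.Adj a b := by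
    intro a ha b hb
    obtain ⟨u, hu, huD, rfl⟩ := hBm a ha
    obtain ⟨w, hw, hwD, rfl⟩ := hBm b hb
    exact att_indep hM hvU hu hw
  have hind : G.IsIndepSet ((A ∪ B : Finset V) : Set V) := by
    intro a ha b hb hab
    rw [Finset.mem_coe, Finset.mem_union] at ha hb
    rcases ha with ha | ha <;> rcases hb with hb | hb
    · exact hAA a ha b hb hab
    · intro h; exact hAB a ha b hb h.symm
    · exact hAB b hb a ha
    · exact hBB a ha b hb
  have hdis : Disjoint A B := by
    rw [Finset.disjoint_left]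
    intro a ha hb
    exact mem_unc.1 (hAU a ha) (hBF a hb)
  have hAc : A.card = J.card := by
    have h1 : x0 ∉ J.erase v := by
      intro h
      exact (Finset.mem_erase.1 h).1 (hJ1 v hv x0 (Finset.mem_of_mem_erase h) hx0)
    rw [hA, Finset.card_insert_of_notMem h1, Finset.card_erase_of_mem hv]
    have h2 : 0 < J.card := Finset.card_pos.2 ⟨v, hv⟩
    omega
  have hBc : B.card = (att G F v).card - D.card := by
    rw [hB, Finset.card_image_of_injOn, Finset.card_sdiff_of_subset hDsub]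
    intro a ha b hb hab
    have ha' := (Finset.mem_sdiff.1 (Finset.mem_coe.1 ha)).1
    have hb' := (Finset.mem_sdiff.1 (Finset.mem_coe.1 hb)).1
    exact prv_inj hM.fam (hcov a ha') (hcov b hb') hab
  have h1 := hC (A ∪ B) hind x0 (Finset.mem_union_left _ (Finset.mem_insert_self _ _))
  rw [Finset.card_union_of_disjoint hdis, hAc, hBc] at h1
  have h2 := att_deg hvU hx0r
  have h3 : ((att G F v).filter (fun w => G.Adj x0 w)).card ≤ (att G F v).card :=
    Finset.card_filter_le _ _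
  have h4 := Finset.card_le_card hDsub
  omega

end Pool.Agent.TFG
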