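import Pool.Agent.TFB.CompB
import Pool.Agent.TFN.Defs

/-! GK6: long paths between two vertices of a Hamiltonian vertex set (Ore). -/

namespace Pool.Agent.TFG

open List Pool.Agent.TF82 Pool.Agent.TFC Pool.Agent.TFB Pool.Agent.TFN

universe u

set_option linter.unusedSectionVars false
set_option linter.unusedVariables false

variable {V : Type u} [DecidableEq V]

/-- without a crossing, the two numbers are together at most `l.length - 1` -/
theorem split_count (p q : V → Bool) : ∀ l : List V,
    (∀ P R a b, l = P ++ a :: b :: R → ¬ (p a = true ∧ q b = true)) →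
      l.dropLast.countP p + l.tail.countP q ≤ l.length - 1
  | [], _ => by simp
  | [a], _ => by simp
  | a :: b :: l, h => by
    have ih := split_count p q (b :: l) (fun P R x y hP => h (a :: P) R x y (by rw [hP]; rfl))
    have h1 := h [] l a b rfl
    have e1 : (a :: b :: l).dropLast = a :: (b :: l).dropLast := by simp
    rw [e1, List.countP_cons, List.tail_cons, List.countP_cons]
    simp only [List.tail_cons, List.length_cons] at ih ⊢
    by_cases h2 : p a = true
    · have h3 : ¬ q b = true := fun h3 => h1 ⟨h2, h3⟩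
      simp only [h2, h3, if_true] at ih ⊢
      simp
      omega
    · by_cases h3 : q b = true
      · simp only [h2, h3, if_true] at ih ⊢
        simp
        omega
      · simp only [h2, h3] at ih ⊢
        simp
        omega

/-- splitting a segment -/
theorem seg_split {G : SimpleGraph V} {P R : List V} {a b s t : V}
    (h : Seg G (P ++ a :: b :: R) s t) :
    Seg G (P ++ [a]) s a ∧ Seg G (b :: R) b t := by
  have e : P ++ a :: b :: R = (P ++ [a]) ++ b :: R := by simp
  have hc := h.ch
  have hh := h.hd
  have hl := h.lt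
  rw [e] at hc hh hl
  rw [List.isChain_append] at hc
  refine ⟨⟨hc.1, ?_, by simp⟩, ⟨hc.2.1, rfl, ?_⟩⟩
  · rw [← hh]
    rcases P with _ | ⟨x, P⟩ <;> simp
  · rw [← hl, List.getLast?_append_of_ne_nil _ (by simp)]

theorem dU_countP {G : SimpleGraph V} [DecidableRel G.Adj] {c l : List V} (h : c ~ l)
    (hl : l.Nodup) (u : V) :
    dU G c.toFinset u = l.countP (fun w => decide (G.Adj u w)) := by
  unfold dU
  rw [List.toFinset_eq_of_perm _ _ h, List.countP_eq_length_filter]
  rw [← List.toFinset_card_of_nodup (hl.filter _)]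
  congr 1
  ext x
  simp

theorem dU_lt {G : SimpleGraph V} [DecidableRel G.Adj] {c : List V} (hc : c.Nodup) {x : V}
    (hx : x ∈ c) : dU G c.toFinset x + 1 ≤ c.length := by
  unfold dU
  have h1 : (c.toFinset.filter (fun w => G.Adj x w)) ⊆ c.toFinset.erase x := by
    intro w hw
    rw [Finset.mem_filter] at hw
    rw [Finset.mem_erase]
    exact ⟨fun h => G.loopless.irrefl x (h ▸ hw.2), hw.1⟩
  have h2 := Finset.card_le_card h1
  rw [Finset.card_erase_of_mem (List.mem_toFinset.2 hx), List.toFinset_card_of_nodup hc] at h2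
  have : 1 ≤ c.length := List.length_pos_of_mem hx
  omega

/-- between two vertices of a Hamiltonian vertex set with minimum degree `δ` there is a path with
at least `δ + 1` vertices -/
theorem ham_link {G : SimpleGraph V} [DecidableRel G.Adj] {c : List V} (hc : CycL G c) {δ : ℕ}
    (hδ : ∀ x ∈ c, δ ≤ dU G c.toFinset x) {x x' : V} (hx : x ∈ c) (hx' : x' ∈ c) (hne : x ≠ x') :
    ∃ Q : List V, Seg G Q x x' ∧ Q.Nodup ∧ (∀ z ∈ Q, z ∈ c) ∧ δ + 1 ≤ Q.length := by
  obtain ⟨A, B, hr, -, -⟩ := split_two hc.1 hx hx' hne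
  obtain ⟨hn, -, hch, hcl⟩ := hc.of_isRotated hr
  have hperm := hr.perm
  -- a path that is a permutation of the cycle
  have fin : ∀ Q : List V, Seg G Q x x' → Q ~ ((x :: A) ++ (x' :: B)) →
      ∃ Q : List V, Seg G Q x x' ∧ Q.Nodup ∧ (∀ z ∈ Q, z ∈ c) ∧ δ + 1 ≤ Q.length := by
    intro Q hQ hp
    refine ⟨Q, hQ, hp.nodup_iff.2 hn, fun z hz => hperm.mem_iff.2 (hp.mem_iff.1 hz), ?_⟩
    rw [(hp.trans hperm.symm).length_eq]
    exact (Nat.add_le_add_right (hδ x hx) 1).trans (dU_lt hc.1 hx)
  rw [List.isChain_append] at hch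
  obtain ⟨hch1, hch2, hch3⟩ := hch
  -- the two arcs
  have hlen : c.length = A.length + B.length + 2 := by
    rw [hperm.length_eq]
    simp
    omega
  by_cases c1 : δ + 1 ≤ A.length + 2
  · refine ⟨(x :: A) ++ [x'], ⟨?_, by simp, List.getLast?_concat⟩, ?_, ?_, by simpa using c1⟩
    · rw [List.isChain_append]
      refine ⟨hch1, by simp, ?_⟩
      intro a ha b hb
      exact hch3 a ha b (by simpa using hb)
    · have e : (x :: A) ++ (x' :: B) = ((x :: A) ++ [x']) ++ B := by simp
      rw [e] at hn
      exact (List.nodup_append.1 hn).1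
    · intro z hz
      apply hperm.mem_iff.2
      simp only [List.cons_append, List.mem_cons, List.mem_append, List.not_mem_nil, or_false] at hz ⊢
      tauto
  by_cases c2 : δ + 1 ≤ B.length + 2
  · refine ⟨x :: (x' :: B).reverse, ⟨?_, rfl, ?_⟩, ?_, ?_, by simpa using c2⟩
    · rw [List.isChain_cons]
      refine ⟨?_, ?_⟩
      · intro y hy
        rw [List.head?_reverse] at hy
        refine (hcl y ?_ x (by simp)).symm
        rw [List.getLast?_append]
        rw [Option.mem_def] at hy ⊢
        rw [hy]
        rfl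
      · rw [List.isChain_reverse]
        exact hch2.imp (fun _ _ h => h.symm)
    · rw [List.reverse_cons, ← List.cons_append, List.getLast?_append]
      simp
    · rw [List.nodup_cons]
      rw [List.nodup_append] at hn
      refine ⟨?_, List.nodup_reverse.2 hn.2.1⟩
      intro h
      exact hn.2.2 x (by simp) x (List.mem_reverse.1 h) rfl
    · intro z hz
      apply hperm.mem_iff.2
      simp only [List.cons_append, List.mem_cons, List.mem_append, List.mem_reverse] at hz ⊢
      tauto
  have hd1 := hδ x hx
  have hd2 := dU_lt (G := G) hc.1 hx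
  rcases A with _ | ⟨u, A⟩
  · rw [List.length_nil] at hlen
    omega
  rcases B with _ | ⟨w, B⟩
  · rw [List.length_nil] at hlen
    omega
  have hu : u ∈ c := hperm.mem_iff.2 (by simp)
  have hw : w ∈ c := hperm.mem_iff.2 (by simp)
  -- the arcs as segments
  have hxu : G.Adj x u := by
    rw [List.isChain_cons_cons] at hch1
    exact hch1.1
  have hxw : G.Adj x' w := by
    rw [List.isChain_cons_cons] at hch2
    exact hch2.1
  have hA' : Seg G ((u :: A) ++ [x']) u x' := by
    refine ⟨?_, by simp, List.getLast?_concat⟩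
    rw [List.isChain_append]
    refine ⟨hch1.tail, by simp, ?_⟩
    intro a ha b hb
    refine hch3 a ?_ b (by simpa using hb)
    rw [List.getLast?_cons_cons]
    exact ha
  have hB' : Seg G ((w :: B) ++ [x]) w x := by
    refine ⟨?_, by simp, List.getLast?_concat⟩
    rw [List.isChain_append]
    refine ⟨hch2.tail, by simp, ?_⟩
    intro a ha b hb
    refine hcl a ?_ b (by simpa using hb)
    rw [List.getLast?_append, List.getLast?_cons_cons]
    rw [Option.mem_def] at ha ⊢
    rw [ha]
    rfl
  have hBl : ∃ z, (w :: B).getLast? = some z := ⟨_, List.getLast?_eq_getLast_of_ne_nil (by simp)⟩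
  obtain ⟨z, hz⟩ := hBl
  have hB0 : Seg G (w :: B) w z := ⟨hch2.tail, rfl, hz⟩
  have hzx : G.Adj z x := by
    refine hcl z ?_ x (by simp)
    rw [List.getLast?_append, List.getLast?_cons_cons, hz]
    simp
  have hx0 : Seg G [x] x x := ⟨by simp, rfl, rfl⟩
  by_cases c3 : ∃ P R a b, (u :: A) ++ [x'] = P ++ a :: b :: R ∧ G.Adj w a ∧ G.Adj u b
  · obtain ⟨P, R, a, b, e, hwa, hub⟩ := c3
    rw [e] at hA'
    obtain ⟨s1, s2⟩ := seg_split hA'
    refine fin ([x] ++ ((w :: B).reverse ++ ((P ++ [a]).reverse ++ (b :: R)))) ?_ ?_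
    · exact hx0.append (hB0.rev.append (s1.rev.append s2 hub) hwa) hzx.symm
    · have e1 : (P ++ [a]).reverse ++ (b :: R) ~ (u :: A) ++ [x'] := by
        rw [e]
        have : P ++ a :: b :: R = (P ++ [a]) ++ (b :: R) := by simp
        rw [this]
        exact (List.reverse_perm _).append_right _
      have e2 : [x] ++ ((w :: B).reverse ++ ((P ++ [a]).reverse ++ (b :: R))) ~
          [x] ++ ((w :: B) ++ ((u :: A) ++ [x'])) :=
        ((List.reverse_perm _).append e1).append_left _
      refine e2.trans ?_
      have e3 : (x :: u :: A) ++ (x' :: w :: B) = [x] ++ (((u :: A) ++ [x']) ++ (w :: B)) := by simp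
      rw [e3]
      exact List.perm_append_comm.append_left _
  by_cases c4 : ∃ P R a b, (w :: B) ++ [x] = P ++ a :: b :: R ∧ G.Adj u a ∧ G.Adj w b
  · obtain ⟨P, R, a, b, e, hua, hwb⟩ := c4
    rw [e] at hB'
    obtain ⟨s1, s2⟩ := seg_split hB'
    refine fin ((b :: R).reverse ++ ((P ++ [a]) ++ ((u :: A) ++ [x']))) ?_ ?_
    · exact s2.rev.append (s1.append hA' hua.symm) hwb.symm
    · have e1 : (b :: R).reverse ++ ((P ++ [a]) ++ ((u :: A) ++ [x'])) ~
          (b :: R) ++ ((P ++ [a]) ++ ((u :: A) ++ [x'])) := (List.reverse_perm _).append_right _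
      have e2 : (b :: R) ++ ((P ++ [a]) ++ ((u :: A) ++ [x'])) ~
          ((P ++ [a]) ++ (b :: R)) ++ ((u :: A) ++ [x']) := by
        rw [← List.append_assoc]
        exact List.perm_append_comm.append_right _
      have e3 : (P ++ [a]) ++ (b :: R) = (w :: B) ++ [x] := by rw [e]; simp
      rw [e3] at e2
      refine (e1.trans e2).trans ?_
      have e4 : (x :: u :: A) ++ (x' :: w :: B) = ([x] ++ ((u :: A) ++ [x'])) ++ (w :: B) := by simp
      have e5 : ((w :: B) ++ [x]) ++ ((u :: A) ++ [x']) = (w :: B) ++ ([x] ++ ((u :: A) ++ [x'])) := by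
        simp
      rw [e4, e5]
      exact List.perm_append_comm
  -- counting
  exfalso
  have k1 := split_count (fun v => decide (G.Adj w v)) (fun v => decide (G.Adj u v))
    ((u :: A) ++ [x']) (fun P R a b e h => c3 ⟨P, R, a, b, e, by simpa using h.1, by simpa using h.2⟩)
  have k2 := split_count (fun v => decide (G.Adj u v)) (fun v => decide (G.Adj w v))
    ((w :: B) ++ [x]) (fun P R a b e h => c4 ⟨P, R, a, b, e, by simpa using h.1, by simpa using h.2⟩)
  have du := hδ u hu
  have dw := hδ w hw
  rw [dU_countP hperm hn] at du dw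
  have e1 : ((u :: A) ++ [x']).dropLast = u :: A := List.dropLast_concat
  have e2 : ((w :: B) ++ [x]).dropLast = w :: B := List.dropLast_concat
  have iu : ¬ G.Adj u u := G.loopless.irrefl u
  have iw : ¬ G.Adj w w := G.loopless.irrefl w
  rw [e1] at k1
  rw [e2] at k2
  simp only [List.cons_append, List.tail_cons, List.countP_append, List.countP_cons, List.countP_nil,
    List.length_cons, List.length_append, List.length_nil, decide_eq_true_eq, iu, iw, if_false]
    at k1 k2 du dw hlen c1 c2
  split_ifs at k1 k2 du dw <;> omega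

end Pool.Agent.TFG
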