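import Pool.Agent.TFG.CountH
import Pool.Agent.TFG.CountD
import Pool.Agent.TFG.Ore
import Pool.Agent.TFG.Clean

/-! G10 (H5): all components are Hamiltonian. -/

namespace Pool.Agent.TFG

open List Pool.Agent.TF82 Pool.Agent.TFC Pool.Agent.TFB Pool.Agent.TFN

universe u

set_option linter.unusedSectionVars false
set_option linter.unusedVariables false

variable {V : Type u} [DecidableEq V]

/-- a Hamilton cycle of a component gives a path through all its vertices -/
theorem ham_card [Fintype V] {G : SimpleGraph V} {F : List (List V)} {K : ℕ} {y : V}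
    (hp : ∀ (X : List V) (x1 x2 : V), Seg G X x1 x2 → X.Nodup →
      (∀ z ∈ X, z ∈ comp G F y) → X.length ≤ K + 1)
    {c : List V} (hc : CycL G c) (hcy : ∀ z, z ∈ c ↔ z ∈ comp G F y) :
    (comp G F y).card ≤ K + 1 := by
  have h0 : c ≠ [] := by
    rintro rfl
    have := hc.2.1
    simp at this
  have h1 := hp c (c.head h0) (c.getLast h0)
    ⟨hc.2.2.1, List.head?_eq_some_head h0, List.getLast?_eq_getLast_of_ne_nil h0⟩ hc.1
    (fun z hz => (hcy z).1 hz)
  have h2 : comp G F y = c.toFinset := by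
    ext z
    rw [List.mem_toFinset, hcy]
  rw [h2, List.toFinset_card_of_nodup hc.1]
  exact h1

theorem dU_lt_comp [Fintype V] {G : SimpleGraph V} [DecidableRel G.Adj] {F : List (List V)}
    {y v : V} (hv : v ∈ comp G F y) : dU G (unc F) v + 1 ≤ (comp G F y).card := by
  rw [← dU_comp hv]
  unfold dU
  have h1 : (comp G F y).filter (fun w => G.Adj v w) ⊆ (comp G F y).erase v := by
    intro w hw
    rw [Finset.mem_filter] at hw
    rw [Finset.mem_erase]
    exact ⟨fun h => G.loopless.irrefl v (h ▸ hw.2), hw.1⟩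
  have h2 := Finset.card_le_card h1
  rw [Finset.card_erase_of_mem hv] at h2
  have h3 := Finset.card_pos.2 ⟨v, hv⟩
  omega

theorem case_h [Fintype V] {G : SimpleGraph V} [DecidableRel G.Adj]
    (hC : ∀ I : Finset V, G.IsIndepSet (I : Set V) → ∀ v ∈ I, I.card + 1 ≤ dU G Finset.univ v)
    {F : List (List V)} (hM : IsMax G F.length F) {K Lo : ℕ} (hN : NoMerge G F Lo)
    (hLo : K + 10 ≤ Lo) (hne : (unc F).Nonempty)
    (hp : ∀ y ∈ unc F, ∀ (X : List V) (x1 x2 : V), Seg G X x1 x2 → X.Nodup →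
      (∀ z ∈ X, z ∈ comp G F y) → X.length ≤ K + 1)
    (hbig : ∀ v, (unc F).card + 2 ≤ dU G Finset.univ v)
    (hH : ∀ y ∈ unc F, ∃ c, CycL G c ∧ ∀ z, z ∈ c ↔ z ∈ comp G F y) :
    ∃ L : List (List V), L.length + 1 ≤ K ∧ (∀ c ∈ L, CycL G c) ∧ L.flatten.Nodup ∧
      ∀ x, x ∈ L.flatten ↔ x ∈ unc F := by
  classical
  -- the smallest degree
  obtain ⟨x0, hx0, hmin⟩ := Finset.exists_min_image (unc F) (fun x => dU G (unc F) x) hne
  obtain ⟨δ, hδ⟩ : ∃ δ, δ = dU G (unc F) x0 := ⟨_, rfl⟩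
  have hself : ∀ y ∈ unc F, y ∈ comp G F y := fun y hy =>
    mem_comp.2 ⟨hy, Relation.ReflTransGen.refl⟩
  have hcomp : ∀ y ∈ unc F, (comp G F y).card ≤ K + 1 := fun y hy => by
    obtain ⟨c, hc, hcy⟩ := hH y hy
    exact ham_card (hp y hy) hc hcy
  have hδK : δ ≤ K := by
    have h1 := dU_lt_comp (G := G) (hself x0 hx0)
    have h2 := hcomp x0 hx0
    omega
  -- clean representatives
  obtain ⟨J, hJ, hJP, hJc, hJ1⟩ := reps (P := Clean G F) (fun y hy => clean_exists hC hM hy)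
  have hlink : ∀ v ∈ J, ∀ s ∈ F.flatten, G.Adj s v → ∀ t ∈ att G F v,
      Link G F v (δ + 1) s t := by
    intro v hv s hs hsv t ht
    obtain ⟨c, hc, hcv⟩ := hH v (hJ hv)
    have hcF : c.toFinset = comp G F v := by
      ext z
      rw [List.mem_toFinset, hcv]
    refine link_clean (hJ hv) (hJP v hv) ?_ hs hsv ht
    intro x hx hxv
    obtain ⟨Q, h1, h2, h3, h4⟩ := ham_link hc (δ := δ) (fun z hz => by
      rw [hcF, dU_comp ((hcv z).1 hz), hδ]
      exact hmin z (mem_comp.1 ((hcv z).1 hz)).1)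
      ((hcv v).2 (hself v (hJ hv))) ((hcv x).2 hx) (Ne.symm hxv)
    exact ⟨Q, h1, h2, fun z hz => (hcv z).1 (h3 z hz), h4⟩
  -- the component of `x0`
  obtain ⟨v, hv, hvx⟩ := hJc x0 hx0
  have hx0v : x0 ∈ comp G F v := mem_comp.2 ⟨hx0, (mem_comp.1 hvx).2.symm⟩
  obtain ⟨D, hD⟩ : ∃ D : Finset V, D = (att G F v).filter (fun u => NJ G J (prv F u)) := ⟨_, rfl⟩
  have hD' : ∀ u, u ∈ D ↔ u ∈ att G F v ∧ NJ G J (prv F u) := fun u => by
    rw [hD, Finset.mem_filter]
  have h2 := count_d hC hM hJ hJ1 hv hx0v hD'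
  have h5 := count_h hC hM hN (δ := δ) (by omega) hJ hJ1 hlink hv
    (by
      have h1 := hbig v
      have h3 : dU G (unc F) v ≤ (unc F).card := Finset.card_filter_le _ _
      omega)
    (fun s t a b hs hsv ht htv hst hab hh => by
      have h4 := two_runs hM hN (δ := δ) (by omega) hJ hJ1 hlink hv hD' hs hsv ht htv hst hab
        hh.1 hh.2
      omega)
  obtain ⟨L, hL1, hL2, hL3, hL4⟩ := cover_ham hJ hJc hH hJ1
  refine ⟨L, ?_, hL2, hL3, hL4⟩
  have h6 := dU_lt_comp (G := G) (hself v (hJ hv))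
  have h7 := hcomp v (hJ hv)
  omega

end Pool.Agent.TFG
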