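import Pool.Agent.TFG.Defs

/-! G2 (N1, N2): a clean end of a longest path with few neighbours (helper46). -/

namespace Pool.Agent.TFG

open List Pool.Agent.TF82 Pool.Agent.TFC Pool.Agent.TFB Pool.Agent.TFN

universe u

set_option linter.unusedSectionVars false
set_option linter.unusedVariables false

variable {V : Type u} [DecidableEq V]

/-- the neighbours of the head of a longest path lie on the path -/
theorem ends_nbr [Fintype V] {G : SimpleGraph V} [DecidableRel G.Adj]
    {F : List (List V)} {y : V} {l : List V} {v w : V} (hl : Seg G l v w)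
    (hn : l.Nodup) (hc : ∀ z ∈ l, z ∈ comp G F y)
    (hmax : ∀ (X : List V) (x1 x2 : V), Seg G X x1 x2 → X.Nodup → (∀ z ∈ X, z ∈ comp G F y) →
      X.length ≤ l.length) {z : V} (hz : z ∈ unc F) (hvz : G.Adj v z) : z ∈ l := by
  by_contra hzl
  have hv : v ∈ l := List.mem_of_head? hl.hd
  have h1 := hmax (z :: l) z w ⟨?_, rfl, ?_⟩ (List.nodup_cons.2 ⟨hzl, hn⟩) ?_
  · rw [List.length_cons] at h1
    omega
  · rw [List.isChain_cons]
    refine ⟨?_, hl.ch⟩
    intro x hx
    rw [hl.hd] at hx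
    simp only [Option.mem_def, Option.some.injEq] at hx
    rw [← hx]
    exact hvz.symm
  · rw [List.getLast?_cons, hl.lt]
    rfl
  · intro x hx
    rcases List.mem_cons.1 hx with h | h
    · rw [h]
      exact Pool.Agent.TFX.px_nbr (hc v hv) hz hvz
    · exact hc x h

/-- a longest path with the same vertices and the same last vertex whose head is clean -/
theorem ends_rot [Fintype V] {G : SimpleGraph V} [DecidableRel G.Adj]
    (hC : ∀ I : Finset V, G.IsIndepSet (I : Set V) → ∀ v ∈ I, I.card + 1 ≤ dU G Finset.univ v)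
    {F : List (List V)} (hM : IsMax G F.length F) {y : V} (hy : y ∈ unc F)
    {l : List V} {v w : V} (hl : Seg G l v w) (hn : l.Nodup) (hc : ∀ z ∈ l, z ∈ comp G F y)
    (hmax : ∀ (X : List V) (x1 x2 : V), Seg G X x1 x2 → X.Nodup → (∀ z ∈ X, z ∈ comp G F y) →
      X.length ≤ l.length) :
    ∃ (l' : List V) (v' : V), Seg G l' v' w ∧ l'.Perm l ∧ Clean G F v' := by
  classical
  have hvl : v ∈ l := List.mem_of_head? hl.hd
  have hvc : v ∈ comp G F y := hc v hvl
  obtain ⟨N, hN⟩ : ∃ N : Finset V, N = (unc F).filter (fun z => G.Adj v z) := ⟨_, rfl⟩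
  have hNl : ∀ z ∈ N, z ∈ l := by
    intro z hz
    rw [hN, Finset.mem_filter] at hz
    exact ends_nbr hl hn hc hmax hz.1 hz.2
  obtain ⟨H, hH⟩ : ∃ H : Finset V, H = N.attach.image (fun z => l.prev z.1 (hNl z.1 z.2)) :=
    ⟨_, rfl⟩
  have hHcard : H.card = N.card := by
    rw [hH, Finset.card_image_of_injective, Finset.card_attach]
    intro a b hab
    exact Subtype.ext (prev_inj hn _ _ hab)
  have hNcard : N.card = dU G (unc F) v := by
    rw [hN]
    rfl
  -- some head is clean
  have hex : ∃ h ∈ H, Clean G F h := by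
    by_contra hcon
    push Not at hcon
    have hcomp : ∀ h ∈ comp G F y, comp G F h = comp G F y := by
      intro h hh
      rw [mem_comp] at hh
      ext x
      rw [mem_comp, mem_comp]
      constructor
      · rintro ⟨h1, h2⟩
        exact ⟨h1, Relation.ReflTransGen.trans hh.2 h2⟩
      · rintro ⟨h1, h2⟩
        exact ⟨h1, Relation.ReflTransGen.trans (Reach.symm hh.2) h2⟩
    have hHl : ∀ h ∈ H, h ∈ l := by
      intro h hh
      rw [hH, Finset.mem_image] at hh
      obtain ⟨z, _, rfl⟩ := hh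
      exact List.prev_mem _ _ _
    have hpend : ∀ h ∈ H.erase v, ∃ s ∈ (att G F y).filter (fun s => ¬ G.Adj v s), G.Adj s h ∧
        ∀ x ∈ comp G F y, x ≠ h → ¬ G.Adj s x := by
      intro h hh
      rw [Finset.mem_erase] at hh
      have h1 := hcon h hh.2
      unfold Clean at h1
      push Not at h1
      obtain ⟨s, hs, hsh, h2⟩ := h1
      have hhc := hc h (hHl h hh.2)
      rw [hcomp h hhc] at h2
      refine ⟨s, ?_, hsh, h2⟩
      rw [Finset.mem_filter, mem_att]
      exact ⟨⟨hs, h, (mem_comp.1 hhc).2, hsh⟩, fun h3 => h2 v hvc (Ne.symm hh.1) h3.symm⟩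
    choose! f hf1 hf2 hf3 using hpend
    have h1 : (H.erase v).card ≤ ((att G F y).filter (fun s => ¬ G.Adj v s)).card := by
      apply Finset.card_le_card_of_injOn f
      · intro h hh
        exact hf1 h hh
      · intro h hh h' hh' heq
        by_contra hne
        refine hf3 h hh h' (hc h' (hHl h' (Finset.mem_of_mem_erase hh'))) (Ne.symm hne) ?_
        rw [heq]
        exact hf2 h' hh'
    have h2 := att_main hC hM hy {v} (by simp) (by
      intro x hx
      rw [Finset.mem_singleton] at hx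
      rw [hx]
      exact (mem_comp.1 hvc).2) (Finset.mem_singleton_self v)
    rw [Finset.card_singleton] at h2
    have h3 := Finset.pred_card_le_card_erase (s := H) (a := v)
    omega
  obtain ⟨h, hh, hcl⟩ := hex
  rw [hH, Finset.mem_image] at hh
  obtain ⟨⟨z, hzN⟩, _, hzh⟩ := hh
  simp only at hzh
  have hvz : G.Adj v z := by
    rw [hN, Finset.mem_filter] at hzN
    exact hzN.2
  have hzl := hNl z hzN
  rcases l with _ | ⟨v0, t⟩
  · simp at hvl
  have hv0 : v0 = v := by
    have := hl.hd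
    simpa using this
  subst hv0
  have hzv : z ≠ v0 := fun h => G.loopless.irrefl v0 (h ▸ hvz)
  have hzt : z ∈ t := by
    rcases List.mem_cons.1 hzl with h | h
    · exact absurd h hzv
    · exact h
  obtain ⟨A, B, rfl⟩ := List.append_of_mem hzt
  have hrot : (v0 :: (A ++ z :: B)) ~r (z :: (B ++ (v0 :: A))) := by
    simpa using (List.isRotated_append (l := v0 :: A) (l' := z :: B))
  rw [prev_of_rot hn hrot hzl] at hzh
  have hsplit : v0 :: (A ++ z :: B) = (v0 :: A) ++ (z :: B) := by simp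
  have hA : (v0 :: A).getLast? = some h := by
    have e : ((z :: B) ++ (v0 :: A)).getLast? = some h := by
      rw [List.getLast?_eq_getLast_of_ne_nil (by simp)]
      exact congrArg some hzh
    rw [List.getLast?_append] at e
    rcases hq : (v0 :: A).getLast? with _ | b
    · simp at hq
    · rw [hq] at e
      simpa using e
  have hch := hl.ch
  rw [hsplit, List.isChain_append] at hch
  have hlt := hl.lt
  rw [hsplit] at hlt
  have hB : (z :: B).getLast? = some w := by
    rw [List.getLast?_append] at hlt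
    rcases hq : (z :: B).getLast? with _ | b
    · simp at hq
    · rw [hq] at hlt
      simpa using hlt
  have s1 : Seg G (v0 :: A) v0 h := ⟨hch.1, rfl, hA⟩
  have s2 : Seg G (z :: B) z w := ⟨hch.2.1, rfl, hB⟩
  refine ⟨(v0 :: A).reverse ++ (z :: B), h, s1.rev.append s2 hvz, ?_, hcl⟩
  rw [hsplit]
  exact (List.reverse_perm _).append_right _

/-- a cycle through the vertices of a longest path contains the whole component -/
theorem ends_ham [Fintype V] {G : SimpleGraph V} {F : List (List V)} {y : V} (hy : y ∈ unc F)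
    {l c : List V} (hc : CycL G c) (hcl : c.Perm l) (hl : ∀ z ∈ l, z ∈ comp G F y)
    (hmax : ∀ (X : List V) (x1 x2 : V), Seg G X x1 x2 → X.Nodup → (∀ z ∈ X, z ∈ comp G F y) →
      X.length ≤ l.length) : ∀ z, z ∈ c ↔ z ∈ comp G F y := by
  have hcc : ∀ z ∈ c, z ∈ comp G F y := fun z hz => hl z (hcl.mem_iff.1 hz)
  have hstep : ∀ x ∈ c, ∀ z ∈ unc F, G.Adj x z → z ∈ c := by
    intro x hx z hz hxz
    by_contra hzc
    obtain ⟨r, hr⟩ := rot_cons hx
    have hc' := hc.of_isRotated hr
    obtain ⟨b, hb⟩ : ∃ b, (z :: x :: r).getLast? = some b := by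
      refine ⟨(z :: x :: r).getLast (by simp), ?_⟩
      rw [List.getLast?_eq_getLast_of_ne_nil (by simp)]
    have h1 := hmax (z :: x :: r) z b ⟨?_, rfl, hb⟩ ?_ ?_
    · have h2 := hr.perm.length_eq
      have h3 := hcl.length_eq
      rw [List.length_cons, List.length_cons] at h1
      rw [List.length_cons] at h2
      omega
    · rw [List.isChain_cons_cons]
      exact ⟨hxz.symm, hc'.2.2.1⟩
    · rw [List.nodup_cons]
      exact ⟨fun h => hzc (hr.perm.mem_iff.2 h), hc'.1⟩
    · intro u hu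
      rcases List.mem_cons.1 hu with h | h
      · rw [h]
        exact Pool.Agent.TFX.px_nbr (hcc x hx) hz hxz
      · exact hcc u (hr.perm.mem_iff.2 h)
  have hne : ∃ x, x ∈ c := by
    rcases c with _ | ⟨x, r⟩
    · have := hc.2.1
      simp at this
    · exact ⟨x, by simp⟩
  obtain ⟨x0, hx0⟩ := hne
  have hreach : ∀ z, Reach G (unc F) x0 z → z ∈ c := by
    intro z hz
    induction hz with
    | refl => exact hx0
    | tail _ hbc ih => exact hstep _ ih _ hbc.2.1 hbc.2.2
  intro z
  constructor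
  · exact hcc z
  · intro hz
    apply hreach
    exact Relation.ReflTransGen.trans (Reach.symm (mem_comp.1 (hcc x0 hx0)).2) (mem_comp.1 hz).2

theorem ends [Fintype V] {G : SimpleGraph V} [DecidableRel G.Adj]
    (hC : ∀ I : Finset V, G.IsIndepSet (I : Set V) → ∀ v ∈ I, I.card + 1 ≤ dU G Finset.univ v)
    {F : List (List V)} (hM : IsMax G F.length F) {y : V} (hy : y ∈ unc F) {K : ℕ}
    (hp : ∀ (X : List V) (x1 x2 : V), Seg G X x1 x2 → X.Nodup → (∀ z ∈ X, z ∈ comp G F y) →
      X.length ≤ K + 1)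
    (hnh : ¬ ∃ c, CycL G c ∧ ∀ z, z ∈ c ↔ z ∈ comp G F y) :
    ∃ (l : List V) (v w : V), Seg G l v w ∧ l.Nodup ∧ (∀ z ∈ l, z ∈ comp G F y) ∧
      (∀ (X : List V) (x1 x2 : V), Seg G X x1 x2 → X.Nodup → (∀ z ∈ X, z ∈ comp G F y) →
        X.length ≤ l.length) ∧ Clean G F v ∧ 2 * dU G (unc F) v ≤ K := by
  classical
  -- a longest path
  obtain ⟨m, ⟨l0, v0, w0, hl0, hn0, hc0, rfl⟩, hmax0⟩ := exists_max_nat
    (fun m => ∃ (l : List V) (v w : V), Seg G l v w ∧ l.Nodup ∧ (∀ z ∈ l, z ∈ comp G F y) ∧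
      l.length = m) (K + 1)
    ⟨1, [y], y, y, ⟨by simp, rfl, rfl⟩, by simp, by
      intro z hz
      rw [List.mem_singleton] at hz
      rw [hz]
      exact mem_comp.2 ⟨hy, Relation.ReflTransGen.refl⟩, rfl⟩
    (by
      rintro m ⟨l, v, w, h1, h2, h3, rfl⟩
      exact hp l v w h1 h2 h3)
  have hmax : ∀ (X : List V) (x1 x2 : V), Seg G X x1 x2 → X.Nodup →
      (∀ z ∈ X, z ∈ comp G F y) → X.length ≤ l0.length :=
    fun X x1 x2 h1 h2 h3 => hmax0 _ ⟨X, x1, x2, h1, h2, h3, rfl⟩
  obtain ⟨l1, v1, hl1, hp1, hcl1⟩ := ends_rot hC hM hy hl0 hn0 hc0 hmax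
  have hn1 : l1.Nodup := hp1.nodup_iff.2 hn0
  have hc1 : ∀ z ∈ l1, z ∈ comp G F y := fun z hz => hc0 z (hp1.mem_iff.1 hz)
  have hp1' : l1.reverse.Perm l0 := (List.reverse_perm l1).trans hp1
  obtain ⟨l2, v2, hl2, hp2, hcl2⟩ := ends_rot hC hM hy (l := l1.reverse) hl1.rev
    (List.nodup_reverse.2 hn1) (fun z hz => hc1 z (List.mem_reverse.1 hz))
    (by
      rw [hp1'.length_eq]
      exact hmax)
  have hp3 : l2.Perm l0 := hp2.trans hp1'
  have hn2 : l2.Nodup := hp3.nodup_iff.2 hn0
  have hc2 : ∀ z ∈ l2, z ∈ comp G F y := fun z hz => hc0 z (hp3.mem_iff.1 hz)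
  have hmax2 : ∀ (X : List V) (x1 x2 : V), Seg G X x1 x2 → X.Nodup →
      (∀ z ∈ X, z ∈ comp G F y) → X.length ≤ l2.length := by
    rw [hp3.length_eq]
    exact hmax
  have hmax2r : ∀ (X : List V) (x1 x2 : V), Seg G X x1 x2 → X.Nodup →
      (∀ z ∈ X, z ∈ comp G F y) → X.length ≤ l2.reverse.length := by
    rw [List.length_reverse]
    exact hmax2
  -- the degrees of the ends
  have hcnt : ∀ (a : V), (∀ z ∈ unc F, G.Adj a z → z ∈ l2) → dU G (unc F) a ≤ cnt G a l2 := by
    intro a ha
    rw [cnt_eq_card a hn2]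
    unfold dU
    apply Finset.card_le_card
    intro z hz
    rw [Finset.mem_filter] at hz ⊢
    exact ⟨List.mem_toFinset.2 (ha z hz.1 hz.2), hz.2⟩
  have hda := hcnt v2 (fun z hz h => ends_nbr hl2 hn2 hc2 hmax2 hz h)
  have hdb := hcnt v1 (fun z hz h => List.mem_reverse.1
    (ends_nbr hl2.rev (List.nodup_reverse.2 hn2) (fun z hz => hc2 z (List.mem_reverse.1 hz))
      hmax2r hz h))
  have hdeg : 2 ≤ dU G (unc F) v2 := by
    have h2 := att_main hC hM hy {v2} (by simp) (by
      intro x hx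
      rw [Finset.mem_singleton] at hx
      rw [hx]
      exact (mem_comp.1 (hc2 v2 (List.mem_of_head? hl2.hd))).2) (Finset.mem_singleton_self v2)
    rw [Finset.card_singleton] at h2
    omega
  have hlen : 3 ≤ l2.length := by
    have h1 : insert v2 ((unc F).filter (fun z => G.Adj v2 z)) ⊆ l2.toFinset := by
      intro z hz
      rw [Finset.mem_insert, Finset.mem_filter] at hz
      rw [List.mem_toFinset]
      rcases hz with h | h
      · rw [h]
        exact List.mem_of_head? hl2.hd
      · exact ends_nbr hl2 hn2 hc2 hmax2 h.1 h.2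
    have h2 := (Finset.card_le_card h1).trans (List.toFinset_card_le l2)
    rw [Finset.card_insert_of_notMem (by
      rw [Finset.mem_filter]
      rintro ⟨_, h⟩
      exact G.loopless.irrefl _ h)] at h2
    unfold dU at hdeg
    omega
  have hsum : cnt G v2 l2 + cnt G v1 l2 + 1 ≤ l2.length := by
    apply path_count hn2 hl2.hd hl2.lt
    intro z hz h1 h2
    obtain ⟨c, hc, hcp⟩ := close_path hn2 hlen hl2.ch hl2.hd hl2.lt hz h1 h2
    exact hnh ⟨c, hc, ends_ham hy hc hcp hc2 hmax2⟩
  have hlK := hp l2 v2 v1 hl2 hn2 hc2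
  rcases Nat.le_total (dU G (unc F) v2) (dU G (unc F) v1) with h | h
  · exact ⟨l2, v2, v1, hl2, hn2, hc2, hmax2, hcl2, by omega⟩
  · exact ⟨l2.reverse, v1, v2, hl2.rev, List.nodup_reverse.2 hn2,
      fun z hz => hc2 z (List.mem_reverse.1 hz), hmax2r, hcl1, by omega⟩

end Pool.Agent.TFG
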