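import Pool.Agent.TF82.Base

/-! MP_12c032_co, general `k`, module GK4: the lobe of a vertex and a cover of `U` whose number of
cycles is the number of elements of an independent set through the vertex (by helper49). -/

set_option autoImplicit false
set_option linter.unusedSectionVars false

namespace Pool.Agent.TFG

open List Pool.Agent.TF82

universe u

variable {V : Type u} [DecidableEq V]

/-- A cycle in `U` containing all neighbours in `U` of the vertex `x0`. -/
def ClosedAt (G : SimpleGraph V) (U : Finset V) (x0 : V) (c : List V) : Prop :=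
  CycL G c ∧ (∀ x ∈ c, x ∈ U) ∧ x0 ∈ c ∧ ∀ z ∈ U, G.Adj x0 z → z ∈ c

theorem exists_max_closedAt {G : SimpleGraph V} {U : Finset V} {x0 : V}
    (h : ∃ c, ClosedAt G U x0 c) :
    ∃ c, ClosedAt G U x0 c ∧ ∀ c', ClosedAt G U x0 c' → c'.length ≤ c.length := by
  obtain ⟨c0, hc0⟩ := h
  obtain ⟨m, ⟨c, h1, h2⟩, hmax⟩ := exists_max_nat
    (fun m => ∃ c : List V, ClosedAt G U x0 c ∧ c.length = m) U.card ⟨_, c0, hc0, rfl⟩
    (by
      rintro m ⟨l, h1, rfl⟩
      exact nodup_len_le h1.1.1 h1.2.1)
  exact ⟨c, h1, fun c' hc' => by rw [h2]; exact hmax _ ⟨c', hc', rfl⟩⟩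

/-- deleting a longest cycle closed at `x0` keeps the local condition -/
theorem cloc_sdiff {G : SimpleGraph V} [DecidableRel G.Adj] {U : Finset V} (hC : CLoc G U)
    {x0 : V} {c : List V} (hcl : ClosedAt G U x0 c)
    (hmax : ∀ c', ClosedAt G U x0 c' → c'.length ≤ c.length) :
    CLoc G (U.filter (fun x => x ∉ c)) := by
  obtain ⟨hc, hcU, hx0, hx0cl⟩ := hcl
  set W : Finset V := U.filter (fun x => x ∉ c) with hW
  have hWU : W ⊆ U := Finset.filter_subset _ _
  -- no insertion is possible
  have noins : ∀ {y a v : V} (hy : y ∈ c), a ∈ W → Reach G W a v → G.Adj v y →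
      ¬ G.Adj (c.prev y hy) a := by
    intro y a v hy haW hav hvy hadj
    obtain ⟨q, hq1, hq2, hq3, hq4, hq5⟩ := hav.path haW
    obtain ⟨c', hc', hmem, hlen⟩ := insert_path hc hy hq1 hq2
      (fun x hx => (Finset.mem_filter.1 (hq5 x hx)).2) hq3 hq4 hadj hvy
    have hcl : ClosedAt G U x0 c' := by
      refine ⟨hc', ?_, (hmem x0).2 (Or.inl hx0), ?_⟩
      · intro x hx
        rcases (hmem x).1 hx with h | h
        · exact hcU x h
        · exact hWU (hq5 x h)
      · intro z hz hxz
        exact (hmem z).2 (Or.inl (hx0cl z hz hxz))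
    have h1 := hmax c' hcl
    have h2 : 1 ≤ q.length := by
      rcases q with _ | ⟨_, _⟩
      · simp at hq3
      · simp
    omega
  have nocross : ∀ {v y z : V} (hy : y ∈ c) (hz : z ∈ c), v ∈ W → G.Adj v y → G.Adj v z →
      ¬ G.Adj (c.prev y hy) (c.prev z hz) := by
    intro v y z hy hz hvW hvy hvz hadj
    obtain ⟨c', hc', hmem, hlen⟩ := insert_cross hc hy hz (Finset.mem_filter.1 hvW).2 hvy hvz hadj
    have hcl : ClosedAt G U x0 c' := by
      refine ⟨hc', ?_, (hmem x0).2 (Or.inl hx0), ?_⟩
      · intro x hx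
        rcases (hmem x).1 hx with h | h
        · exact hcU x h
        · rw [h]; exact hWU hvW
      · intro z hz hxz
        exact (hmem z).2 (Or.inl (hx0cl z hz hxz))
    have h1 := hmax c' hcl
    omega
  have hCW : CLoc G W := by
    intro I hIW hIind hIconn v hvI
    -- neighbours of v on c
    set N : Finset V := c.toFinset.filter (fun w => G.Adj v w) with hN
    have hNc : ∀ w ∈ N, w ∈ c := fun w hw => List.mem_toFinset.1 (Finset.mem_filter.1 hw).1
    set P : Finset V := N.attach.image (fun w => c.prev w.1 (hNc w.1 w.2)) with hP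
    have hPmem : ∀ p, p ∈ P ↔ ∃ y, ∃ hy : y ∈ c, G.Adj v y ∧ p = c.prev y hy := by
      intro p
      rw [hP, Finset.mem_image]
      constructor
      · rintro ⟨w, _, rfl⟩
        exact ⟨w.1, hNc w.1 w.2, (Finset.mem_filter.1 w.2).2, rfl⟩
      · rintro ⟨y, hy, hvy, rfl⟩
        have hyN : y ∈ N := by
          rw [hN, Finset.mem_filter]
          exact ⟨List.mem_toFinset.2 hy, hvy⟩
        exact ⟨⟨y, hyN⟩, Finset.mem_attach _ _, rfl⟩
    have hPcard : P.card = N.card := by
      rw [hP, Finset.card_image_of_injective, Finset.card_attach]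
      intro a b hab
      exact Subtype.ext (prev_inj hc.1 _ _ hab)
    have hPc : ∀ p ∈ P, p ∈ c := by
      intro p hp
      obtain ⟨y, hy, _, rfl⟩ := (hPmem p).1 hp
      exact List.prev_mem _ _ _
    have hvW := hIW hvI
    have hdisj : Disjoint I P := by
      rw [Finset.disjoint_left]
      intro a haI haP
      exact (Finset.mem_filter.1 (hIW haI)).2 (hPc a haP)
    have key := hC (I ∪ P) (by
        intro a ha
        rcases Finset.mem_union.1 ha with h | h
        · exact hWU (hIW h)
        · exact hcU a (hPc a h)) (by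
        intro a ha b hb hab
        rw [Finset.mem_coe, Finset.mem_union] at ha hb
        rcases ha with ha | ha <;> rcases hb with hb | hb
        · exact hIind ha hb hab
        · obtain ⟨y, hy, hvy, rfl⟩ := (hPmem b).1 hb
          intro h
          exact noins hy (hIW ha) (hIconn a ha v hvI) hvy h.symm
        · obtain ⟨y, hy, hvy, rfl⟩ := (hPmem a).1 ha
          intro h
          exact noins hy (hIW hb) (hIconn b hb v hvI) hvy h
        · obtain ⟨y, hy, hvy, rfl⟩ := (hPmem a).1 ha
          obtain ⟨z, hz, hvz, rfl⟩ := (hPmem b).1 hb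
          exact nocross hy hz hvW hvy hvz) (by
        have hto : ∀ a ∈ I ∪ P, Reach G U a v := by
          intro a ha
          rcases Finset.mem_union.1 ha with h | h
          · exact (hIconn a h v hvI).mono hWU
          · obtain ⟨y, hy, hvy, rfl⟩ := (hPmem a).1 h
            exact Relation.ReflTransGen.head
              ⟨hcU _ (List.prev_mem _ _ _), hcU _ hy, hc.prev_adj hy⟩
              (Relation.ReflTransGen.single ⟨hcU _ hy, hWU hvW, hvy.symm⟩)
        intro a ha b hb
        exact Relation.ReflTransGen.trans (hto a ha) (hto b hb).symm) v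
        (Finset.mem_union_left _ hvI)
    rw [Finset.card_union_of_disjoint hdisj, hPcard] at key
    have hsum : dU G U v = N.card + dU G W v := by
      unfold dU
      rw [hN, hW]
      rw [Finset.filter_filter]
      rw [← Finset.card_union_of_disjoint]
      · congr 1
        ext w
        simp only [Finset.mem_filter, Finset.mem_union, List.mem_toFinset]
        constructor
        · rintro ⟨h1, h2⟩
          by_cases h : w ∈ c
          · exact Or.inl ⟨h, h2⟩
          · exact Or.inr ⟨h1, h, h2⟩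
        · rintro (⟨h1, h2⟩ | ⟨h1, h2, h3⟩)
          · exact ⟨hcU w h1, h2⟩
          · exact ⟨h1, h3⟩
      · rw [Finset.disjoint_left]
        intro w h1 h2
        simp only [Finset.mem_filter, List.mem_toFinset] at h1 h2
        exact h2.2.1 h1.1
    omega
  exact hCW

/-- `J` independent with `v ∈ J` and a cover of `U` by at most `J.card` cycles. -/
theorem lobe {G : SimpleGraph V} [DecidableRel G.Adj] {U : Finset V} (hC : CLoc G U) {v : V}
    (h : ∃ c, ClosedAt G U v c) :
    ∃ (J : Finset V) (L : List (List V)), v ∈ J ∧ J ⊆ U ∧ G.IsIndepSet (J : Set V) ∧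
      L.length ≤ J.card ∧ (∀ c ∈ L, CycL G c) ∧ L.flatten.Nodup ∧
      ∀ x, x ∈ L.flatten ↔ x ∈ U := by
  classical
  obtain ⟨c, hcl, hmax⟩ := exists_max_closedAt h
  have hCW := cloc_sdiff hC hcl hmax
  obtain ⟨hc, hcU, hx0, hx0cl⟩ := hcl
  set W : Finset V := U.filter (fun x => x ∉ c) with hW
  have hWU : W ⊆ U := Finset.filter_subset _ _
  obtain ⟨m, ⟨J, hJ1, hJ2, hJ3⟩, hm⟩ := exists_max_nat
    (fun m => ∃ J : Finset V, J ⊆ W ∧ G.IsIndepSet (J : Set V) ∧ J.card = m) W.card
    ⟨0, ∅, by simp, by simp [SimpleGraph.IsIndepSet], rfl⟩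
    (by
      rintro m ⟨J, h1, _, rfl⟩
      exact Finset.card_le_card h1)
  obtain ⟨L, hL1, hL2, hL3, hL4⟩ := cover_of_indep m W hCW
    (fun I hI1 hI2 => hm _ ⟨I, hI1, hI2, rfl⟩)
  have hvJ : v ∉ J := fun h => (Finset.mem_filter.1 (hJ1 h)).2 hx0
  have hno : ∀ w ∈ J, ¬ G.Adj v w := by
    intro w hw h
    exact (Finset.mem_filter.1 (hJ1 hw)).2 (hx0cl w (hWU (hJ1 hw)) h)
  refine ⟨insert v J, c :: L, Finset.mem_insert_self _ _, ?_, ?_, ?_, ?_, ?_, ?_⟩
  · intro a ha
    rcases Finset.mem_insert.1 ha with h | h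
    · rw [h]; exact hcU v hx0
    · exact hWU (hJ1 h)
  · intro a ha b hb hab
    rw [Finset.mem_coe, Finset.mem_insert] at ha hb
    rcases ha with ha | ha <;> rcases hb with hb | hb
    · exact absurd (ha.trans hb.symm) hab
    · rw [ha]; exact hno b hb
    · rw [hb]; intro h; exact hno a ha h.symm
    · exact hJ2 ha hb hab
  · rw [Finset.card_insert_of_notMem hvJ, List.length_cons, hJ3]
    omega
  · intro c' hc'
    rcases List.mem_cons.1 hc' with h | h
    · rw [h]; exact hc
    · exact hL2 c' h
  · rw [List.flatten_cons, List.nodup_append]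
    refine ⟨hc.1, hL3, ?_⟩
    rintro a ha b hb rfl
    exact (Finset.mem_filter.1 ((hL4 a).1 hb)).2 ha
  · intro x
    rw [List.flatten_cons, List.mem_append, hL4, hW, Finset.mem_filter]
    constructor
    · rintro (h | h)
      · exact hcU x h
      · exact h.1
    · intro h
      by_cases hx : x ∈ c
      · exact Or.inl hx
      · exact Or.inr ⟨h, hx⟩

/-- the lobe of the head of a path which contains all its neighbours in `U` -/
theorem closedAt_of_path {G : SimpleGraph V} [DecidableRel G.Adj] {U : Finset V} {v : V}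
    {t : List V} (hl1 : (v :: t).Nodup) (hl2 : (v :: t).IsChain G.Adj)
    (hl3 : ∀ x ∈ v :: t, x ∈ U) (hnb : ∀ z ∈ U, G.Adj v z → z ∈ t) (hdeg : 2 ≤ dU G U v) :
    ∃ c, ClosedAt G U v c := by
  have hex : ∃ x ∈ t, G.Adj v x := by
    have hpos : 0 < (U.filter (fun w => G.Adj v w)).card := by
      unfold dU at hdeg; omega
    obtain ⟨x, hx⟩ := Finset.card_pos.1 hpos
    rw [Finset.mem_filter] at hx
    exact ⟨x, hnb x hx.1 hx.2, hx.2⟩
  obtain ⟨r, z, s, ht, hz, hs⟩ := last_split (fun x => G.Adj v x) t hex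
  have hnb2 : ∀ w ∈ U, G.Adj v w → w ∈ r ++ [z] := by
    intro w hw hvw
    have h1 := hnb w hw hvw
    rw [ht] at h1
    have h2 : w ∉ s := fun h => hs w h hvw
    simp at h1 ⊢
    tauto
  have hrlen : 1 ≤ r.length := by
    have h1 : (U.filter (fun w => G.Adj v w)) ⊆ (r ++ [z]).toFinset := by
      intro w hw
      rw [Finset.mem_filter] at hw
      exact List.mem_toFinset.2 (hnb2 w hw.1 hw.2)
    have h2 := Finset.card_le_card h1
    have h3 := List.toFinset_card_le (r ++ [z])
    simp only [List.length_append, List.length_cons, List.length_nil] at h3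
    unfold dU at hdeg
    omega
  have hsplit : v :: t = (v :: (r ++ [z])) ++ s := by rw [ht]; simp
  refine ⟨v :: (r ++ [z]), ⟨?_, ?_, ?_, ?_⟩, ?_, by simp, ?_⟩
  · rw [hsplit] at hl1
    exact (List.nodup_append.1 hl1).1
  · simp; omega
  · rw [hsplit] at hl2
    exact (List.isChain_append.1 hl2).1
  · intro x hx y hy
    have h1 : (v :: (r ++ [z])).getLast? = some z := by
      rw [← List.cons_append, List.getLast?_append]; simp
    rw [h1] at hx
    simp at hx hy
    rw [← hx, ← hy]
    exact hz.symm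
  · intro x hx
    apply hl3
    rw [hsplit]
    exact List.mem_append_left _ hx
  · intro w hw hvw
    exact List.mem_cons_of_mem _ (hnb2 w hw hvw)

/-- GK4: a vertex `v` of `U` all of whose neighbours in `U` are on a path of `U` with head `v` -/
theorem lobe_of_path {G : SimpleGraph V} [DecidableRel G.Adj] {U : Finset V} (hC : CLoc G U)
    {v : V} {t : List V} (hl1 : (v :: t).Nodup) (hl2 : (v :: t).IsChain G.Adj)
    (hl3 : ∀ x ∈ v :: t, x ∈ U) (hnb : ∀ z ∈ U, G.Adj v z → z ∈ v :: t) :
    ∃ (J : Finset V) (L : List (List V)), v ∈ J ∧ J ⊆ U ∧ G.IsIndepSet (J : Set V) ∧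
      L.length ≤ J.card ∧ (∀ c ∈ L, CycL G c) ∧ L.flatten.Nodup ∧
      ∀ x, x ∈ L.flatten ↔ x ∈ U := by
  have hvU : v ∈ U := hl3 v (by simp)
  have hdeg : 2 ≤ dU G U v := by
    have := hC {v} (by simpa using hvU) (by simp [SimpleGraph.IsIndepSet]) (by
      intro a ha b hb
      simp at ha hb
      rw [ha, hb]
      exact Relation.ReflTransGen.refl) v (by simp)
    simpa using this
  refine lobe hC (closedAt_of_path hl1 hl2 hl3 ?_ hdeg)
  intro z hz hvz
  rcases List.mem_cons.1 (hnb z hz hvz) with h | h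
  · exact absurd (h ▸ hvz) (G.loopless.irrefl v)
  · exact h

end Pool.Agent.TFG
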