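import Pool.Agent.TFG.CountN
import Pool.Agent.TFG.Ends
import Pool.Agent.TFG.Lobe

/-! G6 (N5, N7): some component is not Hamiltonian. -/

namespace Pool.Agent.TFG

open List Pool.Agent.TF82 Pool.Agent.TFC Pool.Agent.TFB Pool.Agent.TFN

universe u

set_option linter.unusedSectionVars false
set_option linter.unusedVariables false

variable {V : Type u} [DecidableEq V]

/-- N7 -/
theorem case_n [Fintype V] {G : SimpleGraph V} [DecidableRel G.Adj]
    (hC : ∀ I : Finset V, G.IsIndepSet (I : Set V) → ∀ v ∈ I, I.card + 1 ≤ dU G Finset.univ v)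
    {F : List (List V)} (hM : IsMax G F.length F) {Lo : ℕ} (hN : NoMerge G F Lo) (hLo : 10 ≤ Lo)
    {y : V} (hy : y ∈ unc F) {K : ℕ}
    (hp : ∀ (X : List V) (x1 x2 : V), Seg G X x1 x2 → X.Nodup → (∀ z ∈ X, z ∈ comp G F y) →
      X.length ≤ K + 1)
    (hnh : ¬ ∃ c, CycL G c ∧ ∀ z, z ∈ c ↔ z ∈ comp G F y) :
    ∃ L : List (List V), L.length + 3 ≤ K ∧ (∀ c ∈ L, CycL G c) ∧ L.flatten.Nodup ∧
      ∀ x, x ∈ L.flatten ↔ x ∈ unc F := by
  classical
  obtain ⟨l, v, w, hl, hln, hlc, hmax, hcl, hK⟩ := ends hC hM hy hp hnh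
  have hvl : v ∈ l := List.mem_of_head? hl.hd
  have hvc := hlc v hvl
  have hv : v ∈ unc F := (mem_comp.1 hvc).1
  -- the end has two neighbours in the uncovered part
  have hd : 2 ≤ dU G (unc F) v := by
    have h1 := att_main hC hM hv {v} (by simp [SimpleGraph.IsIndepSet]) (by
      intro x hx
      rw [Finset.mem_singleton] at hx
      rw [hx]
      exact Relation.ReflTransGen.refl) (v := v) (by simp)
    rw [Finset.card_singleton] at h1
    omega
  -- links with three vertices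
  have hlink : ∀ s ∈ F.flatten, G.Adj s v → ∀ t ∈ att G F v, Link G F v 3 s t := by
    intro s hs hsv t ht
    exact link_clean hv hcl (fun x hx hxv => path3 hy hl hln hlc hmax hd hx hxv) hs hsv ht
  obtain ⟨c, hc, hcU, hvc', hcN⟩ := end_cycle hy hl hln hlc hmax hd
  obtain ⟨J, L, hvJ, hJU, hJi, hLJ, hLc, hLn, hLm⟩ :=
    lobe (cloc_unc hC hM) (v := v) ⟨c, hc, hcU, hvc', hcN⟩
  -- the doubly blocked hubs
  obtain ⟨E, hE⟩ : ∃ E : Finset V, ∀ s, s ∈ E ↔
      s ∈ F.flatten ∧ G.Adj s v ∧ NJ G J (prv F s) ∧ NJ G J (prv F (prv F s)) :=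
    ⟨Finset.univ.filter (fun s =>
      s ∈ F.flatten ∧ G.Adj s v ∧ NJ G J (prv F s) ∧ NJ G J (prv F (prv F s))),
      fun s => by simp⟩
  have h1 := count_n hC hM hN hLo hv hlink hJU hvJ hJi hE
  have h2 := types_n hM hN hLo hv hlink hJU hvJ (fun s hs => (hE s).1 hs)
  exact ⟨L, by omega, hLc, hLn, hLm⟩

end Pool.Agent.TFG
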