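import Pool.Agent.TFG.TwoRuns

/-! G10 (H5): all components are Hamiltonian. -/

namespace Pool.Agent.TFG

open List Pool.Agent.TF82 Pool.Agent.TFC Pool.Agent.TFB Pool.Agent.TFN

universe u

set_option linter.unusedSectionVars false
set_option linter.unusedVariables false

variable {V : Type u} [DecidableEq V]

/-- H5 -/
theorem count_h [Fintype V] {G : SimpleGraph V} [DecidableRel G.Adj]
    (hC : ∀ I : Finset V, G.IsIndepSet (I : Set V) → ∀ v ∈ I, I.card + 1 ≤ dU G Finset.univ v)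
    {F : List (List V)} (hM : IsMax G F.length F) {Lo : ℕ} (hN : NoMerge G F Lo) {δ : ℕ}
    (hLo : δ + 10 ≤ Lo) {J : Finset V} (hJ : J ⊆ unc F)
    (hJ1 : ∀ v ∈ J, ∀ v' ∈ J, v' ∈ comp G F v → v' = v)
    (hlink : ∀ v ∈ J, ∀ s ∈ F.flatten, G.Adj s v → ∀ t ∈ att G F v, Link G F v (δ + 1) s t)
    {v : V} (hv : v ∈ J) (hbig : dU G (unc F) v + 2 ≤ dU G Finset.univ v)
    (h4 : ∀ (s t : V) (a b : ℕ), s ∈ F.flatten → G.Adj s v → t ∈ F.flatten → G.Adj t v → s ≠ t →
      a + b = δ + 1 → ¬ ((∀ i, 1 ≤ i → i ≤ a → NJ G J ((prv F)^[i] s)) ∧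
        (∀ i, 1 ≤ i → i ≤ b → NJ G J ((prv F)^[i] t)))) :
    J.card + 1 ≤ dU G (unc F) v := by
  classical
  have hvU : v ∈ unc F := hJ hv
  set S : Finset V := Finset.univ.filter (fun s => s ∈ F.flatten ∧ G.Adj s v) with hS
  have hSm : ∀ s, s ∈ S ↔ s ∈ F.flatten ∧ G.Adj s v := by intro s; simp [hS]
  have hdeg : dU G Finset.univ v = dU G (unc F) v + S.card := by
    unfold dU
    rw [← Finset.card_union_of_disjoint]
    · congr 1
      ext w
      simp only [Finset.mem_filter, Finset.mem_union, Finset.mem_univ, true_and, hSm, mem_unc]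
      constructor
      · intro h
        by_cases hw : w ∈ F.flatten
        · exact Or.inr ⟨hw, h.symm⟩
        · exact Or.inl ⟨hw, h⟩
      · rintro (h | h)
        · exact h.2
        · exact h.2.symm
    · rw [Finset.disjoint_left]
      intro w h1 h2
      exact mem_unc.1 (Finset.mem_filter.1 h1).1 ((hSm w).1 h2).1
  have hS2 : 1 < S.card := by omega
  have hatt : ∀ s ∈ S, s ∈ att G F v := fun s hs =>
    mem_att.2 ⟨((hSm s).1 hs).1, v, Relation.ReflTransGen.refl, ((hSm s).1 hs).2⟩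
  have hex : ∀ s ∈ S, ∃ i, i ≤ δ ∧ ¬ NJ G J ((prv F)^[i + 1] s) := by
    intro s hs
    obtain ⟨t, ht, hts⟩ := Finset.exists_mem_ne hS2 s
    by_contra hcon
    push Not at hcon
    refine h4 s t (δ + 1) 0 ((hSm s).1 hs).1 ((hSm s).1 hs).2 ((hSm t).1 ht).1 ((hSm t).1 ht).2
      (Ne.symm hts) (by omega) ⟨?_, by intro i h1 h2; omega⟩
    intro i h1 h2
    have := hcon (i - 1) (by omega)
    rwa [show i - 1 + 1 = i by omega] at this
  -- the length of the run before `s`
  have hg : ∃ g : V → ℕ, ∀ s ∈ S, (∀ i, 1 ≤ i → i ≤ g s → NJ G J ((prv F)^[i] s)) ∧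
      ¬ NJ G J ((prv F)^[g s + 1] s) := by
    have : ∀ s, ∃ g : ℕ, s ∈ S → (∀ i, 1 ≤ i → i ≤ g → NJ G J ((prv F)^[i] s)) ∧
        ¬ NJ G J ((prv F)^[g + 1] s) := by
      intro s
      by_cases hs : s ∈ S
      · have h1 : ∃ i, ¬ NJ G J ((prv F)^[i + 1] s) := (hex s hs).imp fun _ h => h.2
        refine ⟨Nat.find h1, fun _ => ⟨fun i hi hi' => ?_, Nat.find_spec h1⟩⟩
        have h2 := Nat.find_min h1 (m := i - 1) (by omega)
        rw [not_not] at h2
        rwa [show i - 1 + 1 = i by omega] at h2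
      · exact ⟨0, fun h => absurd h hs⟩
    choose g hg using this
    exact ⟨g, fun s hs => hg s hs⟩
  obtain ⟨g, hg⟩ := hg
  have hsum : ∀ s ∈ S, ∀ t ∈ S, s ≠ t → g s + g t ≤ δ := by
    intro s hs t ht hst
    by_contra hcon
    push Not at hcon
    obtain ⟨a, b, hab, has, hbt⟩ : ∃ a b, a + b = δ + 1 ∧ a ≤ g s ∧ b ≤ g t := by
      rcases le_total (g s) (δ + 1) with h | h
      · exact ⟨g s, δ + 1 - g s, by omega, le_rfl, by omega⟩
      · exact ⟨δ + 1, 0, by omega, h, by omega⟩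
    exact h4 s t a b ((hSm s).1 hs).1 ((hSm s).1 hs).2 ((hSm t).1 ht).1 ((hSm t).1 ht).2 hst hab
      ⟨fun i h1 h2 => (hg s hs).1 i h1 (by omega), fun i h1 h2 => (hg t ht).1 i h1 (by omega)⟩
  have hfar : ∀ s ∈ S, ∀ t ∈ S, ∀ i, 1 ≤ i → i ≤ δ + 1 → (prv F)^[i] s ≠ t := by
    intro s hs t ht i hi hi'
    exact (far hM hN hLo hvU (hlink v hv) ((hSm s).1 hs).1 ((hSm s).1 hs).2 (hatt t ht) hi hi').1
  have hinj : ∀ s ∈ S, ∀ t ∈ S, (prv F)^[g s + 1] s = (prv F)^[g t + 1] t → s = t := by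
    intro s hs t ht h
    by_contra hst
    have hle := hsum s hs t ht hst
    rcases le_total (g s) (g t) with hc | hc
    · have e : (prv F)^[g t + 1] t = (prv F)^[g s + 1] ((prv F)^[g t - g s] t) := by
        rw [← Function.iterate_add_apply]
        congr 1
        omega
      rw [e] at h
      have h1 := iter_inj hM.fam ((hSm s).1 hs).1 (iter_mem hM.fam ((hSm t).1 ht).1 _) _ h
      by_cases h0 : g t - g s = 0
      · rw [h0] at h1
        exact hst h1
      · exact hfar t ht s hs (g t - g s) (by omega) (by omega) h1.symm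
    · have e : (prv F)^[g s + 1] s = (prv F)^[g t + 1] ((prv F)^[g s - g t] s) := by
        rw [← Function.iterate_add_apply]
        congr 1
        omega
      rw [e] at h
      have h1 := iter_inj hM.fam (iter_mem hM.fam ((hSm s).1 hs).1 _) ((hSm t).1 ht).1 _ h
      by_cases h0 : g s - g t = 0
      · rw [h0] at h1
        exact hst h1
      · exact hfar s hs t ht (g s - g t) (by omega) (by omega) h1
  have hnadj : ∀ s ∈ S, ∀ t ∈ S, ¬ G.Adj ((prv F)^[g s + 1] s) ((prv F)^[g t + 1] t) := by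
    intro s hs t ht hadj
    by_cases hst : s = t
    · subst hst
      exact G.loopless.irrefl _ hadj
    have hle := hsum s hs t ht hst
    have := hub2 hM hN ((hSm s).1 hs).1 ((hSm t).1 ht).1 hst (a := g s) (b := g t) (by omega)
      (by omega) (fun i h1 h2 => hfar s hs t ht i h1 (by omega))
      (fun i h1 h2 => hfar t ht s hs i h1 (by omega))
      (hlink v hv s ((hSm s).1 hs).1 ((hSm s).1 hs).2 t (hatt t ht)) hadj
    omega
  set E : Finset V := S.image (fun s => (prv F)^[g s + 1] s) with hE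
  have hEcard : E.card = S.card := Finset.card_image_of_injOn fun s hs t ht h => hinj s hs t ht h
  have hEm : ∀ e ∈ E, ∃ s ∈ S, e = (prv F)^[g s + 1] s := by
    intro e he
    rw [hE, Finset.mem_image] at he
    obtain ⟨s, hs, h⟩ := he
    exact ⟨s, hs, h.symm⟩
  have hdisj : Disjoint J E := by
    rw [Finset.disjoint_left]
    intro e h1 h2
    obtain ⟨s, hs, rfl⟩ := hEm e h2
    exact mem_unc.1 (hJ h1) (iter_mem hM.fam ((hSm s).1 hs).1 _)
  have hJE : ∀ x ∈ J, ∀ e ∈ E, ¬ G.Adj e x := by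
    intro x hx e he hadj
    obtain ⟨s, hs, rfl⟩ := hEm e he
    exact (hg s hs).2 ⟨x, hx, hadj⟩
  have hJind : ∀ x ∈ J, ∀ y ∈ J, ¬ G.Adj x y := by
    intro x hx y hy hadj
    have h1 : y ∈ comp G F x :=
      mem_comp.2 ⟨hJ hy, Relation.ReflTransGen.single ⟨hJ hx, hJ hy, hadj⟩⟩
    have h2 := hJ1 x hx y hy h1
    rw [h2] at hadj
    exact G.loopless.irrefl _ hadj
  have key := hC (J ∪ E) (by
    intro a ha b hb hab
    rw [Finset.mem_coe, Finset.mem_union] at ha hb
    rcases ha with ha | ha <;> rcases hb with hb | hb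
    · exact hJind a ha b hb
    · intro h; exact hJE a ha b hb h.symm
    · intro h; exact hJE b hb a ha h
    · obtain ⟨s, hs, rfl⟩ := hEm a ha
      obtain ⟨t, ht, rfl⟩ := hEm b hb
      exact hnadj s hs t ht) v (Finset.mem_union_left _ hv)
  rw [Finset.card_union_of_disjoint hdisj, hEcard] at key
  omega

end Pool.Agent.TFG
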