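import Pool.Agent.TFG.TypesN

/-! G6a (N5): the count in the case of a component that is not Hamiltonian. -/

namespace Pool.Agent.TFG

open List Pool.Agent.TF82 Pool.Agent.TFC Pool.Agent.TFB Pool.Agent.TFN

universe u

set_option linter.unusedSectionVars false
set_option linter.unusedVariables false

variable {V : Type u} [DecidableEq V]

/-- N5 -/
theorem count_n [Fintype V] {G : SimpleGraph V} [DecidableRel G.Adj]
    (hC : ∀ I : Finset V, G.IsIndepSet (I : Set V) → ∀ v ∈ I, I.card + 1 ≤ dU G Finset.univ v)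
    {F : List (List V)}
    (hM : IsMax G F.length F) {Lo : ℕ} (hN : NoMerge G F Lo) (hLo : 10 ≤ Lo) {v : V}
    (hv : v ∈ unc F)
    (hlink : ∀ s ∈ F.flatten, G.Adj s v → ∀ t ∈ att G F v, Link G F v 3 s t)
    {J : Finset V} (hJ : J ⊆ unc F) (hvJ : v ∈ J) (hJi : G.IsIndepSet (J : Set V)) {E : Finset V}
    (hE : ∀ s, s ∈ E ↔ s ∈ F.flatten ∧ G.Adj s v ∧ NJ G J (prv F s) ∧ NJ G J (prv F (prv F s))) :
    J.card + 1 ≤ dU G (unc F) v + E.card := by
  classical
  have hdeg : dU G Finset.univ v =
      dU G (unc F) v + ((att G F v).filter (fun w => G.Adj v w)).card :=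
    att_deg hv Relation.ReflTransGen.refl
  set S : Finset V := (att G F v).filter (fun w => G.Adj v w) with hS
  have hSa : ∀ s ∈ S, s ∈ att G F v := fun s hs => (Finset.mem_filter.1 hs).1
  have hSf : ∀ s ∈ S, s ∈ F.flatten := fun s hs => (mem_att.1 (hSa s hs)).1
  have hSv : ∀ s ∈ S, G.Adj s v := fun s hs => (Finset.mem_filter.1 hs).2.symm
  have hES : E ⊆ S := by
    intro s hs
    obtain ⟨h1, h2, -, -⟩ := (hE s).1 hs
    exact Finset.mem_filter.2 ⟨mem_att.2 ⟨h1, v, Relation.ReflTransGen.refl, h2⟩, h2.symm⟩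
  -- the number of vertices dropped
  let a : V → ℕ := fun s => if NJ G J (prv F s) then 1 else 0
  have ha : ∀ s, a s ≤ 1 := by
    intro s
    show (if NJ G J (prv F s) then 1 else 0) ≤ 1
    split_ifs <;> omega
  let e : V → V := fun s => (prv F)^[a s + 1] s
  have hef : ∀ s ∈ S, e s ∈ F.flatten := by
    intro s hs
    have hmem : ∀ i, (prv F)^[i] s ∈ F.flatten := by
      intro i
      induction i with
      | zero => exact hSf s hs
      | succ i ih =>
        rw [Function.iterate_succ_apply']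
        exact prv_mem hM.fam ih
    exact hmem _
  have heN : ∀ s ∈ S \ E, ¬ NJ G J (e s) := by
    intro s hs
    obtain ⟨hs1, hs2⟩ := Finset.mem_sdiff.1 hs
    show ¬ NJ G J ((prv F)^[a s + 1] s)
    by_cases h : NJ G J (prv F s)
    · have h1 : a s = 1 := if_pos h
      rw [h1]
      intro h2
      exact hs2 ((hE s).2 ⟨hSf s hs1, hSv s hs1, h, h2⟩)
    · have h1 : a s = 0 := if_neg h
      rw [h1]
      exact h
  have hnot : ∀ s ∈ S, ∀ t ∈ S, prv F s ≠ t ∧ prv F (prv F s) ≠ t := by
    intro s hs t ht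
    obtain ⟨h1, h2⟩ := prv_not_att hM hN hLo hv hlink (hSf s hs) (hSv s hs)
    exact ⟨fun h => h1 (h ▸ hSa t ht), fun h => h2 (h ▸ hSa t ht)⟩
  have hinj : Set.InjOn e ((S \ E : Finset V) : Set V) := by
    intro s hs t ht hst
    have hs1 := (Finset.mem_sdiff.1 (Finset.mem_coe.1 hs)).1
    have ht1 := (Finset.mem_sdiff.1 (Finset.mem_coe.1 ht)).1
    have hst' : (prv F)^[a s + 1] s = (prv F)^[a t + 1] t := hst
    have h1 := ha s
    have h2 := ha t
    have hps := prv_mem hM.fam (hSf s hs1)
    have hpt := prv_mem hM.fam (hSf t ht1)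
    rcases Nat.le_one_iff_eq_zero_or_eq_one.1 h1 with h3 | h3 <;>
      rcases Nat.le_one_iff_eq_zero_or_eq_one.1 h2 with h4 | h4
    · rw [h3, h4] at hst'
      exact prv_inj hM.fam (hSf s hs1) (hSf t ht1) hst'
    · rw [h3, h4] at hst'
      have h5 : prv F s = prv F (prv F t) := hst'
      exact absurd (prv_inj hM.fam (hSf s hs1) hpt h5).symm (hnot t ht1 s hs1).1
    · rw [h3, h4] at hst'
      have h5 : prv F (prv F s) = prv F t := hst'
      exact absurd (prv_inj hM.fam hps (hSf t ht1) h5) (hnot s hs1 t ht1).1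
    · rw [h3, h4] at hst'
      have h5 : prv F (prv F s) = prv F (prv F t) := hst'
      exact prv_inj hM.fam (hSf s hs1) (hSf t ht1) (prv_inj hM.fam hps hpt h5)
  have hadj : ∀ s ∈ S, ∀ t ∈ S, s ≠ t → ¬ G.Adj (e s) (e t) := by
    intro s hs t ht hst hadj
    have h1 := ha s
    have h2 := ha t
    have h3 := hub2 hM hN (hSf s hs) (hSf t ht) hst (a := a s) (b := a t) (n := 3)
      (by omega) (by omega)
      (by
        intro i hi hi'
        have : i = 1 := by omega
        subst this
        exact (hnot s hs t ht).1)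
      (by
        intro i hi hi'
        have : i = 1 := by omega
        subst this
        exact (hnot t ht s hs).1)
      (hlink s (hSf s hs) (hSv s hs) t (hSa t ht)) hadj
    omega
  have hdis : Disjoint J ((S \ E).image e) := by
    rw [Finset.disjoint_left]
    intro x hx hx'
    obtain ⟨s, hs, rfl⟩ := Finset.mem_image.1 hx'
    exact mem_unc.1 (hJ hx) (hef s (Finset.mem_sdiff.1 hs).1)
  have hind : G.IsIndepSet ((J ∪ (S \ E).image e : Finset V) : Set V) := by
    intro x hx y hy hxy
    rw [Finset.mem_coe, Finset.mem_union] at hx hy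
    rcases hx with hx | hx
    · rcases hy with hy | hy
      · exact hJi hx hy hxy
      · obtain ⟨t, ht, rfl⟩ := Finset.mem_image.1 hy
        exact fun h => heN t ht ⟨x, hx, h.symm⟩
    · obtain ⟨s, hs, rfl⟩ := Finset.mem_image.1 hx
      rcases hy with hy | hy
      · exact fun h => heN s hs ⟨y, hy, h⟩
      · obtain ⟨t, ht, rfl⟩ := Finset.mem_image.1 hy
        exact hadj s (Finset.mem_sdiff.1 hs).1 t (Finset.mem_sdiff.1 ht).1
          (fun h => hxy (by rw [h]))
  have hcard : (J ∪ (S \ E).image e).card + E.card = J.card + S.card := by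
    rw [Finset.card_union_of_disjoint hdis, Finset.card_image_of_injOn hinj]
    have := Finset.card_sdiff_add_card_eq_card hES
    omega
  have h := hC _ hind v (Finset.mem_union_left _ hvJ)
  omega

end Pool.Agent.TFG
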