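import Pool.Agent.TFB.Cross
import Pool.Agent.TFN.NoWin

/-! G1: rerouting a best family with runs of dropped vertices. -/

namespace Pool.Agent.TFG

open List Pool.Agent.TF82 Pool.Agent.TFC Pool.Agent.TFB Pool.Agent.TFN

universe u

set_option linter.unusedSectionVars false
set_option linter.unusedVariables false

variable {V : Type u} [DecidableEq V]

/-- dropping the last `a` vertices -/
theorem PSeg.dropN {L : List (List V)} {s : V} : ∀ (a : ℕ) {P : List V} {t : V}, PSeg L P s t →
    (∀ j < a, (prv L)^[j] t ≠ s) → ∃ P' T, P = P' ++ T ∧ T.length = a ∧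
      PSeg L P' s ((prv L)^[a] t)
  | 0, P, t, h, _ => ⟨P, [], by simp, rfl, h⟩
  | a + 1, P, t, h, hj => by
    obtain ⟨P1, rfl, h1⟩ := h.drop (Ne.symm (by simpa using hj 0 (by omega)))
    obtain ⟨P', T, rfl, hT, h2⟩ := PSeg.dropN a h1 (fun j hja => by
      have := hj (j + 1) (by omega)
      rwa [Function.iterate_succ_apply] at this)
    refine ⟨P', T ++ [t], by simp, by simp [hT], ?_⟩
    rw [Function.iterate_succ_apply]
    exact h2

/-- insertion in place of the `a` vertices before `s` -/
theorem route1 {G : SimpleGraph V} {j : ℕ} {L : List (List V)} (hM : IsMax G j L) {s : V}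
    (hs : s ∈ L.flatten) {a : ℕ} (ha : ∀ i, 1 ≤ i → i ≤ a → (prv L)^[i] s ≠ s) {X : List V}
    (hX : ((prv L)^[a + 1] s :: (X ++ [s])).IsChain G.Adj) (hXn : X.Nodup)
    (hXd : ∀ x ∈ X, x ∉ L.flatten) : X.length ≤ a := by
  obtain ⟨P, L', hP, h3, hperm, hL', hlen⟩ := place1 hM.fam hs
  obtain ⟨P', T, rfl, hT, hP'⟩ := PSeg.dropN a hP (fun i hi => by
    have := ha (i + 1) (by omega) (by omega)
    rwa [Function.iterate_succ_apply] at this)
  have hperm2 : L.flatten.Perm (P' ++ (T ++ L'.flatten)) := by
    rw [← List.append_assoc]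
    exact hperm
  have := core1 hM (hP'.seg hM.fam (fun x hx => hperm.mem_iff.2 (by simp [hx])))
    hperm2 hL' hlen.le (by simpa [Function.iterate_succ_apply] using hX) hXn hXd
    (by simpa using h3)
  omega

/-- two places, the `a` vertices before `s` and the `b` vertices before `t` are dropped -/
theorem route2 {G : SimpleGraph V} {j : ℕ} {L : List (List V)} (hM : IsMax G j L) {s t : V}
    (hs : s ∈ L.flatten) (ht : t ∈ L.flatten) (hne : s ≠ t) {a b : ℕ}
    (ha : ∀ i, 1 ≤ i → i ≤ a → (prv L)^[i] s ≠ s ∧ (prv L)^[i] s ≠ t)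
    (hb : ∀ i, 1 ≤ i → i ≤ b → (prv L)^[i] t ≠ t ∧ (prv L)^[i] t ≠ s) {X Y : List V}
    (hX : ((prv L)^[a + 1] s :: (X ++ [(prv L)^[b + 1] t])).IsChain G.Adj)
    (hY : (s :: (Y ++ [t])).IsChain G.Adj) (hn : (X ++ Y).Nodup)
    (hd : ∀ x ∈ X ++ Y, x ∉ L.flatten) : X.length + Y.length ≤ a + b := by
  obtain ⟨P, R, L', hperm, hL', hlen, h3, hPR⟩ := place2 hM.fam hs ht hne
  have hPm : ∀ x ∈ P, x ∈ L.flatten := fun x hx => hperm.mem_iff.2 (by simp [hx])
  have hRm : ∀ x ∈ R, x ∈ L.flatten := fun x hx => hperm.mem_iff.2 (by simp [hx])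
  have hn' : (X.reverse ++ Y.reverse).Nodup :=
    (((List.reverse_perm X).append (List.reverse_perm Y)).nodup_iff).2 hn
  have hn'' : (X ++ Y.reverse).Nodup :=
    (((List.Perm.refl X).append (List.reverse_perm Y)).nodup_iff).2 hn
  rw [Function.iterate_succ_apply, Function.iterate_succ_apply] at hX
  rcases hPR with ⟨hP, hR⟩ | ⟨hP, hR⟩
  · obtain ⟨R', S, rfl, hS, hR'⟩ := PSeg.dropN a hR (fun i hi => by
      have := (ha (i + 1) (by omega) (by omega)).2
      rwa [Function.iterate_succ_apply] at this)
    obtain ⟨P', T, rfl, hT, hP'⟩ := PSeg.dropN b hP (fun i hi => by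
      have := (hb (i + 1) (by omega) (by omega)).2
      rwa [Function.iterate_succ_apply] at this)
    have hperm2 : L.flatten.Perm (P' ++ (R' ++ ((S ++ T) ++ L'.flatten))) := by
      refine hperm.trans ?_
      rw [List.append_assoc]
      apply List.Perm.append_left
      have e1 : T ++ ((R' ++ S) ++ L'.flatten) = (T ++ (R' ++ S)) ++ L'.flatten := by simp
      have e2 : R' ++ ((S ++ T) ++ L'.flatten) = ((R' ++ S) ++ T) ++ L'.flatten := by simp
      rw [e1, e2]
      exact List.perm_append_comm.append_right _
    have := core2 hM (hP'.seg hM.fam (fun x hx => hPm x (by simp [hx])))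
      (hR'.seg hM.fam (fun x hx => hRm x (by simp [hx])))
      hperm2 hL' hlen (chain_rev hX) (chain_rev hY) hn'
      (by
        intro x hx
        apply hd x
        simpa using hx) (by
        simp only [List.length_append] at h3 ⊢
        omega)
    simp only [List.length_append, List.length_reverse] at this
    omega
  · obtain ⟨P', T, rfl, hT, hP'⟩ := PSeg.dropN a hP (fun i hi => by
      have := (ha (i + 1) (by omega) (by omega)).1
      rwa [Function.iterate_succ_apply] at this)
    obtain ⟨R', S, rfl, hS, hR'⟩ := PSeg.dropN b hR (fun i hi => by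
      have := (hb (i + 1) (by omega) (by omega)).1
      rwa [Function.iterate_succ_apply] at this)
    have hperm2 : L.flatten.Perm (P' ++ (R' ++ ((S ++ T) ++ L'.flatten))) := by
      refine hperm.trans ?_
      rw [List.append_assoc]
      apply List.Perm.append_left
      have e1 : T ++ ((R' ++ S) ++ L'.flatten) = (T ++ (R' ++ S)) ++ L'.flatten := by simp
      have e2 : R' ++ ((S ++ T) ++ L'.flatten) = ((R' ++ S) ++ T) ++ L'.flatten := by simp
      rw [e1, e2]
      exact List.perm_append_comm.append_right _
    have := core2 hM (hP'.seg hM.fam (fun x hx => hPm x (by simp [hx])))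
      (hR'.seg hM.fam (fun x hx => hRm x (by simp [hx])))
      hperm2 hL' hlen hX (chain_rev hY) hn''
      (by
        intro x hx
        apply hd x
        simpa using hx) (by
        simp only [List.length_append] at h3 ⊢
        omega)
    simp only [List.length_append, List.length_reverse] at this
    omega

theorem iter_mem {G : SimpleGraph V} {L : List (List V)} (hL : Fam G L) {x : V}
    (hx : x ∈ L.flatten) : ∀ i, (prv L)^[i] x ∈ L.flatten
  | 0 => hx
  | i + 1 => by
    rw [Function.iterate_succ_apply']
    exact prv_mem hL (iter_mem hL hx i)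

theorem iter_inj {G : SimpleGraph V} {L : List (List V)} (hL : Fam G L) {x y : V}
    (hx : x ∈ L.flatten) (hy : y ∈ L.flatten) : ∀ i, (prv L)^[i] x = (prv L)^[i] y → x = y
  | 0, h => h
  | i + 1, h => by
    rw [Function.iterate_succ_apply', Function.iterate_succ_apply'] at h
    exact iter_inj hL hx hy i (prv_inj hL (iter_mem hL hx i) (iter_mem hL hy i) h)

/-- cycles are long, so going back a few steps does not return -/
theorem iter_ne {G : SimpleGraph V} {F : List (List V)} {Lo : ℕ} (hF : Fam G F)
    (hN : NoMerge G F Lo) {x : V} (hx : x ∈ F.flatten) : ∀ (i : ℕ), 1 ≤ i → i ≤ Lo →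
    (prv F)^[i] x ≠ x := by
  intro i
  induction i using Nat.strong_induction_on with
  | _ i ih =>
  intro hi hiL h
  obtain ⟨P, L', hP, h3, hperm, hL', hlen⟩ := place1 hF hx
  have hn : (P ++ L'.flatten).Nodup := hperm.nodup_iff.1 hF.nod
  -- the cycle is short
  have hPlen : P.length ≤ i := by
    by_contra hcon
    push Not at hcon
    obtain ⟨P', T, hPT, hT, hP'⟩ := PSeg.dropN (i - 1) hP (fun k hk hkx => by
      refine ih (k + 1) (by omega) (by omega) (by omega) ?_
      rwa [Function.iterate_succ_apply])
    have e : (prv F)^[i - 1] (prv F x) = x := by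
      rw [← Function.iterate_succ_apply]
      rw [show (i - 1).succ = i by omega]
      exact h
    rw [e] at hP'
    have hPn : P.Nodup := (List.nodup_append.1 hn).1
    have hP'n : P'.Nodup := by
      rw [hPT] at hPn
      exact (List.nodup_append.1 hPn).1
    have hlen' : P'.length ≤ 1 := by
      rcases P' with _ | ⟨u, P'⟩
      · simp
      rcases List.eq_nil_or_concat P' with h0 | ⟨W, w, hw⟩
      · rw [h0]; simp
      · exfalso
        rw [List.concat_eq_append] at hw
        rw [hw] at hP' hP'n
        have h1 := hP'.hd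
        have h2 := hP'.lt
        simp only [List.head?_cons, Option.some.injEq] at h1
        rw [← List.cons_append, List.getLast?_concat] at h2
        simp only [Option.some.injEq] at h2
        rw [h1, h2] at hP'n
        simp at hP'n
    rw [hPT, List.length_append] at hcon
    omega
  have h1 := hN L' ⟨hL', (List.nodup_append.1 hn).2.1⟩ (by omega)
  have h2 := hperm.length_eq
  rw [List.length_append] at h2
  omega

end Pool.Agent.TFG
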