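import Pool.Agent.TFX.Final
import Pool.Agent.TFG.Route

/-! G0: clean vertices and links. -/

namespace Pool.Agent.TFG

open List Pool.Agent.TF82 Pool.Agent.TFC Pool.Agent.TFB Pool.Agent.TFN

universe u

set_option linter.unusedSectionVars false
set_option linter.unusedVariables false

variable {V : Type u} [DecidableEq V]

/-- every covered vertex adjacent to `x` has another neighbour in the component of `x` -/
def Clean [Fintype V] (G : SimpleGraph V) (F : List (List V)) (x : V) : Prop :=
  ∀ w ∈ F.flatten, G.Adj w x → ∃ x' ∈ comp G F x, x' ≠ x ∧ G.Adj w x'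

/-- a path with at least `n` vertices inside the component of `y` from a neighbour of `s` to a
neighbour of `t` -/
def Link [Fintype V] (G : SimpleGraph V) (F : List (List V)) (y : V) (n : ℕ) (s t : V) : Prop :=
  ∃ (Q : List V) (x1 x2 : V), Seg G Q x1 x2 ∧ Q.Nodup ∧ (∀ z ∈ Q, z ∈ comp G F y) ∧
    n ≤ Q.length ∧ G.Adj s x1 ∧ G.Adj t x2

/-- `x` is adjacent to an element of `J` -/
def NJ (G : SimpleGraph V) (J : Finset V) (x : V) : Prop := ∃ y ∈ J, G.Adj x y

end Pool.Agent.TFG
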