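import Pool.Agent.TFC.Codeg

/-! The path lemma of Erdős and Gallai (1959): in a vertex set `U` such that `G[U] + xy` is
2-connected and all vertices of `U` except `x`, `y` have at least `d` neighbours in `U`, there is
a path from `x` to `y` with at least `d + 1` vertices. -/

namespace Pool.Agent.TFG

open List Pool.Agent.TF82 Pool.Agent.TFC

universe u

set_option linter.unusedSectionVars false
set_option linter.unusedVariables false

variable {V : Type u} [DecidableEq V]

/-- `u` reaches `z`, all steps ending in a vertex with property `S` -/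
def Rc (G : SimpleGraph V) (S : V → Prop) (u z : V) : Prop :=
  Relation.ReflTransGen (fun a b => G.Adj a b ∧ S b) u z

theorem Rc.mono {G : SimpleGraph V} {S T : V → Prop} (h : ∀ w, S w → T w) {a b : V}
    (hab : Rc G S a b) : Rc G T a b := by
  refine Relation.ReflTransGen.head_induction_on hab ?_ ?_
  · exact Relation.ReflTransGen.refl
  · intro a a' haa' _ iha
    exact Relation.ReflTransGen.head ⟨haa'.1, h _ haa'.2⟩ iha

theorem Rc.path {G : SimpleGraph V} {S : V → Prop} {a x : V} (h : Rc G S a x) :
    S a → ∃ Q : List V, Seg G Q a x ∧ Q.Nodup ∧ ∀ w ∈ Q, S w ∧ Rc G S w x := by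
  refine Relation.ReflTransGen.head_induction_on h ?_ ?_
  · intro hS
    refine ⟨[x], ⟨by simp, by simp, by simp⟩, by simp, ?_⟩
    intro w hw
    simp at hw
    subst hw
    exact ⟨hS, Relation.ReflTransGen.refl⟩
  · intro a a' haa' ha' ih hS
    obtain ⟨Q, hQ, hn, hw⟩ := ih haa'.2
    by_cases ha : a ∈ Q
    · obtain ⟨s1, s2, rfl⟩ := List.append_of_mem ha
      refine ⟨a :: s2, ⟨?_, by simp, ?_⟩, ?_, ?_⟩
      · have := hQ.ch
        rw [List.isChain_append] at this
        exact this.2.1
      · have := hQ.lt
        rw [List.getLast?_append] at this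
        simpa using this
      · exact (List.nodup_append.1 hn).2.1
      · intro w hw'
        exact hw w (List.mem_append_right _ hw')
    · refine ⟨a :: Q, ⟨?_, by simp, ?_⟩, ?_, ?_⟩
      · rcases Q with _ | ⟨q, Q⟩
        · simp
        · rw [List.isChain_cons_cons]
          have := hQ.hd
          simp at this
          subst this
          exact ⟨haa'.1, hQ.ch⟩
      · rw [List.getLast?_cons, hQ.lt]
        simp
      · exact List.nodup_cons.2 ⟨ha, hn⟩
      · intro w hw'
        rcases List.mem_cons.1 hw' with rfl | hw'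
        · exact ⟨hS, Relation.ReflTransGen.head haa' ha'⟩
        · exact hw w hw'

theorem eg_path_aux {G : SimpleGraph V} [DecidableRel G.Adj] :
    ∀ (n : ℕ) (U : Finset V) (x y : V) (d : ℕ), U.card ≤ n → x ∈ U → y ∈ U → x ≠ y →
    (∀ v, ∀ u ∈ U, u ≠ v → ∃ z, (z = x ∨ z = y) ∧ z ≠ v ∧ Rc G (fun w => w ∈ U ∧ w ≠ v) u z) →
    (∃ u ∈ U, u ≠ x ∧ u ≠ y) → (∀ u ∈ U, u ≠ x → u ≠ y → d ≤ dU G U u) →
    ∃ Q : List V, Seg G Q x y ∧ Q.Nodup ∧ (∀ z ∈ Q, z ∈ U) ∧ d + 1 ≤ Q.length := by
  classical
  intro n
  induction n with
  | zero =>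
    intro U x y d hn hx
    rw [Nat.le_zero, Finset.card_eq_zero] at hn
    rw [hn] at hx
    simp at hx
  | succ n ih =>
    intro U x y d hn hx hy hxy hcon hex hdeg
    by_cases hB : ∃ b ∈ U, b ≠ x ∧ b ≠ y ∧ ∃ u ∈ U, u ≠ y ∧ u ≠ b ∧
        ¬ Rc G (fun w => w ∈ U ∧ w ≠ y ∧ w ≠ b) u x
    · -- case B
      obtain ⟨b, hbU, hbx, hby, u0, hu0, hu0y, hu0b, hu0n⟩ := hB
      set C : Finset V := U.filter (fun u => u ≠ y ∧ u ≠ b ∧
        ¬ Rc G (fun w => w ∈ U ∧ w ≠ y ∧ w ≠ b) u x) with hC
      have hCm : ∀ u, u ∈ C ↔ u ∈ U ∧ u ≠ y ∧ u ≠ b ∧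
          ¬ Rc G (fun w => w ∈ U ∧ w ≠ y ∧ w ≠ b) u x := by
        intro u; rw [hC, Finset.mem_filter]
      set U' : Finset V := insert b (insert y C) with hU'
      have hU'm : ∀ u, u ∈ U' ↔ u = b ∨ u = y ∨ u ∈ C := by
        intro u; rw [hU']; simp [Finset.mem_insert]
      have hxC : x ∉ C := by
        intro h
        exact ((hCm x).1 h).2.2.2 Relation.ReflTransGen.refl
      have hxU' : x ∉ U' := by
        rw [hU'm]
        rintro (h | h | h)
        · exact hbx h.symm
        · exact hxy h
        · exact hxC h
      have hsub : U' ⊆ U := by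
        intro u hu
        rcases (hU'm u).1 hu with rfl | rfl | h
        · exact hbU
        · exact hy
        · exact ((hCm u).1 h).1
      have hcard : U'.card ≤ n := by
        have : U'.card < U.card := Finset.card_lt_card
          ⟨hsub, fun h => hxU' (h hx)⟩
        omega
      -- closure of C
      have hclo : ∀ u ∈ C, ∀ w ∈ U, G.Adj u w → w ∈ U' := by
        intro u hu w hw huw
        rw [hU'm]
        by_cases h1 : w = b
        · exact Or.inl h1
        by_cases h2 : w = y
        · exact Or.inr (Or.inl h2)
        refine Or.inr (Or.inr ((hCm w).2 ⟨hw, h2, h1, ?_⟩))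
        intro h
        exact ((hCm u).1 hu).2.2.2 (Relation.ReflTransGen.head ⟨huw, hw, h2, h1⟩ h)
      obtain ⟨Q', hQ', hn', hs', hl'⟩ := ih U' b y d hcard
        ((hU'm b).2 (Or.inl rfl)) ((hU'm y).2 (Or.inr (Or.inl rfl))) hby (by
          intro v u hu huv
          -- general claim
          have claim : ∀ z, (z = x ∨ z = y) → ∀ a, Rc G (fun w => w ∈ U ∧ w ≠ v) a z →
              a ∈ U' → a ≠ v →
              ∃ z', (z' = b ∨ z' = y) ∧ z' ≠ v ∧ Rc G (fun w => w ∈ U' ∧ w ≠ v) a z' := by
            intro z hz a ha
            refine Relation.ReflTransGen.head_induction_on ha ?_ ?_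
            · intro hzU' hzv
              rcases hz with rfl | rfl
              · exact absurd hzU' hxU'
              · exact ⟨z, Or.inr rfl, hzv, Relation.ReflTransGen.refl⟩
            · intro a a' haa' ha' iha haU' hav
              rcases (hU'm a).1 haU' with rfl | rfl | h
              · exact ⟨a, Or.inl rfl, hav, Relation.ReflTransGen.refl⟩
              · exact ⟨a, Or.inr rfl, hav, Relation.ReflTransGen.refl⟩
              · have ha'U' : a' ∈ U' := hclo a h a' haa'.2.1 haa'.1
                obtain ⟨z', hz', hz'v, hr⟩ := iha ha'U' haa'.2.2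
                exact ⟨z', hz', hz'v, Relation.ReflTransGen.head ⟨haa'.1, ha'U', haa'.2.2⟩ hr⟩
          obtain ⟨z, hz, hzv, hr⟩ := hcon v u (hsub hu) huv
          exact claim z hz u hr hu huv)
        ⟨u0, (hU'm u0).2 (Or.inr (Or.inr ((hCm u0).2 ⟨hu0, hu0y, hu0b, hu0n⟩))), hu0b, hu0y⟩
        (by
          intro u hu hub huy
          have huC : u ∈ C := by
            rcases (hU'm u).1 hu with h | h | h
            · exact absurd h hub
            · exact absurd h huy
            · exact h
          have hux : u ≠ x := fun h => hxC (h ▸ huC)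
          refine (hdeg u (hsub hu) hux huy).trans ?_
          unfold dU
          apply Finset.card_le_card
          intro w hw
          rw [Finset.mem_filter] at hw ⊢
          exact ⟨hclo u huC w hw.1 hw.2, hw.2⟩)
      -- a neighbour a of b that reaches x
      have hP : ∀ w, Rc G (fun w => w ∈ U ∧ w ≠ y) w x →
          Rc G (fun w => w ∈ U ∧ w ≠ y ∧ w ≠ b) w x ∨
          ∃ a, G.Adj b a ∧ a ∈ U ∧ a ≠ y ∧ a ≠ b ∧
            Rc G (fun w => w ∈ U ∧ w ≠ y ∧ w ≠ b) a x := by
        intro w hw
        refine Relation.ReflTransGen.head_induction_on hw ?_ ?_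
        · exact Or.inl Relation.ReflTransGen.refl
        · intro w w' hww' hw' ihw
          rcases ihw with h | h
          · by_cases hb : w' = b
            · subst hb
              rcases Relation.ReflTransGen.cases_head h with h1 | ⟨a, h1, h2⟩
              · exact absurd h1 hbx
              · exact Or.inr ⟨a, h1.1, h1.2.1, h1.2.2.1, h1.2.2.2, h2⟩
            · exact Or.inl (Relation.ReflTransGen.head ⟨hww'.1, hww'.2.1, hww'.2.2, hb⟩ h)
          · exact Or.inr h
      have hbx' : Rc G (fun w => w ∈ U ∧ w ≠ y) b x := by
        obtain ⟨z, hz, hzv, hr⟩ := hcon y b hbU hby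
        rcases hz with rfl | rfl
        · exact hr
        · exact absurd rfl hzv
      have hex2 : ∃ a, G.Adj b a ∧ a ∈ U ∧ a ≠ y ∧ a ≠ b ∧
            Rc G (fun w => w ∈ U ∧ w ≠ y ∧ w ≠ b) a x := by
        rcases hP b hbx' with h | h
        · rcases Relation.ReflTransGen.cases_head h with h1 | ⟨a, h1, h2⟩
          · exact absurd h1 hbx
          · exact ⟨a, h1.1, h1.2.1, h1.2.2.1, h1.2.2.2, h2⟩
        · exact h
      obtain ⟨a, hba, haU, hay, hab, har⟩ := hex2
      obtain ⟨P, hP1, hP2, hP3⟩ := har.path ⟨haU, hay, hab⟩
      refine ⟨P.reverse ++ Q', hP1.rev.append hQ' hba.symm, ?_, ?_, ?_⟩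
      · rw [List.nodup_append]
        refine ⟨List.nodup_reverse.2 hP2, hn', ?_⟩
        intro w hw w' hw' hww'
        subst hww'
        rw [List.mem_reverse] at hw
        obtain ⟨⟨h1, h2, h3⟩, h4⟩ := hP3 w hw
        rcases (hU'm w).1 (hs' w hw') with h | h | h
        · exact h3 h
        · exact h2 h
        · exact ((hCm w).1 h).2.2.2 h4
      · intro z hz
        rcases List.mem_append.1 hz with h | h
        · exact (hP3 z (List.mem_reverse.1 h)).1.1
        · exact hsub (hs' z h)
      · rw [List.length_append]
        omega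
    · -- case A
      have hA : ∀ b ∈ U, b ≠ x → b ≠ y → ∀ u ∈ U, u ≠ y → u ≠ b →
          Rc G (fun w => w ∈ U ∧ w ≠ y ∧ w ≠ b) u x := by
        intro b hb hbx hby u hu huy hub
        by_contra hcontra
        exact hB ⟨b, hb, hbx, hby, u, hu, huy, hub, hcontra⟩
      obtain ⟨u0, hu0, hu0x, hu0y⟩ := hex
      -- a neighbour of y
      have hy' : ∃ y', y' ∈ U ∧ y' ≠ x ∧ G.Adj y' y := by
        obtain ⟨z, hz, hzv, hr⟩ := hcon x u0 hu0 hu0x
        have hzy : z = y := by
          rcases hz with h | h
          · exact absurd h hzv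
          · exact h
        subst hzy
        rcases Relation.ReflTransGen.cases_tail hr with h | ⟨y', h1, h2⟩
        · exact absurd h.symm hu0y
        · rcases Relation.ReflTransGen.cases_tail h1 with h3 | ⟨y'', h3, h4⟩
          · refine ⟨u0, hu0, hu0x, ?_⟩
            have := h2.1
            rw [h3] at this
            exact this
          · exact ⟨y', h4.2.1, h4.2.2, h2.1⟩
      obtain ⟨y', hy'U, hy'x, hy'y⟩ := hy'
      have hy'ny : y' ≠ y := hy'y.ne
      set D : Finset V := U.filter (fun u => u ≠ x ∧ u ≠ y ∧
        Rc G (fun w => w ∈ U ∧ w ≠ x ∧ w ≠ y) u y') with hD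
      have hDm : ∀ u, u ∈ D ↔ u ∈ U ∧ u ≠ x ∧ u ≠ y ∧
          Rc G (fun w => w ∈ U ∧ w ≠ x ∧ w ≠ y) u y' := by
        intro u; rw [hD, Finset.mem_filter]
      have hy'D : y' ∈ D := (hDm y').2 ⟨hy'U, hy'x, hy'ny, Relation.ReflTransGen.refl⟩
      -- closure of D
      have hclo : ∀ u ∈ D, ∀ w ∈ U, G.Adj u w → w ≠ y → w ≠ x → w ∈ D := by
        intro u hu w hw huw hwy hwx
        refine (hDm w).2 ⟨hw, hwx, hwy, ?_⟩
        have hu' := (hDm u).1 hu
        exact Relation.ReflTransGen.head ⟨huw.symm, hu'.1, hu'.2.1, hu'.2.2.1⟩ hu'.2.2.2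
      set U' : Finset V := insert x D with hU'
      have hU'm : ∀ u, u ∈ U' ↔ u = x ∨ u ∈ D := by
        intro u; rw [hU']; simp [Finset.mem_insert]
      have hyU' : y ∉ U' := by
        rw [hU'm]
        rintro (h | h)
        · exact hxy h.symm
        · exact ((hDm y).1 h).2.2.1 rfl
      have hsub : U' ⊆ U := by
        intro u hu
        rcases (hU'm u).1 hu with rfl | h
        · exact hx
        · exact ((hDm u).1 h).1
      have hcard : U'.card ≤ n := by
        have : U'.card < U.card := Finset.card_lt_card ⟨hsub, fun h => hyU' (h hy)⟩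
        omega
      have hcloU : ∀ u ∈ D, ∀ w ∈ U, G.Adj u w → w ≠ y → w ∈ U' := by
        intro u hu w hw huw hwy
        rw [hU'm]
        by_cases h : w = x
        · exact Or.inl h
        · exact Or.inr (hclo u hu w hw huw hwy h)
      by_cases hDone : ∃ u1 ∈ D, u1 ≠ y'
      · obtain ⟨u1, hu1, hu1y'⟩ := hDone
        obtain ⟨Q', hQ', hn', hs', hl'⟩ := ih U' x y' (d - 1) hcard
          ((hU'm x).2 (Or.inl rfl)) ((hU'm y').2 (Or.inr hy'D)) (Ne.symm hy'x) (by
            intro v u hu huv
            rcases (hU'm u).1 hu with rfl | huD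
            · exact ⟨u, Or.inl rfl, huv, Relation.ReflTransGen.refl⟩
            by_cases hvD : v ∈ D
            · -- reach x
              have hv := (hDm v).1 hvD
              have hud := (hDm u).1 huD
              have hr := hA v hv.1 hv.2.1 hv.2.2.1 u hud.1 hud.2.2.1 huv
              refine ⟨x, Or.inl rfl, fun h => hv.2.1 h.symm, ?_⟩
              have claim : ∀ a, Rc G (fun w => w ∈ U ∧ w ≠ y ∧ w ≠ v) a x → a ∈ U' →
                  Rc G (fun w => w ∈ U' ∧ w ≠ v) a x := by
                intro a ha
                refine Relation.ReflTransGen.head_induction_on ha ?_ ?_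
                · intro _
                  exact Relation.ReflTransGen.refl
                · intro a a' haa' ha' iha haU'
                  rcases (hU'm a).1 haU' with rfl | haD
                  · exact Relation.ReflTransGen.refl
                  · have h1 : a' ∈ U' := hcloU a haD a' haa'.2.1 haa'.1 haa'.2.2.1
                    exact Relation.ReflTransGen.head ⟨haa'.1, h1, haa'.2.2.2⟩ (iha h1)
              exact claim u hr hu
            · -- reach y'
              refine ⟨y', Or.inr rfl, fun h => hvD (h ▸ hy'D), ?_⟩
              have claim : ∀ a, Rc G (fun w => w ∈ U ∧ w ≠ x ∧ w ≠ y) a y' → a ∈ D →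
                  Rc G (fun w => w ∈ U' ∧ w ≠ v) a y' := by
                intro a ha
                refine Relation.ReflTransGen.head_induction_on ha ?_ ?_
                · intro _
                  exact Relation.ReflTransGen.refl
                · intro a a' haa' ha' iha haD
                  have h1 : a' ∈ D := hclo a haD a' haa'.2.1 haa'.1 haa'.2.2.2 haa'.2.2.1
                  refine Relation.ReflTransGen.head ⟨haa'.1, (hU'm a').2 (Or.inr h1), ?_⟩ (iha h1)
                  intro h
                  exact hvD (h ▸ h1)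
              exact claim u ((hDm u).1 huD).2.2.2 huD)
          ⟨u1, (hU'm u1).2 (Or.inr hu1), ((hDm u1).1 hu1).2.1, hu1y'⟩
          (by
            intro u hu hux huy'
            have huD : u ∈ D := by
              rcases (hU'm u).1 hu with h | h
              · exact absurd h hux
              · exact h
            have h1 := hdeg u (hsub hu) hux ((hDm u).1 huD).2.2.1
            have h2 : dU G U u ≤ dU G U' u + 1 := by
              unfold dU
              have : U.filter (fun w => G.Adj u w) ⊆
                  insert y (U'.filter (fun w => G.Adj u w)) := by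
                intro w hw
                rw [Finset.mem_filter] at hw
                rw [Finset.mem_insert, Finset.mem_filter]
                by_cases hwy : w = y
                · exact Or.inl hwy
                · exact Or.inr ⟨hcloU u huD w hw.1 hw.2 hwy, hw.2⟩
              exact (Finset.card_le_card this).trans (Finset.card_insert_le _ _)
            omega)
        refine ⟨Q' ++ [y], hQ'.append ⟨by simp, by simp, by simp⟩ hy'y, ?_, ?_, ?_⟩
        · rw [List.nodup_append]
          refine ⟨hn', by simp, ?_⟩
          intro w hw w' hw' hww'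
          simp at hw'
          subst hww'
          exact hyU' (hw' ▸ hs' w hw)
        · intro z hz
          rcases List.mem_append.1 hz with h | h
          · exact hsub (hs' z h)
          · simp at h
            rw [h]
            exact hy
        · rw [List.length_append]
          simp
          omega
      · -- D = {y'}
        have hDs : ∀ u ∈ D, u = y' := by
          intro u hu
          by_contra h
          exact hDone ⟨u, hu, h⟩
        have hd2 : d ≤ 2 := by
          refine (hdeg y' hy'U hy'x hy'ny).trans ?_
          unfold dU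
          have : U.filter (fun w => G.Adj y' w) ⊆ {x, y} := by
            intro w hw
            rw [Finset.mem_filter] at hw
            rw [Finset.mem_insert, Finset.mem_singleton]
            by_contra hcon2
            push Not at hcon2
            have h1 := hclo y' hy'D w hw.1 hw.2 hcon2.2 hcon2.1
            have h2 := hDs w h1
            rw [h2] at hw
            exact G.loopless.irrefl _ hw.2
          exact (Finset.card_le_card this).trans Finset.card_le_two
        have hxy' : G.Adj x y' := by
          obtain ⟨z, hz, hzv, hr⟩ := hcon y y' hy'U hy'ny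
          have hzx : z = x := by
            rcases hz with h | h
            · exact h
            · exact absurd h hzv
          subst hzx
          rcases Relation.ReflTransGen.cases_head hr with h | ⟨a, h1, h2⟩
          · exact absurd h hy'x
          · by_cases ha : a = z
            · rw [ha] at h1
              exact h1.1.symm
            · have h3 := hclo y' hy'D a h1.2.1 h1.1 h1.2.2 ha
              have h4 := hDs a h3
              rw [h4] at h1
              exact absurd h1.1 (G.loopless.irrefl _)
        refine ⟨[x, y', y], ⟨?_, by simp, by simp⟩, ?_, ?_, ?_⟩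
        · simp [hxy', hy'y]
        · simp [hxy, Ne.symm hy'x, hy'ny]
        · intro z hz
          simp at hz
          rcases hz with rfl | rfl | rfl
          · exact hx
          · exact hy'U
          · exact hy
        · simp
          omega

/-- Erdős–Gallai: if `G[U] + xy` is 2-connected and all vertices of `U` other than `x`, `y` have
at least `d` neighbours in `U`, then `x` and `y` are joined by a path in `U` with at least `d + 1`
vertices. -/
theorem eg_path {G : SimpleGraph V} [DecidableRel G.Adj] {U : Finset V} {x y : V} {d : ℕ}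
    (hx : x ∈ U) (hy : y ∈ U) (hxy : x ≠ y)
    (hcon : ∀ v, ∀ u ∈ U, u ≠ v → ∃ z, (z = x ∨ z = y) ∧ z ≠ v ∧
      Rc G (fun w => w ∈ U ∧ w ≠ v) u z)
    (hex : ∃ u ∈ U, u ≠ x ∧ u ≠ y) (hdeg : ∀ u ∈ U, u ≠ x → u ≠ y → d ≤ dU G U u) :
    ∃ Q : List V, Seg G Q x y ∧ Q.Nodup ∧ (∀ z ∈ Q, z ∈ U) ∧ d + 1 ≤ Q.length :=
  eg_path_aux U.card U x y d le_rfl hx hy hxy hcon hex hdeg

end Pool.Agent.TFG
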