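import Pool.Agent.TFG.CaseN
import Pool.Agent.TFG.CaseH

/-! G11: at most `k` cycles cover a graph of large order. -/

namespace Pool.Agent.TFG

open List Pool.Agent.TF82 Pool.Agent.TFC Pool.Agent.TFB Pool.Agent.TFN Pool.Agent.TFX

universe u

set_option linter.unusedSectionVars false
set_option linter.unusedVariables false

variable {V : Type u} [DecidableEq V]

theorem cov_append [Fintype V] {G : SimpleGraph V} {F L : List (List V)} (hF : Fam G F)
    (h1 : ∀ c ∈ L, CycL G c) (h2 : L.flatten.Nodup) (h3 : ∀ x, x ∈ L.flatten ↔ x ∈ unc F) {k : ℕ}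
    (hk : F.length + L.length ≤ k) : Cov G k := by
  refine ⟨F ++ L, by rw [List.length_append]; exact hk, ?_, ?_, ?_⟩
  · intro c hc
    rcases List.mem_append.1 hc with h | h
    · exact hF.cyc c h
    · exact h1 c h
  · rw [List.flatten_append, List.nodup_append]
    refine ⟨hF.nod, h2, ?_⟩
    rintro x hx y hy rfl
    exact mem_unc.1 ((h3 x).1 hy) hx
  · intro x
    rw [List.flatten_append, List.mem_append]
    by_cases hx : x ∈ F.flatten
    · exact Or.inl hx
    · exact Or.inr ((h3 x).2 (mem_unc.2 hx))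

/-- an initial segment with a given number of vertices -/
theorem seg_take {G : SimpleGraph V} {X : List V} {x1 x2 : V} (hX : TFC.Seg G X x1 x2)
    (hXn : X.Nodup) {n : ℕ} (hn : 1 ≤ n) (hnX : n ≤ X.length) :
    ∃ (X' : List V) (x2' : V), TFC.Seg G X' x1 x2' ∧ X'.Nodup ∧ (∀ z ∈ X', z ∈ X) ∧ X'.length = n := by
  have hlen : (X.take n).length = n := by
    rw [List.length_take]
    omega
  have hne : X.take n ≠ [] := by
    intro h
    rw [h] at hlen
    simp at hlen
    omega
  refine ⟨X.take n, (X.take n).getLast hne, ⟨?_, ?_, ?_⟩, ?_, ?_, hlen⟩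
  · have h := hX.ch
    rw [← List.take_append_drop n X] at h
    exact (List.isChain_append.1 h).1
  · rw [List.head?_take, if_neg (by omega)]
    exact hX.hd
  · exact List.getLast?_eq_some_getLast hne
  · exact hXn.sublist (List.take_sublist n X)
  · intro z hz
    exact List.mem_of_mem_take hz

/-- like `TFX.cov_large` with the plain condition (C) -/
theorem cov_all [Fintype V] {k : ℕ} (hk : 1 ≤ k) (G : SimpleGraph V) [DecidableRel G.Adj]
    (hC : ∀ I : Finset V, G.IsIndepSet (I : Set V) → ∀ v ∈ I, I.card + 1 ≤ dU G Finset.univ v)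
    (hσ : ∀ I : Finset V, G.IsIndepSet (I : Set V) → I.card = k + 1 →
      Fintype.card V ≤ ∑ v ∈ I, dU G Finset.univ v)
    (hn : bigC k ^ 8 ≤ Fintype.card V) : Cov G k := by
  rcases dense_or k G hC hσ with h | h | ⟨hk1, hd, I, hI, hIc⟩
  · exact h
  · exfalso
    have h6 : k * (k + 1) ^ 3 ≤ (k + 1) * (k + 1) ^ 3 := Nat.mul_le_mul_right _ (by omega)
    have h7 : (k + 1) * (k + 1) ^ 3 = (k + 1) ^ 4 := by ring
    have h8 : (k + 1) ^ 4 ≤ (k + 1) ^ 33 := Nat.pow_le_pow_right (by omega) (by norm_num)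
    have h9 := big_ge k
    omega
  obtain ⟨ht12, htk⟩ := tC_ge hk1
  have hord := order_le k
  obtain ⟨F0, hF0, hF0k, hF0b⟩ := dense_reduce hC (by omega : 1 ≤ tC k) htk hσ hd I hI hIc
    (hord.trans ((big_ge k).trans hn))
  obtain ⟨F, hM, hFk, hN, hB⟩ := choose_r (Lo := 8 * eC k (tC k) ^ 2) hF0 hF0k hF0b
  have hbig := (Nat.pow_le_pow_left (order_ge k) 8).trans hn
  have he : 16 * tC k * (k + 2) * (k + 1) * (k + 1) ≤ eC k (tC k) := e_ge (tC_ge2 hk1)
  rcases Finset.eq_empty_or_nonempty (unc F) with hemp | hne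
  · exact cov_of_unc hM.fam hFk hemp
  have main := @no_path V _ _ G _ hC (tC k) k (eC k (tC k))
    (bC k (tC k) + k * (8 * eC k (tC k) ^ 2)) (by omega) hk1 he hσ hd hbig F hM hFk hN hB
  obtain ⟨e, hee⟩ : ∃ e, e = eC k (tC k) := ⟨_, rfl⟩
  obtain ⟨t, hte⟩ : ∃ t, t = tC k := ⟨_, rfl⟩
  rw [← hee, ← hte] at hbig hB he
  rw [← hte] at hd ht12
  rw [← hee] at hN
  obtain ⟨B, hBe⟩ : ∃ B, B = bC k t + k * (8 * e ^ 2) := ⟨_, rfl⟩
  rw [← hBe] at hbig hB
  have hM2 : (e + B + t + k + 10) ^ 2 ≤ (e + B + t + k + 10) ^ 8 :=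
    Nat.pow_le_pow_right (by omega) (by norm_num)
  have hM3 : t * (B + 1) < (e + B + t + k + 10) ^ 2 := by
    rw [pow_two]
    exact Nat.mul_lt_mul'' (by omega) (by omega)
  have hcard : B < Fintype.card V := by
    have h1 : 1 * (B + 1) ≤ t * (B + 1) := Nat.mul_le_mul_right _ (by omega)
    omega
  have hLo : k + 10 ≤ 8 * e ^ 2 := by
    have h1 : k + 10 ≤ 8 * e := by
      have h2 : 1 ≤ t := by omega
      have h3 : 16 * 1 * (k + 2) * 1 * 1 ≤ 16 * t * (k + 2) * (k + 1) * (k + 1) := by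
        gcongr <;> omega
      omega
    have h4 : e ≤ e ^ 2 := Nat.le_self_pow (by norm_num) _
    omega
  have hF1 : 1 ≤ F.length := by
    by_contra hcon
    have h2 : F = [] := List.length_eq_zero_iff.1 (by omega)
    have h3 : (unc F).card = Fintype.card V := by
      rw [h2]
      unfold unc
      simp
    omega
  have hp : ∀ y ∈ unc F, ∀ (X : List V) (x1 x2 : V), Seg G X x1 x2 → X.Nodup →
      (∀ z ∈ X, z ∈ comp G F y) → X.length ≤ (k - F.length) + 1 := by
    intro y hy X x1 x2 hX hXn hXc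
    by_contra hcon
    push Not at hcon
    obtain ⟨X', x2', h1, h2, h3, h4⟩ := seg_take hX hXn (n := k + 2 - F.length) (by omega)
      (by omega)
    exact main hy h1 h2 (fun z hz => hXc z (h3 z hz)) (by omega)
  have hbd : ∀ v, (unc F).card + 2 ≤ dU G Finset.univ v := by
    intro v
    by_contra hcon
    push Not at hcon
    have h1 := hd v
    have h2 : t * dU G Finset.univ v ≤ t * (B + 1) := Nat.mul_le_mul_left _ (by omega)
    omega
  by_cases hH : ∀ y ∈ unc F, ∃ c, CycL G c ∧ ∀ z, z ∈ c ↔ z ∈ comp G F y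
  · obtain ⟨L, h1, h2, h3, h4⟩ := case_h hC hM (K := k - F.length) hN (by omega) hne hp hbd hH
    exact cov_append hM.fam h2 h3 h4 (by omega)
  · push Not at hH
    obtain ⟨y, hy, hnh⟩ := hH
    obtain ⟨L, h1, h2, h3, h4⟩ := case_n hC hM hN (by omega) hy (K := k - F.length) (hp y hy) (by
      rintro ⟨c, hc1, hc2⟩
      obtain ⟨z, hz⟩ := hnh c hc1
      rcases hz with ⟨h5, h6⟩ | ⟨h5, h6⟩
      · exact h6 ((hc2 z).1 h5)
      · exact h5 ((hc2 z).2 h6))
    exact cov_append hM.fam h2 h3 h4 (by omega)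

end Pool.Agent.TFG
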