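import Pool.Agent.TFG.Defs

/-! G3 (N3): links with three vertices from a clean end of a longest path. -/

namespace Pool.Agent.TFG

open List Pool.Agent.TF82 Pool.Agent.TFC Pool.Agent.TFB Pool.Agent.TFN

universe u

set_option linter.unusedSectionVars false
set_option linter.unusedVariables false

variable {V : Type u} [DecidableEq V]

/-- the neighbours of the end lie on the path -/
theorem end_nbr [Fintype V] {G : SimpleGraph V} {F : List (List V)} {y : V} (hy : y ∈ unc F)
    {l : List V} {v w : V} (hl : Seg G l v w) (hln : l.Nodup) (hlc : ∀ z ∈ l, z ∈ comp G F y)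
    (hmax : ∀ (X : List V) (x1 x2 : V), Seg G X x1 x2 → X.Nodup → (∀ z ∈ X, z ∈ comp G F y) →
      X.length ≤ l.length) {z : V} (hz : z ∈ unc F) (hvz : G.Adj v z) : z ∈ l := by
  by_contra hzl
  rcases l with _ | ⟨a, t⟩
  · have := hl.hd
    simp at this
  have hav : a = v := by
    have := hl.hd
    simpa using this
  subst hav
  have hzc : z ∈ comp G F y := TFX.px_nbr (hlc a (by simp)) hz hvz
  have h1 := hmax (z :: a :: t) z w ⟨by
      rw [List.isChain_cons_cons]
      exact ⟨hvz.symm, hl.ch⟩, rfl, by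
      rw [List.getLast?_cons_cons]
      exact hl.lt⟩ (List.nodup_cons.2 ⟨hzl, hln⟩) (by
    intro x hx
    rcases List.mem_cons.1 hx with rfl | hx
    · exact hzc
    · exact hlc x hx)
  rw [List.length_cons] at h1
  omega

/-- a cycle through the end and all its neighbours -/
theorem end_cycle [Fintype V] {G : SimpleGraph V} [DecidableRel G.Adj] {F : List (List V)} {y : V}
    (hy : y ∈ unc F)
    {l : List V} {v w : V} (hl : Seg G l v w) (hln : l.Nodup) (hlc : ∀ z ∈ l, z ∈ comp G F y)
    (hmax : ∀ (X : List V) (x1 x2 : V), Seg G X x1 x2 → X.Nodup → (∀ z ∈ X, z ∈ comp G F y) →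
      X.length ≤ l.length) (hd : 2 ≤ dU G (unc F) v) :
    ∃ c, CycL G c ∧ (∀ x ∈ c, x ∈ unc F) ∧ v ∈ c ∧ ∀ z ∈ unc F, G.Adj v z → z ∈ c := by
  have hnb0 : ∀ z ∈ unc F, G.Adj v z → z ∈ l := fun z hz hvz =>
    end_nbr hy hl hln hlc hmax hz hvz
  have hlU : ∀ z ∈ l, z ∈ unc F := fun z hz => (mem_comp.1 (hlc z hz)).1
  have hch := hl.ch
  have hhd := hl.hd
  clear hmax hlc
  rcases l with _ | ⟨a, t⟩
  · simp at hhd
  have hav : a = v := by simpa using hhd
  subst hav
  have hnb : ∀ z ∈ unc F, G.Adj a z → z ∈ t := by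
    intro z hz haz
    rcases List.mem_cons.1 (hnb0 z hz haz) with h | h
    · exact absurd (h ▸ haz) (G.loopless.irrefl a)
    · exact h
  have hex : ∃ x ∈ t, G.Adj a x := by
    have hpos : 0 < ((unc F).filter (fun w => G.Adj a w)).card := by
      unfold dU at hd; omega
    obtain ⟨x, hx⟩ := Finset.card_pos.1 hpos
    rw [Finset.mem_filter] at hx
    exact ⟨x, hnb x hx.1 hx.2, hx.2⟩
  obtain ⟨r, z, s, ht, hz, hs⟩ := last_split (fun x => G.Adj a x) t hex
  have hnb2 : ∀ w ∈ unc F, G.Adj a w → w ∈ r ++ [z] := by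
    intro w hw haw
    have h1 := hnb w hw haw
    rw [ht] at h1
    have h2 : w ∉ s := fun h => hs w h haw
    simp at h1 ⊢
    tauto
  have hle : dU G (unc F) a ≤ r.length + 1 := by
    have h1 : ((unc F).filter (fun w => G.Adj a w)) ⊆ (r ++ [z]).toFinset := by
      intro w hw
      rw [Finset.mem_filter] at hw
      exact List.mem_toFinset.2 (hnb2 w hw.1 hw.2)
    have h2 := Finset.card_le_card h1
    have h3 := List.toFinset_card_le (r ++ [z])
    simp only [List.length_append, List.length_cons, List.length_nil] at h3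
    unfold dU
    omega
  have hsplit : a :: t = (a :: (r ++ [z])) ++ s := by rw [ht]; simp
  refine ⟨a :: (r ++ [z]), ⟨?_, ?_, ?_, ?_⟩, ?_, by simp, ?_⟩
  · rw [hsplit] at hln
    exact (List.nodup_append.1 hln).1
  · simp; omega
  · rw [hsplit] at hch
    exact (List.isChain_append.1 hch).1
  · intro x hx y hy
    have h1 : (a :: (r ++ [z])).getLast? = some z := by
      rw [← List.cons_append, List.getLast?_append]; simp
    rw [h1] at hx
    simp at hx hy
    rw [← hx, ← hy]
    exact hz.symm
  · intro x hx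
    apply hlU
    rw [hsplit]
    exact List.mem_append_left _ hx
  · intro x hx hax
    exact List.mem_cons_of_mem _ (hnb2 x hx hax)

/-- from the end `v` of a longest path there is a path with at least three vertices to every
other vertex that can be reached from `v` in `U` -/
theorem long_from_end {G : SimpleGraph V} [DecidableRel G.Adj] {U : Finset V} {v : V} {t : List V}
    (h1 : (v :: t).Nodup) (h2 : (v :: t).IsChain G.Adj) (h3 : ∀ x ∈ v :: t, x ∈ U)
    (h4 : ∀ z ∈ U, G.Adj v z → z ∈ t) (hd : 2 ≤ dU G U v) {x : V} (hx : Reach G U v x)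
    (hxv : x ≠ v) :
    ∃ Q : List V, Seg G Q v x ∧ Q.Nodup ∧ (∀ z ∈ Q, z ∈ U) ∧ 3 ≤ Q.length := by
  have hvU : v ∈ U := h3 v (by simp)
  by_cases hxt : x ∈ t
  · obtain ⟨A, B, rfl⟩ := List.append_of_mem hxt
    rcases A with _ | ⟨a, A⟩
    · -- `x` is the second vertex
      obtain ⟨w, hw, hwx⟩ : ∃ w ∈ U.filter (fun w => G.Adj v w), w ≠ x := by
        by_contra hcon
        push Not at hcon
        have hsub : U.filter (fun w => G.Adj v w) ⊆ {x} := by
          intro w hw
          rw [Finset.mem_singleton]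
          exact hcon w hw
        have := Finset.card_le_card hsub
        rw [Finset.card_singleton] at this
        unfold dU at hd
        omega
      rw [Finset.mem_filter] at hw
      have hwt := h4 w hw.1 hw.2
      simp only [List.nil_append, List.mem_cons] at hwt
      have hwB : w ∈ B := by
        rcases hwt with h | h
        · exact absurd h hwx
        · exact h
      obtain ⟨C, D, rfl⟩ := List.append_of_mem hwB
      have e : v :: ([] ++ x :: (C ++ w :: D)) = (v :: (x :: (C ++ [w]))) ++ D := by simp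
      rw [e] at h1 h2 h3
      have h1' := (List.nodup_append.1 h1).1
      have h2' := (List.isChain_append.1 h2).1
      have hS : Seg G (x :: (C ++ [w])) x w := by
        refine ⟨(List.isChain_cons_cons.1 h2').2, by simp, ?_⟩
        rw [← List.cons_append, List.getLast?_append]
        simp
      have hS' := hS.rev
      refine ⟨v :: (x :: (C ++ [w])).reverse, ⟨?_, by simp, ?_⟩, ?_, ?_, ?_⟩
      · rw [List.isChain_cons]
        refine ⟨?_, hS'.ch⟩
        intro y hy
        rw [hS'.hd] at hy
        simp only [Option.mem_def, Option.some.injEq] at hy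
        rw [← hy]
        exact hw.2
      · rw [List.getLast?_cons, hS'.lt]
        rfl
      · rw [List.nodup_cons] at h1' ⊢
        exact ⟨fun h => h1'.1 (List.mem_reverse.1 h), List.nodup_reverse.2 h1'.2⟩
      · intro z hz
        apply h3
        rw [List.mem_append]
        left
        rw [List.mem_cons, List.mem_reverse] at hz
        rw [List.mem_cons]
        exact hz
      · simp
    · have e : v :: ((a :: A) ++ x :: B) = (v :: ((a :: A) ++ [x])) ++ B := by simp
      rw [e] at h1 h2 h3
      refine ⟨v :: ((a :: A) ++ [x]), ⟨(List.isChain_append.1 h2).1, by simp, ?_⟩,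
        (List.nodup_append.1 h1).1, ?_, ?_⟩
      · rw [← List.cons_append, List.getLast?_append]
        simp
      · intro z hz
        exact h3 z (List.mem_append_left _ hz)
      · simp
  · obtain ⟨q, q1, q2, q3, q4, q5⟩ := hx.path hvU
    refine ⟨q, ⟨q2, q3, q4⟩, q1, q5, ?_⟩
    rcases q with _ | ⟨a, q⟩
    · simp at q3
    simp only [List.head?_cons, Option.some.injEq] at q3
    subst q3
    rcases q with _ | ⟨b, q⟩
    · simp at q4
      exact absurd q4.symm hxv
    · rcases q with _ | ⟨c, q⟩
      · simp at q4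
        subst q4
        exact absurd (h4 b (q5 b (by simp)) (List.isChain_cons_cons.1 q2).1) hxt
      · simp

/-- paths with three vertices from the end to any other vertex of the component -/
theorem path3 [Fintype V] {G : SimpleGraph V} [DecidableRel G.Adj] {F : List (List V)} {y : V}
    (hy : y ∈ unc F)
    {l : List V} {v w : V} (hl : Seg G l v w) (hln : l.Nodup) (hlc : ∀ z ∈ l, z ∈ comp G F y)
    (hmax : ∀ (X : List V) (x1 x2 : V), Seg G X x1 x2 → X.Nodup → (∀ z ∈ X, z ∈ comp G F y) →
      X.length ≤ l.length) (hd : 2 ≤ dU G (unc F) v) {x : V} (hx : x ∈ comp G F v) (hxv : x ≠ v) :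
    ∃ Q : List V, Seg G Q v x ∧ Q.Nodup ∧ (∀ z ∈ Q, z ∈ comp G F v) ∧ 3 ≤ Q.length := by
  have hnb0 : ∀ z ∈ unc F, G.Adj v z → z ∈ l := fun z hz hvz =>
    end_nbr hy hl hln hlc hmax hz hvz
  have hlU : ∀ z ∈ l, z ∈ unc F := fun z hz => (mem_comp.1 (hlc z hz)).1
  have hch := hl.ch
  have hhd := hl.hd
  clear hmax hlc
  rcases l with _ | ⟨a, t⟩
  · simp at hhd
  have hav : a = v := by simpa using hhd
  subst hav
  obtain ⟨Q, hQ, hQn, hQU, hQl⟩ := long_from_end hln hch hlU (by
    intro z hz haz
    rcases List.mem_cons.1 (hnb0 z hz haz) with h | h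
    · exact absurd (h ▸ haz) (G.loopless.irrefl a)
    · exact h) hd (mem_comp.1 hx).2 hxv
  exact ⟨Q, hQ, hQn, fun z hz => mem_comp.2 ⟨hQU z hz, chain_reach Q a hQ.ch hQ.hd hQU z hz⟩, hQl⟩

/-- links from a clean vertex `v`; used with `n = 3` and with `n = δ + 1` -/
theorem link_clean [Fintype V] {G : SimpleGraph V} {F : List (List V)} {v : V} {n : ℕ}
    (hv : v ∈ unc F) (hcl : Clean G F v)
    (hpath : ∀ x ∈ comp G F v, x ≠ v →
      ∃ Q : List V, Seg G Q v x ∧ Q.Nodup ∧ (∀ z ∈ Q, z ∈ comp G F v) ∧ n ≤ Q.length)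
    {s t : V} (hs : s ∈ F.flatten) (hsv : G.Adj s v) (ht : t ∈ att G F v) :
    Link G F v n s t := by
  by_cases htv : G.Adj t v
  · obtain ⟨x, hx, hxv, hsx⟩ := hcl s hs hsv
    obtain ⟨Q, hQ, hQn, hQc, hQl⟩ := hpath x hx hxv
    exact ⟨Q.reverse, x, v, hQ.rev, List.nodup_reverse.2 hQn,
      fun z hz => hQc z (List.mem_reverse.1 hz), by simpa using hQl, hsx, htv⟩
  · obtain ⟨_, x, hxr, htx⟩ := mem_att.1 ht
    have hxc : x ∈ comp G F v := mem_comp.2 ⟨reach_unc hv hxr, hxr⟩
    have hxv : x ≠ v := by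
      rintro rfl
      exact htv htx
    obtain ⟨Q, hQ, hQn, hQc, hQl⟩ := hpath x hxc hxv
    exact ⟨Q, v, x, hQ, hQn, hQc, hQl, hsv, htx⟩

end Pool.Agent.TFG
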