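import Pool.Agent.TFC.Codeg

/-! The two ends of an arc which is not Hamiltonian (idea: helper85): the vertices `p1`, `p2` of a
longest cycle at the two ends of the open arc `A` between two consecutive elements of a set `S` of
pairwise linked hubs satisfy `d(p1) + d(p2) ≤ |c| - 1 + |S| - (|S| - 1) n`. -/

namespace Pool.Agent.TFG

open List Pool.Agent.TF82 Pool.Agent.TFC

universe u

set_option linter.unusedSectionVars false
set_option linter.unusedVariables false

variable {V : Type u} [DecidableEq V]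

/-! ### numbers -/

theorem idx_count {m n : ℕ} (hn : 1 ≤ n) {Hs N1 N2 : Finset ℕ} (hH : ∀ h ∈ Hs, h < m)
    (h0 : 0 ∈ Hs) (hN1 : ∀ i ∈ N1, i < m) (hN2 : ∀ i ∈ N2, i < m)
    (sp : ∀ h ∈ Hs, ∀ h' ∈ Hs, h < h' → h + n < h')
    (c1 : ∀ h ∈ Hs, ∀ i ∈ N1, h < i → h + n < i) (c2 : ∀ h ∈ Hs, ∀ i ∈ N2, i < h → i + n < h)
    (cD : ∀ i ∈ N1, ∀ j ∈ N2, (i < j → i + n < j) ∧ (j < i → j + n < i)) :
    N1.card + N2.card + (Hs.card - 1) * n ≤ m + Hs.card := by
  set P1 : Finset ℕ := (N1 \ Hs).image (fun i => i - n) with hP1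
  set P2 : Finset ℕ := N2 \ Hs with hP2
  set W : Finset ℕ := (Hs.erase 0).biUnion (fun h => Finset.Ico (h - n) h) with hW
  have big : ∀ i ∈ N1 \ Hs, n < i := by
    intro i hi
    rw [Finset.mem_sdiff] at hi
    have h1 : i ≠ 0 := fun h => hi.2 (h ▸ h0)
    have := c1 0 h0 i hi.1 (by omega)
    omega
  have bigH : ∀ h ∈ Hs.erase 0, n < h := by
    intro h hh
    rw [Finset.mem_erase] at hh
    have := sp 0 h0 h hh.2 (by omega)
    omega
  have cP1 : P1.card = (N1 \ Hs).card := by
    refine Finset.card_image_of_injOn ?_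
    intro i hi j hj hij
    have h1 := big i hi
    have h2 := big j hj
    simp only at hij
    omega
  have cW : W.card = (Hs.card - 1) * n := by
    rw [hW, Finset.card_biUnion]
    · rw [Finset.sum_congr rfl (g := fun _ => n), Finset.sum_const, smul_eq_mul,
        Finset.card_erase_of_mem h0]
      intro h hh
      have := bigH h hh
      rw [Nat.card_Ico]
      omega
    · intro h hh h' hh' hne
      rw [Function.onFun, Finset.disjoint_left]
      intro i hi hi'
      rw [Finset.mem_Ico] at hi hi'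
      have b1 := bigH h hh
      have b2 := bigH h' hh'
      have m1 := (Finset.mem_erase.1 hh).2
      have m2 := (Finset.mem_erase.1 hh').2
      rcases Nat.lt_or_gt_of_ne hne with hlt | hlt
      · have := sp h m1 h' m2 hlt
        omega
      · have := sp h' m2 h m1 hlt
        omega
  have d12 : Disjoint P1 P2 := by
    rw [Finset.disjoint_left]
    intro i hi hi'
    obtain ⟨j, hj, rfl⟩ := Finset.mem_image.1 hi
    have h1 := big j hj
    have h2 := (cD j (Finset.mem_sdiff.1 hj).1 (j - n) (Finset.mem_sdiff.1 hi').1).2 (by omega)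
    omega
  have d1W : Disjoint P1 W := by
    rw [Finset.disjoint_left]
    intro i hi hi'
    obtain ⟨j, hj, rfl⟩ := Finset.mem_image.1 hi
    obtain ⟨h, hh, hi2⟩ := Finset.mem_biUnion.1 hi'
    rw [Finset.mem_Ico] at hi2
    have h1 := big j hj
    have h2 := bigH h hh
    have m1 := (Finset.mem_erase.1 hh).2
    have h3 : j ≠ h := fun h' => (Finset.mem_sdiff.1 hj).2 (h' ▸ m1)
    have h4 : h < j := by omega
    have := c1 h m1 j (Finset.mem_sdiff.1 hj).1 h4
    omega
  have d1H : Disjoint P1 Hs := by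
    rw [Finset.disjoint_left]
    intro i hi hi'
    obtain ⟨j, hj, rfl⟩ := Finset.mem_image.1 hi
    have h1 := big j hj
    have := c1 _ hi' j (Finset.mem_sdiff.1 hj).1 (by omega)
    omega
  have d2W : Disjoint P2 W := by
    rw [Finset.disjoint_left]
    intro i hi hi'
    obtain ⟨h, hh, hi2⟩ := Finset.mem_biUnion.1 hi'
    rw [Finset.mem_Ico] at hi2
    have := c2 h (Finset.mem_erase.1 hh).2 i (Finset.mem_sdiff.1 hi).1 hi2.2
    omega
  have d2H : Disjoint P2 Hs := Finset.sdiff_disjoint
  have dWH : Disjoint W Hs := by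
    rw [Finset.disjoint_left]
    intro i hi hi'
    obtain ⟨h, hh, hi2⟩ := Finset.mem_biUnion.1 hi
    rw [Finset.mem_Ico] at hi2
    have := sp i hi' h (Finset.mem_erase.1 hh).2 hi2.2
    omega
  have hsub : ((P1 ∪ P2) ∪ W) ∪ Hs ⊆ Finset.range m := by
    intro i hi
    rw [Finset.mem_range]
    rcases Finset.mem_union.1 hi with hi | hi
    · rcases Finset.mem_union.1 hi with hi | hi
      · rcases Finset.mem_union.1 hi with hi | hi
        · obtain ⟨j, hj, rfl⟩ := Finset.mem_image.1 hi
          have := hN1 j (Finset.mem_sdiff.1 hj).1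
          omega
        · exact hN2 i (Finset.mem_sdiff.1 hi).1
      · obtain ⟨h, hh, hi2⟩ := Finset.mem_biUnion.1 hi
        rw [Finset.mem_Ico] at hi2
        have := hH h (Finset.mem_erase.1 hh).2
        omega
    · exact hH i hi
  have hcard := Finset.card_le_card hsub
  rw [Finset.card_range, Finset.card_union_of_disjoint, Finset.card_union_of_disjoint,
    Finset.card_union_of_disjoint d12, cP1, cW] at hcard
  rotate_left
  · exact Finset.disjoint_union_left.2 ⟨d1W, d2W⟩
  · exact Finset.disjoint_union_left.2 ⟨Finset.disjoint_union_left.2 ⟨d1H, d2H⟩, dWH⟩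
  have e1 : N1.card ≤ (N1 \ Hs).card + Hs.card := by
    have := Finset.le_card_sdiff Hs N1
    omega
  have e2 : N2.card ≤ P2.card + Hs.card := by
    have h := Finset.le_card_sdiff Hs N2
    rw [← hP2] at h
    omega
  omega

/-! ### lists -/

theorem seg_pre {G : SimpleGraph V} {X R : List V} {z s t : V} (h : Seg G (X ++ z :: R) s t) :
    Seg G (X ++ [z]) s z := by
  obtain ⟨h1, h2, h3⟩ := h
  refine ⟨?_, ?_, by simp⟩
  · have e : X ++ z :: R = (X ++ [z]) ++ R := by simp
    rw [e, List.isChain_append] at h1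
    exact h1.1
  · rcases X with _ | ⟨x, X⟩
    · simpa using h2
    · simpa using h2

theorem seg_suf {G : SimpleGraph V} {X R : List V} {z s t : V} (h : Seg G (X ++ z :: R) s t) :
    Seg G (z :: R) z t := by
  obtain ⟨h1, h2, h3⟩ := h
  refine ⟨?_, by simp, ?_⟩
  · rw [List.isChain_append] at h1
    exact h1.2.1
  · rw [List.getLast?_append] at h3
    rcases hR : (z :: R).getLast? with _ | w
    · simp at hR
    · rw [hR] at h3
      simpa using h3

theorem idx_split {B X R : List V} {z : V} (hn : B.Nodup) (h : B = X ++ z :: R) :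
    B.idxOf z = X.length := by
  subst h
  have hz : z ∉ X := by
    intro hz
    rw [List.nodup_append] at hn
    exact hn.2.2 z hz z (by simp) rfl
  rw [List.idxOf_append_of_notMem hz, List.idxOf_cons_self, Nat.add_zero]

theorem pair_split {B : List V} (hn : B.Nodup) {z z' : V} (hz : z ∈ B) (hz' : z' ∈ B)
    (h : B.idxOf z < B.idxOf z') : ∃ X M Y, B = X ++ z :: (M ++ z' :: Y) ∧
      B.idxOf z = X.length ∧ B.idxOf z' = X.length + 1 + M.length := by
  obtain ⟨X, R, hB⟩ := List.append_of_mem hz
  have h1 := idx_split hn hB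
  have hz'R : z' ∈ R := by
    have hm := hz'
    rw [hB, List.mem_append, List.mem_cons] at hm
    rcases hm with hm | rfl | hm
    · exfalso
      obtain ⟨X1, X2, hX⟩ := List.append_of_mem hm
      have h2 : B = X1 ++ z' :: (X2 ++ z :: R) := by rw [hB, hX]; simp
      have h3 := idx_split hn h2
      rw [h1, h3, hX] at h
      simp at h
    · omega
    · exact hm
  obtain ⟨M, Y, hR⟩ := List.append_of_mem hz'R
  have h2 : B = (X ++ z :: M) ++ z' :: Y := by rw [hB, hR]; simp
  refine ⟨X, M, Y, by rw [hB, hR], h1, ?_⟩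
  rw [idx_split hn h2]
  simp
  try omega

theorem seg_cyc {G : SimpleGraph V} {l : List V} {a b : V} (h : Seg G l a b) (hab : G.Adj b a)
    (hn : l.Nodup) (h3 : 3 ≤ l.length) : CycL G l := by
  refine ⟨hn, h3, h.ch, ?_⟩
  intro x hx y hy
  rw [h.lt] at hx
  rw [h.hd] at hy
  simp only [Option.mem_def, Option.some.injEq] at hx hy
  rw [← hx, ← hy]
  exact hab

theorem nodup_of_eq {l l' : List V} (h : (l : Multiset V) = (l' : Multiset V)) (hn : l'.Nodup) :
    l.Nodup := (Multiset.coe_eq_coe.1 h).nodup_iff.2 hn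

/-- the crossing argument for the ends of a path whose vertex set carries no Hamilton cycle -/
theorem ends_count {G : SimpleGraph V} [DecidableRel G.Adj] {A : List V} {p1 p2 : V}
    (hA : Seg G A p1 p2) (hn : A.Nodup) (h3 : 3 ≤ A.length)
    (hham : ¬ ∃ c, CycL G c ∧ ∀ z, z ∈ c ↔ z ∈ A) :
    (A.toFinset.filter (fun z => G.Adj p1 z)).card +
      (A.toFinset.filter (fun z => G.Adj p2 z)).card + 1 ≤ A.length := by
  set N1 := (A.toFinset.filter (fun z => G.Adj p1 z)).image A.idxOf with hN1
  set N2 := (A.toFinset.filter (fun z => G.Adj p2 z)).image A.idxOf with hN2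
  have inj : ∀ (P : V → Prop) [DecidablePred P], ((A.toFinset.filter P).image A.idxOf).card =
      (A.toFinset.filter P).card := by
    intro P _
    refine Finset.card_image_of_injOn ?_
    intro x hx y hy hxy
    rw [Finset.mem_coe, Finset.mem_filter, List.mem_toFinset] at hx hy
    exact (List.idxOf_inj hx.1).1 hxy
  rw [← inj (fun z => G.Adj p1 z), ← inj (fun z => G.Adj p2 z), ← hN1, ← hN2]
  have mem1 : ∀ i ∈ N1, ∃ z ∈ A, G.Adj p1 z ∧ A.idxOf z = i := by
    intro i hi
    obtain ⟨z, hz, hzi⟩ := Finset.mem_image.1 hi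
    rw [Finset.mem_filter, List.mem_toFinset] at hz
    exact ⟨z, hz.1, hz.2, hzi⟩
  have mem2 : ∀ i ∈ N2, ∃ z ∈ A, G.Adj p2 z ∧ A.idxOf z = i := by
    intro i hi
    obtain ⟨z, hz, hzi⟩ := Finset.mem_image.1 hi
    rw [Finset.mem_filter, List.mem_toFinset] at hz
    exact ⟨z, hz.1, hz.2, hzi⟩
  have pos1 : ∀ i ∈ N1, 1 ≤ i := by
    intro i hi
    obtain ⟨z, hz, hadj, rfl⟩ := mem1 i hi
    by_contra hcon
    have h0 : A.idxOf z = 0 := by omega
    obtain ⟨X, R, hX⟩ := List.append_of_mem hz
    have h1 := idx_split hn hX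
    have hX0 : X = [] := List.length_eq_zero_iff.1 (by omega)
    have h2 := hA.hd
    rw [hX, hX0] at h2
    simp only [List.nil_append, List.head?_cons, Option.some.injEq] at h2
    rw [h2] at hadj
    exact G.loopless.irrefl _ hadj
  have lt1 : ∀ i ∈ N1, i < A.length := by
    intro i hi
    obtain ⟨z, hz, hadj, rfl⟩ := mem1 i hi
    exact List.idxOf_lt_length_iff.2 hz
  have lt2 : ∀ i ∈ N2, i + 1 < A.length := by
    intro i hi
    obtain ⟨z, hz, hadj, rfl⟩ := mem2 i hi
    by_contra hcon
    have hlt := List.idxOf_lt_length_iff.2 hz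
    obtain ⟨X, R, hX⟩ := List.append_of_mem hz
    have h1 := idx_split hn hX
    have hlen : A.length = X.length + 1 + R.length := by
      rw [hX]; simp; omega
    have hR0 : R = [] := List.length_eq_zero_iff.1 (by omega)
    have h2 := hA.lt
    rw [hX, hR0, List.getLast?_append] at h2
    simp at h2
    rw [h2] at hadj
    exact G.loopless.irrefl _ hadj
  have cross : ∀ i ∈ N1, i - 1 ∉ N2 := by
    intro i hi hi'
    obtain ⟨z', hz', hadj', hi1⟩ := mem1 i hi
    obtain ⟨z, hz, hadj, hi2⟩ := mem2 (i - 1) hi'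
    have h1 := pos1 i hi
    obtain ⟨X, M, Y, hX, e1, e2⟩ := pair_split hn hz hz' (by omega)
    have hM : M = [] := List.length_eq_zero_iff.1 (by omega)
    rw [hM, List.nil_append] at hX
    have s1 := seg_pre (hX ▸ hA)
    have hX' : A = (X ++ [z]) ++ z' :: Y := by rw [hX]; simp
    have s2 := seg_suf (hX' ▸ hA)
    have s3 := s1.append s2.rev hadj.symm
    refine hham ⟨_, seg_cyc s3 hadj'.symm ?_ ?_, ?_⟩
    · refine nodup_of_eq (l' := A) ?_ hn
      rw [hX']
      simp only [← Multiset.coe_add, Multiset.coe_reverse]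
    · rw [hX'] at h3
      simpa using h3
    · intro v
      rw [hX']
      simp
      try tauto
  have hdis : Disjoint (N1.image (fun i => i - 1)) N2 := by
    rw [Finset.disjoint_left]
    intro i hi hi'
    obtain ⟨j, hj, rfl⟩ := Finset.mem_image.1 hi
    exact cross j hj hi'
  have hsub : (N1.image (fun i => i - 1)) ∪ N2 ⊆ Finset.range (A.length - 1) := by
    intro i hi
    rw [Finset.mem_range]
    rcases Finset.mem_union.1 hi with hi | hi
    · obtain ⟨j, hj, rfl⟩ := Finset.mem_image.1 hi
      have := lt1 j hj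
      have := pos1 j hj
      omega
    · have := lt2 i hi
      omega
  have hcard := Finset.card_le_card hsub
  rw [Finset.card_range, Finset.card_union_of_disjoint hdis, Finset.card_image_of_injOn] at hcard
  · omega
  · intro i hi j hj hij
    have := pos1 i hi
    have := pos1 j hj
    simp only at hij
    omega

/-- TWO-P COUNT -/
theorem two_p {G : SimpleGraph V} [DecidableRel G.Adj] {A B : List V} {p1 p2 y y' : V}
    (hA : Seg G A p1 p2) (hB : Seg G B y' y) (h2 : G.Adj p2 y') (h1 : G.Adj y p1)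
    (hn : (A ++ B).Nodup) (h3 : 3 ≤ A.length)
    (hmax : ∀ c, CycL G c → c.length ≤ A.length + B.length)
    (hham : ¬ ∃ c, CycL G c ∧ ∀ z, z ∈ c ↔ z ∈ A) {S : Finset V} (hS : ∀ s ∈ S, s ∈ B)
    (hy : y ∈ S) (hy' : y' ∈ S) {n : ℕ} (hn1 : 1 ≤ n)
    (hlink : ∀ s ∈ S, ∀ t ∈ S, s ≠ t → ∃ (Q : List V) (x1 x2 : V), Seg G Q x1 x2 ∧ Q.Nodup ∧
      (∀ z ∈ Q, z ∉ A ++ B) ∧ n ≤ Q.length ∧ G.Adj s x1 ∧ G.Adj t x2) :
    ((A ++ B).toFinset.filter (fun z => G.Adj p1 z)).card +
      ((A ++ B).toFinset.filter (fun z => G.Adj p2 z)).card + (S.card - 1) * n + 1 ≤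
      (A ++ B).length + S.card := by
  have hnA : A.Nodup := (List.nodup_append.1 hn).1
  have hnB : B.Nodup := (List.nodup_append.1 hn).2.1
  have cA := ends_count hA hnA h3 hham
  -- positions in `B`
  have inj : ∀ T : Finset V, (∀ x ∈ T, x ∈ B) → (T.image B.idxOf).card = T.card := by
    intro T hT
    refine Finset.card_image_of_injOn ?_
    intro x hx y hy hxy
    exact (List.idxOf_inj (hT x hx)).1 hxy
  have h0 : B.idxOf y' = 0 := by
    rcases B with _ | ⟨b, B⟩
    · have := hB.hd
      simp at this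
    · have := hB.hd
      simp only [List.head?_cons, Option.some.injEq] at this
      rw [this, List.idxOf_cons_self]
  -- surgery
  have sur : ∀ {z z' : V}, z ∈ B → z' ∈ B → B.idxOf z < B.idxOf z' →
      ∃ (X M Y : List V), B.idxOf z = X.length ∧ B.idxOf z' = X.length + 1 + M.length ∧
        B.length = X.length + 2 + M.length + Y.length ∧
        Seg G (X ++ [z]) y' z ∧ Seg G (z' :: Y) z' y ∧
        (A ++ ((X ++ [z]) ++ (z' :: Y))).Nodup ∧ (∀ v ∈ (X ++ [z]) ++ (z' :: Y), v ∈ B) := by
    intro z z' hz hz' hlt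
    obtain ⟨X, M, Y, hX, e1, e2⟩ := pair_split hnB hz hz' hlt
    have hX' : B = (X ++ z :: M) ++ z' :: Y := by rw [hX]; simp
    refine ⟨X, M, Y, e1, e2, ?_, seg_pre (hX ▸ hB), seg_suf (hX' ▸ hB), ?_, ?_⟩
    · rw [hX]; simp; omega
    · have hsl : (A ++ ((X ++ [z]) ++ (z' :: Y))).Sublist (A ++ B) := by
        rw [hX]
        refine List.Sublist.append_left ?_ A
        have e : X ++ z :: (M ++ z' :: Y) = (X ++ [z]) ++ (M ++ z' :: Y) := by simp
        rw [e]
        exact List.Sublist.append_left (List.sublist_append_right _ _) _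
      exact hsl.nodup hn
    · intro v hv
      rw [hX]
      simp only [List.mem_append, List.mem_cons, List.not_mem_nil, or_false] at hv ⊢
      tauto
  -- a new cycle
  have cyc : ∀ {X Y Q W : List V} {z z' : V}, (A ++ ((X ++ [z]) ++ (z' :: Y))).Nodup →
      Q.Nodup → (∀ v ∈ Q, v ∉ A ++ B) → (∀ v ∈ (X ++ [z]) ++ (z' :: Y), v ∈ B) →
      (W : Multiset V) = (A : Multiset V) + ((X ++ [z] : List V) : Multiset V) +
        ((z' :: Y : List V) : Multiset V) + (Q : Multiset V) →
      (∀ {a b : V}, Seg G W a b → G.Adj b a → A.length + (X.length + 1) + (Y.length + 1) +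
        Q.length ≤ A.length + B.length) := by
    intro X Y Q W z z' hnd hQ hQd hmem hW a b hseg hab
    have hlen : W.length = A.length + (X.length + 1) + (Y.length + 1) + Q.length := by
      have := congrArg Multiset.card hW
      simp at this
      omega
    have hWn : W.Nodup := by
      refine nodup_of_eq (l' := (A ++ ((X ++ [z]) ++ (z' :: Y))) ++ Q) ?_ ?_
      · rw [hW]
        simp only [← Multiset.coe_add]
        abel
      · rw [List.nodup_append]
        refine ⟨hnd, hQ, ?_⟩
        rintro v hv _ hvQ rfl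
        refine hQd v hvQ ?_
        rw [List.mem_append] at hv ⊢
        rcases hv with hv | hv
        · exact Or.inl hv
        · exact Or.inr (hmem v hv)
    rw [← hlen]
    exact hmax W (seg_cyc hseg hab hWn (by omega))
  have cB := idx_count (m := B.length) hn1 (Hs := S.image B.idxOf)
    (N1 := (B.toFinset.filter (fun z => G.Adj p1 z)).image B.idxOf)
    (N2 := (B.toFinset.filter (fun z => G.Adj p2 z)).image B.idxOf)
    (by
      intro h hh
      obtain ⟨s, hs, rfl⟩ := Finset.mem_image.1 hh
      exact List.idxOf_lt_length_iff.2 (hS s hs))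
    (Finset.mem_image.2 ⟨y', hy', h0⟩)
    (by
      intro h hh
      obtain ⟨s, hs, rfl⟩ := Finset.mem_image.1 hh
      exact List.idxOf_lt_length_iff.2 (List.mem_toFinset.1 (Finset.mem_filter.1 hs).1))
    (by
      intro h hh
      obtain ⟨s, hs, rfl⟩ := Finset.mem_image.1 hh
      exact List.idxOf_lt_length_iff.2 (List.mem_toFinset.1 (Finset.mem_filter.1 hs).1))
    (by
      intro h hh h' hh' hlt
      obtain ⟨s, hs, rfl⟩ := Finset.mem_image.1 hh
      obtain ⟨t, ht, rfl⟩ := Finset.mem_image.1 hh'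
      obtain ⟨X, M, Y, e1, e2, e3, s1, s2, hnd, hmem⟩ := sur (hS s hs) (hS t ht) hlt
      have hst : s ≠ t := fun h => by rw [h] at hlt; omega
      obtain ⟨Q, x1, x2, q1, q2, q3, q4, q5, q6⟩ := hlink s hs t ht hst
      have hseg := ((s1.append q1 q5).append s2 q6.symm).append hA h1
      have := cyc hnd q2 q3 hmem (by simp only [← Multiset.coe_add]; abel) hseg h2
      omega)
    (by
      intro h hh i hi hlt
      obtain ⟨s, hs, rfl⟩ := Finset.mem_image.1 hh
      obtain ⟨z, hz, rfl⟩ := Finset.mem_image.1 hi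
      rw [Finset.mem_filter, List.mem_toFinset] at hz
      obtain ⟨X, M, Y, e1, e2, e3, s1, s2, hnd, hmem⟩ := sur (hS s hs) hz.1 hlt
      have hsy : y ≠ s := by
        rintro rfl
        -- `s` is the last vertex of `B`
        obtain ⟨X', M', Y', hX, e1', e2'⟩ := pair_split hnB (hS y hs) hz.1 hlt
        have hl := hB.lt
        have hX' : B = (X' ++ y :: M') ++ z :: Y' := by rw [hX]; simp
        have s3 : Seg G (z :: Y') z y := seg_suf (hX' ▸ hB)
        have hyin : y ∈ z :: Y' := by
          have := s3.lt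
          exact List.mem_of_getLast? this
        rw [hX', List.nodup_append] at hnB
        exact hnB.2.2 y (by simp) y hyin rfl
      obtain ⟨Q, x1, x2, q1, q2, q3, q4, q5, q6⟩ := hlink y hy s hs hsy
      have hseg := ((hA.rev.append s2 hz.2).append q1 q5).append s1.rev q6.symm
      have := cyc hnd q2 q3 hmem (by
        simp only [← Multiset.coe_add, Multiset.coe_reverse]; abel) hseg h2.symm
      omega)
    (by
      intro h hh i hi hlt
      obtain ⟨s, hs, rfl⟩ := Finset.mem_image.1 hh
      obtain ⟨z, hz, rfl⟩ := Finset.mem_image.1 hi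
      rw [Finset.mem_filter, List.mem_toFinset] at hz
      obtain ⟨X, M, Y, e1, e2, e3, s1, s2, hnd, hmem⟩ := sur hz.1 (hS s hs) hlt
      have hsy : y' ≠ s := by
        rintro rfl
        omega
      obtain ⟨Q, x1, x2, q1, q2, q3, q4, q5, q6⟩ := hlink y' hy' s hs hsy
      have hseg := ((hA.append s1.rev hz.2).append q1 q5).append s2 q6.symm
      have := cyc hnd q2 q3 hmem (by
        simp only [← Multiset.coe_add, Multiset.coe_reverse]; abel) hseg h1
      omega)
    (by
      intro i hi j hj
      obtain ⟨z, hz, rfl⟩ := Finset.mem_image.1 hi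
      obtain ⟨w, hw, rfl⟩ := Finset.mem_image.1 hj
      rw [Finset.mem_filter, List.mem_toFinset] at hz hw
      have hyy : ∀ {u v : V}, u ∈ B → v ∈ B → B.idxOf u < B.idxOf v → y ≠ y' := by
        intro u v hu hv huv heq
        obtain ⟨X', M', Y', hX, e1', e2'⟩ := pair_split hnB hu hv huv
        have hX' : B = (X' ++ u :: M') ++ v :: Y' := by rw [hX]; simp
        have s3 : Seg G (v :: Y') v y := seg_suf (hX' ▸ hB)
        have hyin : y ∈ v :: Y' := List.mem_of_getLast? s3.lt
        obtain ⟨Z1, Z2, hZ⟩ := List.append_of_mem hyin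
        have hX2 : B = ((X' ++ u :: M') ++ Z1) ++ y :: Z2 := by rw [hX', hZ]; simp
        have := idx_split hnB hX2
        rw [heq, h0] at this
        simp at this
      constructor
      · intro hlt
        obtain ⟨X, M, Y, e1, e2, e3, s1, s2, hnd, hmem⟩ := sur hz.1 hw.1 hlt
        obtain ⟨Q, x1, x2, q1, q2, q3, q4, q5, q6⟩ := hlink y hy y' hy' (hyy hz.1 hw.1 hlt)
        have hseg := ((s1.append hA hz.2.symm).append s2 hw.2).append q1 q5
        have := cyc hnd q2 q3 hmem (by simp only [← Multiset.coe_add]; abel) hseg q6.symm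
        omega
      · intro hlt
        obtain ⟨X, M, Y, e1, e2, e3, s1, s2, hnd, hmem⟩ := sur hw.1 hz.1 hlt
        obtain ⟨Q, x1, x2, q1, q2, q3, q4, q5, q6⟩ := hlink y hy y' hy' (hyy hw.1 hz.1 hlt)
        have hseg := ((s1.append hA.rev hw.2.symm).append s2 hz.2).append q1 q5
        have := cyc hnd q2 q3 hmem (by
          simp only [← Multiset.coe_add, Multiset.coe_reverse]; abel) hseg q6.symm
        omega)
  rw [inj S hS, inj _ (fun x hx => List.mem_toFinset.1 (Finset.mem_filter.1 hx).1),
    inj _ (fun x hx => List.mem_toFinset.1 (Finset.mem_filter.1 hx).1)] at cB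
  have split : ∀ p : V, ((A ++ B).toFinset.filter (fun z => G.Adj p z)).card ≤
      (A.toFinset.filter (fun z => G.Adj p z)).card +
      (B.toFinset.filter (fun z => G.Adj p z)).card := by
    intro p
    rw [List.toFinset_append, Finset.filter_union]
    exact Finset.card_union_le _ _
  have i1 := split p1
  have i2 := split p2
  rw [List.length_append]
  omega

end Pool.Agent.TFG
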