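import Pool.Agent.TFG.TwoP

/-! The two-ends count of `TFG/TwoP` with runs: on the longest cycle `R₂ ++ A ++ R₁ ++ B` the run
`R₁` lies between the end `p2` of `A` and the hub `y'`, the run `R₂` between the hub `y` and `p1`. -/

namespace Pool.Agent.TFG

open List Pool.Agent.TF82 Pool.Agent.TFC

universe u

set_option linter.unusedSectionVars false
set_option linter.unusedVariables false

variable {V : Type u} [DecidableEq V]

/-- TWO-P COUNT with runs -/
theorem two_pR {G : SimpleGraph V} [DecidableRel G.Adj] {A B R1 R2 : List V} {p1 p2 q1 q2 y y' : V}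
    (hA : Seg G A p1 p2) (hAf : Seg G (R2 ++ (A ++ R1)) q2 q1) (hB : Seg G B y' y)
    (h2 : G.Adj q1 y') (h1 : G.Adj y q2)
    (hn : ((R2 ++ (A ++ R1)) ++ B).Nodup) (h3 : 3 ≤ A.length)
    (hmax : ∀ c, CycL G c → c.length ≤ A.length + R1.length + R2.length + B.length)
    (hham : ¬ ∃ c, CycL G c ∧ ∀ z, z ∈ c ↔ z ∈ A) {S : Finset V} (hS : ∀ s ∈ S, s ∈ B)
    (hy : y ∈ S) (hy' : y' ∈ S) {n : ℕ} (hn1 : R1.length + R2.length + 1 ≤ n)
    (hlink : ∀ s ∈ S, ∀ t ∈ S, s ≠ t → ∃ (Q : List V) (x1 x2 : V), Seg G Q x1 x2 ∧ Q.Nodup ∧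
      (∀ z ∈ Q, z ∉ (R2 ++ (A ++ R1)) ++ B) ∧ n ≤ Q.length ∧ G.Adj s x1 ∧ G.Adj t x2) :
    (((R2 ++ (A ++ R1)) ++ B).toFinset.filter (fun z => G.Adj p1 z)).card +
      (((R2 ++ (A ++ R1)) ++ B).toFinset.filter (fun z => G.Adj p2 z)).card +
      (S.card - 1) * n + 1 ≤
      ((R2 ++ (A ++ R1)) ++ B).length + S.card + S.card * (R1.length + R2.length) := by
  have hnF : (R2 ++ (A ++ R1)).Nodup := (List.nodup_append.1 hn).1
  have hnB : B.Nodup := (List.nodup_append.1 hn).2.1
  have hnAR : (A ++ R1).Nodup := (List.nodup_append.1 hnF).2.1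
  have hnA : A.Nodup := (List.nodup_append.1 hnAR).1
  have cA := ends_count hA hnA h3 hham
  -- the three pieces
  have hAR1 : Seg G (A ++ R1) p1 q1 := by
    rcases A with _ | ⟨a, A⟩
    · simp at h3
    · have ha := hA.hd
      simp only [List.head?_cons, Option.some.injEq] at ha
      subst ha
      exact seg_suf hAf
  have hR2A : Seg G (R2 ++ A) q2 p2 := by
    obtain ⟨A0, hA0⟩ : ∃ A0, A = A0 ++ [p2] := by
      refine ⟨A.dropLast, ?_⟩
      have hne : A ≠ [] := by rintro rfl; simp at h3
      have hl := hA.lt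
      rw [List.getLast?_eq_some_getLast hne, Option.some.injEq] at hl
      rw [← hl, List.dropLast_append_getLast]
    have e : R2 ++ (A ++ R1) = (R2 ++ A0) ++ p2 :: R1 := by rw [hA0]; simp
    have := seg_pre (e ▸ hAf)
    rw [hA0]
    simpa using this
  -- positions in `B`
  have inj : ∀ T : Finset V, (∀ x ∈ T, x ∈ B) → (T.image B.idxOf).card = T.card := by
    intro T hT
    refine Finset.card_image_of_injOn ?_
    intro x hx y hy hxy
    exact (List.idxOf_inj (hT x hx)).1 hxy
  have h0 : B.idxOf y' = 0 := by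
    rcases B with _ | ⟨b, B⟩
    · have := hB.hd
      simp at this
    · have := hB.hd
      simp only [List.head?_cons, Option.some.injEq] at this
      rw [this, List.idxOf_cons_self]
  -- surgery
  have sur : ∀ {z z' : V}, z ∈ B → z' ∈ B → B.idxOf z < B.idxOf z' →
      ∃ (X M Y : List V), B.idxOf z = X.length ∧ B.idxOf z' = X.length + 1 + M.length ∧
        B.length = X.length + 2 + M.length + Y.length ∧
        Seg G (X ++ [z]) y' z ∧ Seg G (z' :: Y) z' y ∧
        ((R2 ++ (A ++ R1)) ++ ((X ++ [z]) ++ (z' :: Y))).Nodup ∧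
        (∀ v ∈ (X ++ [z]) ++ (z' :: Y), v ∈ B) := by
    intro z z' hz hz' hlt
    obtain ⟨X, M, Y, hX, e1, e2⟩ := pair_split hnB hz hz' hlt
    have hX' : B = (X ++ z :: M) ++ z' :: Y := by rw [hX]; simp
    refine ⟨X, M, Y, e1, e2, ?_, seg_pre (hX ▸ hB), seg_suf (hX' ▸ hB), ?_, ?_⟩
    · rw [hX]; simp; omega
    · have hsl : ((R2 ++ (A ++ R1)) ++ ((X ++ [z]) ++ (z' :: Y))).Sublist
          ((R2 ++ (A ++ R1)) ++ B) := by
        rw [hX]
        refine List.Sublist.append_left ?_ _
        have e : X ++ z :: (M ++ z' :: Y) = (X ++ [z]) ++ (M ++ z' :: Y) := by simp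
        rw [e]
        exact List.Sublist.append_left (List.sublist_append_right _ _) _
      exact hsl.nodup hn
    · intro v hv
      rw [hX]
      simp only [List.mem_append, List.mem_cons, List.not_mem_nil, or_false] at hv ⊢
      tauto
  -- a new cycle through a sublist `F` of `R2 ++ (A ++ R1)`
  have cyc : ∀ {F X Y Q W : List V} {z z' : V}, F.Sublist (R2 ++ (A ++ R1)) → 3 ≤ F.length →
      ((R2 ++ (A ++ R1)) ++ ((X ++ [z]) ++ (z' :: Y))).Nodup →
      Q.Nodup → (∀ v ∈ Q, v ∉ (R2 ++ (A ++ R1)) ++ B) →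
      (∀ v ∈ (X ++ [z]) ++ (z' :: Y), v ∈ B) →
      (W : Multiset V) = (F : Multiset V) + ((X ++ [z] : List V) : Multiset V) +
        ((z' :: Y : List V) : Multiset V) + (Q : Multiset V) →
      (∀ {a b : V}, Seg G W a b → G.Adj b a → F.length + (X.length + 1) + (Y.length + 1) +
        Q.length ≤ A.length + R1.length + R2.length + B.length) := by
    intro F X Y Q W z z' hF hF3 hnd hQ hQd hmem hW a b hseg hab
    have hlen : W.length = F.length + (X.length + 1) + (Y.length + 1) + Q.length := by
      have := congrArg Multiset.card hW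
      simp at this
      omega
    have hWn : W.Nodup := by
      refine nodup_of_eq (l' := (F ++ ((X ++ [z]) ++ (z' :: Y))) ++ Q) ?_ ?_
      · rw [hW]
        simp only [← Multiset.coe_add]
        abel
      · rw [List.nodup_append]
        refine ⟨(List.Sublist.append_right hF _).nodup hnd, hQ, ?_⟩
        rintro v hv _ hvQ rfl
        refine hQd v hvQ ?_
        rw [List.mem_append] at hv ⊢
        rcases hv with hv | hv
        · exact Or.inl (hF.subset hv)
        · exact Or.inr (hmem v hv)
    rw [← hlen]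
    exact hmax W (seg_cyc hseg hab hWn (by omega))
  have sA : A.Sublist (R2 ++ (A ++ R1)) :=
    (List.sublist_append_left A R1).trans (List.sublist_append_right _ _)
  have sAR : (A ++ R1).Sublist (R2 ++ (A ++ R1)) := List.sublist_append_right _ _
  have sRA : (R2 ++ A).Sublist (R2 ++ (A ++ R1)) :=
    List.Sublist.append_left (List.sublist_append_left A R1) _
  obtain ⟨r, hr⟩ : ∃ r, n = R1.length + R2.length + r := ⟨n - (R1.length + R2.length), by omega⟩
  have cB := idx_count (m := B.length) (n := r) (by omega) (Hs := S.image B.idxOf)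
    (N1 := (B.toFinset.filter (fun z => G.Adj p1 z)).image B.idxOf)
    (N2 := (B.toFinset.filter (fun z => G.Adj p2 z)).image B.idxOf)
    (by
      intro h hh
      obtain ⟨s, hs, rfl⟩ := Finset.mem_image.1 hh
      exact List.idxOf_lt_length_iff.2 (hS s hs))
    (Finset.mem_image.2 ⟨y', hy', h0⟩)
    (by
      intro h hh
      obtain ⟨s, hs, rfl⟩ := Finset.mem_image.1 hh
      exact List.idxOf_lt_length_iff.2 (List.mem_toFinset.1 (Finset.mem_filter.1 hs).1))
    (by
      intro h hh
      obtain ⟨s, hs, rfl⟩ := Finset.mem_image.1 hh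
      exact List.idxOf_lt_length_iff.2 (List.mem_toFinset.1 (Finset.mem_filter.1 hs).1))
    (by
      intro h hh h' hh' hlt
      obtain ⟨s, hs, rfl⟩ := Finset.mem_image.1 hh
      obtain ⟨t, ht, rfl⟩ := Finset.mem_image.1 hh'
      obtain ⟨X, M, Y, e1, e2, e3, s1, s2, hnd, hmem⟩ := sur (hS s hs) (hS t ht) hlt
      have hst : s ≠ t := fun h => by rw [h] at hlt; omega
      obtain ⟨Q, x1, x2, q1', q2', q3, q4, q5, q6⟩ := hlink s hs t ht hst
      have hseg := ((s1.append q1' q5).append s2 q6.symm).append hAf h1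
      have := cyc (List.Sublist.refl _) (by simp; omega) hnd q2' q3 hmem
        (by simp only [← Multiset.coe_add]; abel) hseg h2
      simp only [List.length_append] at this
      omega)
    (by
      intro h hh i hi hlt
      obtain ⟨s, hs, rfl⟩ := Finset.mem_image.1 hh
      obtain ⟨z, hz, rfl⟩ := Finset.mem_image.1 hi
      rw [Finset.mem_filter, List.mem_toFinset] at hz
      obtain ⟨X, M, Y, e1, e2, e3, s1, s2, hnd, hmem⟩ := sur (hS s hs) hz.1 hlt
      have hsy : y ≠ s := by
        rintro rfl
        -- `s` is the last vertex of `B`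
        obtain ⟨X', M', Y', hX, e1', e2'⟩ := pair_split hnB (hS y hs) hz.1 hlt
        have hl := hB.lt
        have hX' : B = (X' ++ y :: M') ++ z :: Y' := by rw [hX]; simp
        have s3 : Seg G (z :: Y') z y := seg_suf (hX' ▸ hB)
        have hyin : y ∈ z :: Y' := by
          have := s3.lt
          exact List.mem_of_getLast? this
        rw [hX', List.nodup_append] at hnB
        exact hnB.2.2 y (by simp) y hyin rfl
      obtain ⟨Q, x1, x2, q1', q2', q3, q4, q5, q6⟩ := hlink y hy s hs hsy
      have hseg := ((hAR1.rev.append s2 hz.2).append q1' q5).append s1.rev q6.symm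
      have := cyc sAR (by simp; omega) hnd q2' q3 hmem (by
        simp only [← Multiset.coe_add, Multiset.coe_reverse]; abel) hseg h2.symm
      simp only [List.length_append] at this
      omega)
    (by
      intro h hh i hi hlt
      obtain ⟨s, hs, rfl⟩ := Finset.mem_image.1 hh
      obtain ⟨z, hz, rfl⟩ := Finset.mem_image.1 hi
      rw [Finset.mem_filter, List.mem_toFinset] at hz
      obtain ⟨X, M, Y, e1, e2, e3, s1, s2, hnd, hmem⟩ := sur hz.1 (hS s hs) hlt
      have hsy : y' ≠ s := by
        rintro rfl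
        omega
      obtain ⟨Q, x1, x2, q1', q2', q3, q4, q5, q6⟩ := hlink y' hy' s hs hsy
      have hseg := ((hR2A.append s1.rev hz.2).append q1' q5).append s2 q6.symm
      have := cyc sRA (by simp; omega) hnd q2' q3 hmem (by
        simp only [← Multiset.coe_add, Multiset.coe_reverse]; abel) hseg h1
      simp only [List.length_append] at this
      omega)
    (by
      intro i hi j hj
      obtain ⟨z, hz, rfl⟩ := Finset.mem_image.1 hi
      obtain ⟨w, hw, rfl⟩ := Finset.mem_image.1 hj
      rw [Finset.mem_filter, List.mem_toFinset] at hz hw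
      have hyy : ∀ {u v : V}, u ∈ B → v ∈ B → B.idxOf u < B.idxOf v → y ≠ y' := by
        intro u v hu hv huv heq
        obtain ⟨X', M', Y', hX, e1', e2'⟩ := pair_split hnB hu hv huv
        have hX' : B = (X' ++ u :: M') ++ v :: Y' := by rw [hX]; simp
        have s3 : Seg G (v :: Y') v y := seg_suf (hX' ▸ hB)
        have hyin : y ∈ v :: Y' := List.mem_of_getLast? s3.lt
        obtain ⟨Z1, Z2, hZ⟩ := List.append_of_mem hyin
        have hX2 : B = ((X' ++ u :: M') ++ Z1) ++ y :: Z2 := by rw [hX', hZ]; simp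
        have := idx_split hnB hX2
        rw [heq, h0] at this
        simp at this
      constructor
      · intro hlt
        obtain ⟨X, M, Y, e1, e2, e3, s1, s2, hnd, hmem⟩ := sur hz.1 hw.1 hlt
        obtain ⟨Q, x1, x2, q1', q2', q3, q4, q5, q6⟩ := hlink y hy y' hy' (hyy hz.1 hw.1 hlt)
        have hseg := ((s1.append hA hz.2.symm).append s2 hw.2).append q1' q5
        have := cyc sA h3 hnd q2' q3 hmem (by simp only [← Multiset.coe_add]; abel) hseg q6.symm
        omega
      · intro hlt
        obtain ⟨X, M, Y, e1, e2, e3, s1, s2, hnd, hmem⟩ := sur hw.1 hz.1 hlt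
        obtain ⟨Q, x1, x2, q1', q2', q3, q4, q5, q6⟩ := hlink y hy y' hy' (hyy hw.1 hz.1 hlt)
        have hseg := ((s1.append hA.rev hw.2.symm).append s2 hz.2).append q1' q5
        have := cyc sA h3 hnd q2' q3 hmem (by
          simp only [← Multiset.coe_add, Multiset.coe_reverse]; abel) hseg q6.symm
        omega)
  rw [inj S hS, inj _ (fun x hx => List.mem_toFinset.1 (Finset.mem_filter.1 hx).1),
    inj _ (fun x hx => List.mem_toFinset.1 (Finset.mem_filter.1 hx).1)] at cB
  have split : ∀ p : V, (((R2 ++ (A ++ R1)) ++ B).toFinset.filter (fun z => G.Adj p z)).card ≤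
      (R2.length + R1.length) + (A.toFinset.filter (fun z => G.Adj p z)).card +
      (B.toFinset.filter (fun z => G.Adj p z)).card := by
    intro p
    have hr : ∀ R : List V, (R.toFinset.filter (fun z => G.Adj p z)).card ≤ R.length :=
      fun R => (Finset.card_filter_le _ _).trans (List.toFinset_card_le R)
    have a1 := hr R1
    have a2 := hr R2
    rw [List.toFinset_append, Finset.filter_union, List.toFinset_append, Finset.filter_union,
      List.toFinset_append, Finset.filter_union]
    have b1 := Finset.card_union_le (R2.toFinset.filter (fun z => G.Adj p z) ∪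
      (A.toFinset.filter (fun z => G.Adj p z) ∪ R1.toFinset.filter (fun z => G.Adj p z)))
      (B.toFinset.filter (fun z => G.Adj p z))
    have b2 := Finset.card_union_le (R2.toFinset.filter (fun z => G.Adj p z))
      (A.toFinset.filter (fun z => G.Adj p z) ∪ R1.toFinset.filter (fun z => G.Adj p z))
    have b3 := Finset.card_union_le (A.toFinset.filter (fun z => G.Adj p z))
      (R1.toFinset.filter (fun z => G.Adj p z))
    omega
  have i1 := split p1
  have i2 := split p2
  have hc : 1 ≤ S.card := Finset.card_pos.2 ⟨y, hy⟩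
  obtain ⟨h, hh⟩ : ∃ h, S.card = h + 1 := ⟨S.card - 1, by omega⟩
  rw [hh] at cB ⊢
  simp only [List.length_append, Nat.add_sub_cancel] at cB ⊢
  subst hr
  have e3 : h * (R1.length + R2.length + r) = h * (R1.length + R2.length) + h * r := by ring
  have e4 : (h + 1) * (R1.length + R2.length) = h * (R1.length + R2.length) +
    (R1.length + R2.length) := by ring
  rw [e3, e4]
  omega

end Pool.Agent.TFG
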