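import Pool.Agent.TFG.Hub
import Pool.Agent.TFG.Links3

/-! G9 (H2, H3, H4): two runs with `δ + 1` vertices. `S` are the hubs of `v`, `D` the hubs of the
component of `v` whose predecessor is adjacent to `J`. -/

namespace Pool.Agent.TFG

open List Pool.Agent.TF82 Pool.Agent.TFC Pool.Agent.TFB Pool.Agent.TFN

universe u

set_option linter.unusedSectionVars false
set_option linter.unusedVariables false

variable {V : Type u} [DecidableEq V]

/-- H3 -/
theorem far [Fintype V] {G : SimpleGraph V} {F : List (List V)}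
    (hM : IsMax G F.length F) {Lo : ℕ} (hN : NoMerge G F Lo) {δ : ℕ} (hLo : δ + 10 ≤ Lo) {v : V}
    (hv : v ∈ unc F)
    (hlink : ∀ s ∈ F.flatten, G.Adj s v → ∀ t ∈ att G F v, Link G F v (δ + 1) s t)
    {s t : V} (hs : s ∈ F.flatten) (hsv : G.Adj s v) (ht : t ∈ att G F v) {i : ℕ} (hi : 1 ≤ i)
    (hiδ : i ≤ δ + 1) : (prv F)^[i] s ≠ t ∧ (prv F)^[i] t ≠ s := by
  obtain ⟨a, rfl⟩ : ∃ a, i = a + 1 := ⟨i - 1, by omega⟩
  have hl := hlink s hs hsv t ht
  constructor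
  · intro h
    have h1 := hub1 hM hN hs (a := a) (n := δ + 1) (y := v) (by omega) (by rw [h]; exact hl.symm)
    omega
  · intro h
    have h1 := hub1 hM hN (mem_att.1 ht).1 (a := a) (n := δ + 1) (y := v) (by omega)
      (by rw [h]; exact hl)
    omega

/-- the two runs and `D` do not meet one component twice -/
theorem two_runs_aux [Fintype V] {G : SimpleGraph V} {F : List (List V)}
    (hM : IsMax G F.length F) {Lo : ℕ} (hN : NoMerge G F Lo) {δ : ℕ} (hLo : δ + 10 ≤ Lo)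
    {J : Finset V} (hJ : J ⊆ unc F)
    (hJ1 : ∀ v ∈ J, ∀ v' ∈ J, v' ∈ comp G F v → v' = v)
    (hlink : ∀ v ∈ J, ∀ s ∈ F.flatten, G.Adj s v → ∀ t ∈ att G F v, Link G F v (δ + 1) s t)
    {v : V} (hv : v ∈ J) {x x' z : V} {i i' : ℕ} (hx : x ∈ att G F v) (hx' : x' ∈ att G F v)
    (hi : 1 ≤ i) (hi' : 1 ≤ i') (hii : i + i' ≤ δ + 2)
    (hone : G.Adj x v ∨ G.Adj x' v ∨ (i = 1 ∧ i' = 1)) (hz : z ∈ J) (hzv : z ≠ v)
    (h : G.Adj ((prv F)^[i] x) z) (h' : G.Adj ((prv F)^[i'] x') z) (hne : x ≠ x') : False := by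
  have hvu := hJ hv
  have hzu := hJ hz
  have hzc : z ∉ comp G F v := fun hc => hzv (hJ1 v hv z hz hc)
  have hxF := (mem_att.1 hx).1
  have hxF' := (mem_att.1 hx').1
  obtain ⟨a, rfl⟩ : ∃ a, i = a + 1 := ⟨i - 1, by omega⟩
  obtain ⟨b, rfl⟩ : ∃ b, i' = b + 1 := ⟨i' - 1, by omega⟩
  have hl' : Link G F z 1 ((prv F)^[a + 1] x) ((prv F)^[b + 1] x') := by
    refine link_one hzu ?_ ?_
    · exact mem_att.2 ⟨iter_mem hM.fam hxF _, z, Relation.ReflTransGen.refl, h⟩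
    · exact mem_att.2 ⟨iter_mem hM.fam hxF' _, z, Relation.ReflTransGen.refl, h'⟩
  rcases hone with h1 | h1 | ⟨h1, h2⟩
  · have hf : ∀ i, 1 ≤ i → i ≤ δ + 1 → (prv F)^[i] x ≠ x' ∧ (prv F)^[i] x' ≠ x :=
      fun i hi hi2 => far hM hN hLo hvu (hlink v hv) hxF h1 hx' hi hi2
    have := hub3 hM hN hxF hxF' hne hvu hzu hzc (a := a) (b := b) (n := δ + 1) (n' := 1)
      (by omega) (by omega) (fun i hi hi2 => (hf i hi (by omega)).1)
      (fun i hi hi2 => (hf i hi (by omega)).2) (hlink v hv x hxF h1 x' hx') hl'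
    omega
  · have hf : ∀ i, 1 ≤ i → i ≤ δ + 1 → (prv F)^[i] x' ≠ x ∧ (prv F)^[i] x ≠ x' :=
      fun i hi hi2 => far hM hN hLo hvu (hlink v hv) hxF' h1 hx hi hi2
    have := hub3 hM hN hxF hxF' hne hvu hzu hzc (a := a) (b := b) (n := δ + 1) (n' := 1)
      (by omega) (by omega) (fun i hi hi2 => (hf i hi (by omega)).2)
      (fun i hi hi2 => (hf i hi (by omega)).1) (hlink v hv x' hxF' h1 x hx).symm hl'
    omega
  · have ha0 : a = 0 := by omega
    have hb0 : b = 0 := by omega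
    subst ha0 hb0
    have := hub3 hM hN hxF hxF' hne hvu hzu hzc (a := 0) (b := 0) (n := 1) (n' := 1)
      (by omega) (by omega) (fun i hi hi2 => by omega)
      (fun i hi hi2 => by omega) (link_one hvu hx hx') hl'
    omega

/-- one run does not meet one component twice -/
theorem two_runs_aux1 [Fintype V] {G : SimpleGraph V} {F : List (List V)}
    (hM : IsMax G F.length F) {Lo : ℕ} (hN : NoMerge G F Lo) {δ : ℕ} (hLo : δ + 10 ≤ Lo)
    {J : Finset V}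
    (hlink : ∀ v ∈ J, ∀ s ∈ F.flatten, G.Adj s v → ∀ t ∈ att G F v, Link G F v (δ + 1) s t)
    {x z : V} {i i' : ℕ} (hx : x ∈ F.flatten) (hi : 1 ≤ i) (hii : i < i') (hi' : i' ≤ δ + 1)
    (hz : z ∈ J) (h : G.Adj ((prv F)^[i] x) z) (h' : G.Adj ((prv F)^[i'] x) z) : False := by
  obtain ⟨a, rfl⟩ : ∃ a, i' = a + 1 + i := ⟨i' - i - 1, by omega⟩
  rw [Function.iterate_add_apply] at h'
  have hp : (prv F)^[i] x ∈ F.flatten := iter_mem hM.fam hx i
  have hl := hlink z hz _ (iter_mem hM.fam hp (a + 1)) h' _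
    (mem_att.2 ⟨hp, z, Relation.ReflTransGen.refl, h⟩)
  have := hub1 hM hN hp (a := a) (n := δ + 1) (y := z) (by omega) hl
  omega

/-- H4 -/
theorem two_runs [Fintype V] {G : SimpleGraph V} [DecidableRel G.Adj] {F : List (List V)}
    (hM : IsMax G F.length F) {Lo : ℕ} (hN : NoMerge G F Lo) {δ : ℕ} (hLo : δ + 10 ≤ Lo)
    {J : Finset V} (hJ : J ⊆ unc F)
    (hJ1 : ∀ v ∈ J, ∀ v' ∈ J, v' ∈ comp G F v → v' = v)
    (hlink : ∀ v ∈ J, ∀ s ∈ F.flatten, G.Adj s v → ∀ t ∈ att G F v, Link G F v (δ + 1) s t)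
    {v : V} (hv : v ∈ J) {D : Finset V}
    (hD : ∀ u, u ∈ D ↔ u ∈ att G F v ∧ NJ G J (prv F u)) {s t : V} (hs : s ∈ F.flatten)
    (hsv : G.Adj s v) (ht : t ∈ F.flatten) (htv : G.Adj t v) (hst : s ≠ t) {a b : ℕ}
    (hab : a + b = δ + 1) (ha : ∀ i, 1 ≤ i → i ≤ a → NJ G J ((prv F)^[i] s))
    (hb : ∀ i, 1 ≤ i → i ≤ b → NJ G J ((prv F)^[i] t)) : δ + D.card ≤ J.card := by
  classical
  have hvu := hJ hv
  have hsa : s ∈ att G F v := mem_att.2 ⟨hs, v, Relation.ReflTransGen.refl, hsv⟩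
  have hta : t ∈ att G F v := mem_att.2 ⟨ht, v, Relation.ReflTransGen.refl, htv⟩
  -- the index set
  set T1 : Finset (V × ℕ) := (Finset.Icc 1 a).image (fun i => (s, i)) with hT1
  set T2 : Finset (V × ℕ) := (Finset.Icc 1 b).image (fun i => (t, i)) with hT2
  set T3 : Finset (V × ℕ) := ((D.erase s).erase t).image (fun u => (u, 1)) with hT3
  have hmem : ∀ p ∈ T1 ∪ T2 ∪ T3, p.1 ∈ att G F v ∧ 1 ≤ p.2 ∧ NJ G J ((prv F)^[p.2] p.1) ∧
      ((p.1 = s ∧ p.2 ≤ a) ∨ (p.1 = t ∧ p.2 ≤ b) ∨ (p.1 ≠ s ∧ p.1 ≠ t ∧ p.2 = 1)) := by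
    intro p hp
    rw [Finset.mem_union, Finset.mem_union] at hp
    rcases hp with (hp | hp) | hp
    · obtain ⟨i, hi, rfl⟩ := Finset.mem_image.1 hp
      rw [Finset.mem_Icc] at hi
      exact ⟨hsa, hi.1, ha i hi.1 hi.2, Or.inl ⟨rfl, hi.2⟩⟩
    · obtain ⟨i, hi, rfl⟩ := Finset.mem_image.1 hp
      rw [Finset.mem_Icc] at hi
      exact ⟨hta, hi.1, hb i hi.1 hi.2, Or.inr (Or.inl ⟨rfl, hi.2⟩)⟩
    · obtain ⟨u, hu, rfl⟩ := Finset.mem_image.1 hp
      rw [Finset.mem_erase, Finset.mem_erase, hD] at hu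
      exact ⟨hu.2.2.1, le_rfl, hu.2.2.2, Or.inr (Or.inr ⟨hu.2.1, hu.1, rfl⟩)⟩
  have hcard : (T1 ∪ T2 ∪ T3).card = a + b + ((D.erase s).erase t).card := by
    have c1 : T1.card = a := by
      rw [hT1, Finset.card_image_of_injective _ (fun i j h => (Prod.ext_iff.1 h).2), Nat.card_Icc]
      omega
    have c2 : T2.card = b := by
      rw [hT2, Finset.card_image_of_injective _ (fun i j h => (Prod.ext_iff.1 h).2), Nat.card_Icc]
      omega
    have c3 : T3.card = ((D.erase s).erase t).card := by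
      rw [hT3, Finset.card_image_of_injective _ (fun i j h => (Prod.ext_iff.1 h).1)]
    have d12 : Disjoint T1 T2 := by
      rw [Finset.disjoint_left]
      intro p h1 h2
      obtain ⟨i, -, rfl⟩ := Finset.mem_image.1 h1
      obtain ⟨j, -, hj⟩ := Finset.mem_image.1 h2
      exact hst (Prod.ext_iff.1 hj).1.symm
    have d123 : Disjoint (T1 ∪ T2) T3 := by
      rw [Finset.disjoint_left]
      intro p h1 h2
      obtain ⟨u, hu, rfl⟩ := Finset.mem_image.1 h2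
      rw [Finset.mem_erase, Finset.mem_erase] at hu
      rcases Finset.mem_union.1 h1 with h1 | h1
      · obtain ⟨j, -, hj⟩ := Finset.mem_image.1 h1
        exact hu.2.1 (Prod.ext_iff.1 hj).1.symm
      · obtain ⟨j, -, hj⟩ := Finset.mem_image.1 h1
        exact hu.1 (Prod.ext_iff.1 hj).1.symm
    rw [Finset.card_union_of_disjoint d123, Finset.card_union_of_disjoint d12, c1, c2, c3]
  -- the chosen elements of `J`
  have hex : ∀ p : V × ℕ, ∃ y, p ∈ T1 ∪ T2 ∪ T3 → y ∈ J ∧ G.Adj ((prv F)^[p.2] p.1) y := by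
    intro p
    by_cases hp : p ∈ T1 ∪ T2 ∪ T3
    · obtain ⟨y, h1, h2⟩ := (hmem p hp).2.2.1
      exact ⟨y, fun _ => ⟨h1, h2⟩⟩
    · exact ⟨v, fun h => absurd h hp⟩
  choose f hf using hex
  have hfv : ∀ p ∈ T1 ∪ T2 ∪ T3, f p ≠ v := by
    intro p hp h
    obtain ⟨h1, h2, -, h4⟩ := hmem p hp
    have h5 := (hf p hp).2
    rw [h] at h5
    have h6 : (prv F)^[p.2] p.1 ∈ att G F v :=
      mem_att.2 ⟨iter_mem hM.fam (mem_att.1 h1).1 _, v, Relation.ReflTransGen.refl, h5⟩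
    rcases h4 with ⟨h7, h8⟩ | ⟨h7, h8⟩ | ⟨-, -, h8⟩
    · rw [h7] at h6
      exact (far hM hN hLo hvu (hlink v hv) hs hsv h6 h2 (by omega)).1 rfl
    · rw [h7] at h6
      exact (far hM hN hLo hvu (hlink v hv) ht htv h6 h2 (by omega)).1 rfl
    · rw [h8] at h6
      exact att_noins hM hvu h1 h6
  have hinj : Set.InjOn f (T1 ∪ T2 ∪ T3 : Finset (V × ℕ)) := by
    rintro ⟨x, i⟩ hp ⟨x', i'⟩ hq hpq
    have hp' := Finset.mem_coe.1 hp
    have hq' := Finset.mem_coe.1 hq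
    obtain ⟨h1, h2, -, h4⟩ := hmem _ hp'
    obtain ⟨g1, g2, -, g4⟩ := hmem _ hq'
    obtain ⟨h5, h6⟩ := hf _ hp'
    obtain ⟨-, g6⟩ := hf _ hq'
    have h7 := hfv _ hp'
    rw [← hpq] at g6
    simp only at h1 h2 h4 g1 g2 g4 h6 g6
    by_cases hxx : x = x'
    · subst hxx
      by_cases hii : i = i'
      · rw [hii]
      · exfalso
        have hi1 : i ≤ δ + 1 := by
          rcases h4 with ⟨-, h8⟩ | ⟨-, h8⟩ | ⟨-, -, h8⟩ <;> omega
        have hi2 : i' ≤ δ + 1 := by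
          rcases g4 with ⟨-, h8⟩ | ⟨-, h8⟩ | ⟨-, -, h8⟩ <;> omega
        rcases Nat.lt_or_gt_of_ne hii with hlt | hlt
        · exact two_runs_aux1 hM hN hLo hlink (mem_att.1 h1).1 h2 hlt hi2 h5 h6 g6
        · exact two_runs_aux1 hM hN hLo hlink (mem_att.1 h1).1 g2 hlt hi1 h5 g6 h6
    · exfalso
      refine two_runs_aux hM hN hLo hJ hJ1 hlink hv h1 g1 h2 g2 ?_ ?_ h5 h7 h6 g6 hxx
      · rcases h4 with ⟨h8, h9⟩ | ⟨h8, h9⟩ | ⟨h8, h8', h9⟩ <;>
          rcases g4 with ⟨g8, g9⟩ | ⟨g8, g9⟩ | ⟨g8, g8', g9⟩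
        · exact absurd (h8.trans g8.symm) hxx
        · omega
        · omega
        · omega
        · exact absurd (h8.trans g8.symm) hxx
        · omega
        · omega
        · omega
        · omega
      · rcases h4 with ⟨h8, -⟩ | ⟨h8, -⟩ | ⟨-, -, h9⟩
        · left; rw [h8]; exact hsv
        · left; rw [h8]; exact htv
        · rcases g4 with ⟨g8, -⟩ | ⟨g8, -⟩ | ⟨-, -, g9⟩
          · right; left; rw [g8]; exact hsv
          · right; left; rw [g8]; exact htv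
          · right; right; exact ⟨h9, g9⟩
  have hle : (T1 ∪ T2 ∪ T3).card ≤ (J.erase v).card := by
    refine Finset.card_le_card_of_injOn f ?_ hinj
    intro p hp
    exact Finset.mem_coe.2 (Finset.mem_erase.2 ⟨hfv p (Finset.mem_coe.1 hp), (hf p (Finset.mem_coe.1 hp)).1⟩)
  rw [hcard, Finset.card_erase_of_mem hv] at hle
  have h1 := Finset.card_pos.2 ⟨v, hv⟩
  have h2 : D.card ≤ (D.erase s).card + 1 := by
    have := Finset.pred_card_le_card_erase (s := D) (a := s)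
    omega
  have h3 : (D.erase s).card ≤ ((D.erase s).erase t).card + 1 := by
    have := Finset.pred_card_le_card_erase (s := D.erase s) (a := t)
    omega
  omega

end Pool.Agent.TFG
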